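import Pool.Agent.Work.MP_d7201b_al.Defs

/-!
# A torsion-free group with a right 4-Engel element whose normal closure has class three

The group is `ℚ⁴ ⋊ ℚ`, where `m ∈ ℚ` acts as `exp (m T)`, `T` a nilpotent Jordan block.
-/

namespace Pool.Agent.Work.MP_d7201b_al

open scoped commutatorElement

/-- The elements `(n; a, b, c, d)`. -/
@[ext] structure E4 where
  /-- the first coordinate -/
  n : ℚ
  /-- a coordinate -/
  a : ℚ
  /-- a coordinate -/
  b : ℚ
  /-- a coordinate -/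
  c : ℚ
  /-- a coordinate -/
  d : ℚ

namespace E4

/-- The product. -/
def mul (g h : E4) : E4 :=
  ⟨g.n + h.n, g.a + h.a, g.b + h.n * g.a + h.b, g.c + h.n * g.b + h.n ^ 2 / 2 * g.a + h.c,
    g.d + h.n * g.c + h.n ^ 2 / 2 * g.b + h.n ^ 3 / 6 * g.a + h.d⟩

/-- The inverse. -/
def inv (g : E4) : E4 :=
  ⟨-g.n, -g.a, -g.b + g.n * g.a, -g.c + g.n * g.b - g.n ^ 2 / 2 * g.a,
    -g.d + g.n * g.c - g.n ^ 2 / 2 * g.b + g.n ^ 3 / 6 * g.a⟩

instance : Mul E4 := ⟨mul⟩
instance : One E4 := ⟨⟨0, 0, 0, 0, 0⟩⟩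
instance : Inv E4 := ⟨inv⟩

@[simp] theorem mul_n (g h : E4) : (g * h).n = g.n + h.n := rfl
@[simp] theorem mul_a (g h : E4) : (g * h).a = g.a + h.a := rfl
@[simp] theorem mul_b (g h : E4) : (g * h).b = g.b + h.n * g.a + h.b := rfl
@[simp] theorem mul_c (g h : E4) : (g * h).c = g.c + h.n * g.b + h.n ^ 2 / 2 * g.a + h.c := rfl
@[simp] theorem mul_d (g h : E4) :
    (g * h).d = g.d + h.n * g.c + h.n ^ 2 / 2 * g.b + h.n ^ 3 / 6 * g.a + h.d := rfl
@[simp] theorem one_n : (1 : E4).n = 0 := rfl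
@[simp] theorem one_a : (1 : E4).a = 0 := rfl
@[simp] theorem one_b : (1 : E4).b = 0 := rfl
@[simp] theorem one_c : (1 : E4).c = 0 := rfl
@[simp] theorem one_d : (1 : E4).d = 0 := rfl
@[simp] theorem inv_n (g : E4) : (g⁻¹).n = -g.n := rfl
@[simp] theorem inv_a (g : E4) : (g⁻¹).a = -g.a := rfl
@[simp] theorem inv_b (g : E4) : (g⁻¹).b = -g.b + g.n * g.a := rfl
@[simp] theorem inv_c (g : E4) : (g⁻¹).c = -g.c + g.n * g.b - g.n ^ 2 / 2 * g.a := rfl
@[simp] theorem inv_d (g : E4) :
    (g⁻¹).d = -g.d + g.n * g.c - g.n ^ 2 / 2 * g.b + g.n ^ 3 / 6 * g.a := rfl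

instance : Group E4 where
  mul_assoc g h k := by ext <;> simp <;> ring
  one_mul g := by ext <;> simp
  mul_one g := by ext <;> simp
  inv_mul_cancel g := by ext <;> simp <;> ring

/-- The terms of a central series. -/
def S (k : ℕ) : Subgroup E4 where
  carrier := {g | (1 ≤ k → g.n = 0 ∧ g.a = 0) ∧ (2 ≤ k → g.b = 0) ∧ (3 ≤ k → g.c = 0) ∧
    (4 ≤ k → g.d = 0)}
  one_mem' := by simp
  mul_mem' := by
    rintro g h ⟨h1, h2, h3, h4⟩ ⟨h1', h2', h3', h4'⟩
    refine ⟨fun hk => ?_, fun hk => ?_, fun hk => ?_, fun hk => ?_⟩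
    · simp [h1 hk, h1' hk]
    · simp [h1 (by omega), h2 hk, h2' hk]
    · simp [h1 (by omega), h2 (by omega), h3 hk, h3' hk]
    · simp [h1 (by omega), h2 (by omega), h3 (by omega), h4 hk, h4' hk]
  inv_mem' := by
    rintro g ⟨h1, h2, h3, h4⟩
    refine ⟨fun hk => ?_, fun hk => ?_, fun hk => ?_, fun hk => ?_⟩
    · simp [h1 hk]
    · simp [h1 (by omega), h2 hk]
    · simp [h1 (by omega), h2 (by omega), h3 hk]
    · simp [h1 (by omega), h2 (by omega), h3 (by omega), h4 hk]

theorem mem_S {k : ℕ} {g : E4} : g ∈ S k ↔ (1 ≤ k → g.n = 0 ∧ g.a = 0) ∧ (2 ≤ k → g.b = 0) ∧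
    (3 ≤ k → g.c = 0) ∧ (4 ≤ k → g.d = 0) := Iff.rfl

theorem comm_mem {k : ℕ} {g : E4} (hg : g ∈ S k) (h : E4) : comm g h ∈ S (k + 1) := by
  obtain ⟨h1, h2, h3, h4⟩ := hg
  rcases Nat.lt_or_ge k 1 with hk | hk
  · obtain rfl : k = 0 := by omega
    refine ⟨fun _ => ?_, fun h => by omega, fun h => by omega, fun h => by omega⟩
    constructor <;> simp [comm]
  · obtain ⟨hn, ha⟩ := h1 hk
    refine ⟨fun _ => ?_, fun _ => ?_, fun h' => ?_, fun h' => ?_⟩
    · constructor <;> simp [comm]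
    · simp [comm, hn, ha]
    · simp [comm, hn, ha, h2 (by omega)]
      ring
    · simp [comm, hn, ha, h2 (by omega), h3 (by omega)]
      ring

theorem four {g : E4} (h : g ∈ S 4) : g = 1 := by
  obtain ⟨h1, h2, h3, h4⟩ := h
  ext
  · exact (h1 (by omega)).1
  · exact (h1 (by omega)).2
  · exact h2 (by omega)
  · exact h3 (by omega)
  · exact h4 (by omega)

theorem isRightEngel (g : E4) : IsRightEngel 4 g := by
  intro h
  apply four
  have key : ∀ k, engel g h k ∈ S k := by
    intro k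
    induction k with
    | zero => exact ⟨fun h => by omega, fun h => by omega, fun h => by omega, fun h => by omega⟩
    | succ k ih => exact comm_mem ih h
  exact key 4

theorem isNilpotent : Group.IsNilpotent E4 := by
  rw [Subgroup.nilpotent_iff_lowerCentralSeries]
  refine ⟨4, ?_⟩
  rw [eq_bot_iff]
  have key : ∀ k, (⊤ : Subgroup E4).lowerCentralSeries k ≤ S k := by
    intro k
    induction k with
    | zero => exact fun g _ =>
        ⟨fun h => by omega, fun h => by omega, fun h => by omega, fun h => by omega⟩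
    | succ k ih =>
      rw [Subgroup.lowerCentralSeries_succ, Subgroup.commutator_le]
      intro g hg h _
      have e : ⁅g, h⁆ = comm g⁻¹ h⁻¹ := by rw [commutatorElement_def]; unfold comm; group
      rw [e]
      exact comm_mem (inv_mem (ih hg)) _
  exact fun g hg => Subgroup.mem_bot.mpr (four (key 4 hg))

theorem pow_n (g : E4) (k : ℕ) : (g ^ k).n = k * g.n := by
  induction k with
  | zero => simp
  | succ k ih => rw [pow_succ, mul_n, ih]; push_cast; ring

theorem pow_eq (g : E4) (h : g.n = 0) (k : ℕ) : g ^ k = ⟨0, k * g.a, k * g.b, k * g.c, k * g.d⟩ := by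
  induction k with
  | zero => ext <;> simp
  | succ k ih =>
    rw [pow_succ, ih]
    ext
    · simp [h]
    · simp; ring
    · simp [h]; ring
    · simp [h]; ring
    · simp [h]; ring

theorem torsionFree (g : E4) (k : ℕ) (hk : k ≠ 0) (h : g ^ k = 1) : g = 1 := by
  have hk' : (k : ℚ) ≠ 0 := Nat.cast_ne_zero.mpr hk
  have hn : g.n = 0 := by
    have := congrArg E4.n h
    rw [pow_n, one_n] at this
    exact (mul_eq_zero.mp this).resolve_left hk'
  rw [pow_eq g hn] at h
  have ha := congrArg E4.a h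
  have hb := congrArg E4.b h
  have hc := congrArg E4.c h
  have hd := congrArg E4.d h
  simp only [one_a, one_b, one_c, one_d, mul_eq_zero, hk', false_or] at ha hb hc hd
  ext <;> assumption

/-- The element whose normal closure has class three. -/
def x : E4 := ⟨1, 0, 0, 0, 0⟩

/-- Another element. -/
def y : E4 := ⟨0, 1, 0, 0, 0⟩

theorem three : (Subgroup.normalClosure {x}).lowerCentralSeries 2 ≠ ⊥ := by
  intro h
  have hN : (Subgroup.normalClosure {x}).Normal := Subgroup.normalClosure_normal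
  have hx : x ∈ Subgroup.normalClosure {x} := Subgroup.subset_normalClosure (Set.mem_singleton x)
  have h1 : y * x * y⁻¹ * x⁻¹ ∈ Subgroup.normalClosure {x} :=
    mul_mem (hN.conj_mem x hx y) (inv_mem hx)
  have h2 : ⁅y * x * y⁻¹ * x⁻¹, x⁆ ∈ (Subgroup.normalClosure {x}).lowerCentralSeries 1 :=
    Subgroup.commutator_mem_commutator h1 hx
  have h3 : ⁅⁅y * x * y⁻¹ * x⁻¹, x⁆, x⁆ ∈ (Subgroup.normalClosure {x}).lowerCentralSeries 2 :=
    Subgroup.commutator_mem_commutator h2 hx
  rw [h, Subgroup.mem_bot] at h3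
  have h4 := congrArg E4.d h3
  simp [commutatorElement_def, x, y] at h4
  norm_num at h4

end E4

end Pool.Agent.Work.MP_d7201b_al
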