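import Mathlib

/-!
# Extraction of homogeneous parts

`σ` is an additive map with `(σ - 1)⁴` killed by a multiadditive map `f`; `U` is six times the
logarithm of `σ`.  The values `f (σ^{k e₀} a) (σ^{k e₁} b) (σ^{k e₂} c) (σ^{k e₃} d)` are a
polynomial in `k`; we extract its parts of degree `1`, `2`, `3`.
-/

namespace Pool.Agent.Work.MP_d7201b_al

namespace Lin

variable {M V : Type*} [AddCommGroup M] [AddCommGroup V]

/-- `σ - 1`. -/
def T (σ : M →+ M) : M →+ M := σ - AddMonoidHom.id M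

theorem T_apply (σ : M →+ M) (b : M) : T σ b = σ b - b := rfl

theorem σ_apply (σ : M →+ M) (b : M) : σ b = b + T σ b := by rw [T_apply]; abel

/-- Six times the logarithm of `σ`. -/
def U (σ : M →+ M) : M →+ M :=
  (6 : ℤ) • T σ - (3 : ℤ) • (T σ).comp (T σ) + (2 : ℤ) • (T σ).comp ((T σ).comp (T σ))

theorem U_apply (σ : M →+ M) (b : M) :
    U σ b = (6 : ℤ) • T σ b - (3 : ℤ) • T σ (T σ b) + (2 : ℤ) • T σ (T σ (T σ b)) := rfl

/-- The coefficients of the exponential. -/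
def cc : ℕ → ℤ
  | 0 => 1296
  | 1 => 216
  | 2 => 18
  | 3 => 1
  | _ => 0

theorem exp_aux (σ : M →+ M) (φ : M →+ V) (h : ∀ b, φ (T σ (T σ (T σ (T σ b)))) = 0) (e : ℕ)
    (b : M) : (6 : ℤ) • φ (σ^[e] b) = (6 : ℤ) • φ b + (6 * e : ℤ) • φ (T σ b) +
      (3 * e * (e - 1) : ℤ) • φ (T σ (T σ b)) +
      (e * (e - 1) * (e - 2) : ℤ) • φ (T σ (T σ (T σ b))) := by
  induction e generalizing b with
  | zero => simp
  | succ e ih =>
    rw [Function.iterate_succ_apply, ih (σ b), σ_apply σ b]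
    simp only [map_add, h]
    push_cast
    module

theorem exp1 (σ : M →+ M) (φ : M →+ V) (h : ∀ b, φ (T σ (T σ (T σ (T σ b)))) = 0) (e : ℕ)
    (b : M) : (1296 : ℤ) • φ (σ^[e] b) =
      ∑ i ∈ Finset.range 4, (cc i * (e : ℤ) ^ i) • φ ((U σ)^[i] b) := by
  have h0 := exp_aux σ φ h e b
  have h1 : φ (U σ b) = (6 : ℤ) • φ (T σ b) - (3 : ℤ) • φ (T σ (T σ b)) +
      (2 : ℤ) • φ (T σ (T σ (T σ b))) := by
    simp only [U_apply, map_add, map_sub, map_zsmul]
  have h2 : φ (U σ (U σ b)) = (36 : ℤ) • φ (T σ (T σ b)) -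
      (36 : ℤ) • φ (T σ (T σ (T σ b))) := by
    simp only [U_apply, map_add, map_sub, map_zsmul, h]
    module
  have h3 : φ (U σ (U σ (U σ b))) = (216 : ℤ) • φ (T σ (T σ (T σ b))) := by
    simp only [U_apply, map_add, map_sub, map_zsmul, h]
    module
  simp only [Finset.sum_range_succ, Finset.range_zero, Finset.sum_empty, cc,
    Function.iterate_succ_apply', Function.iterate_zero_apply, h1, h2, h3]
  linear_combination (norm := module) (216 : ℤ) • h0

/-- The values of `f` at the iterates of `U`. -/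
def val (f : M →+ M →+ M →+ M →+ V) (σ : M →+ M) (a b c d : M) (i j k l : ℕ) : V :=
  f ((U σ)^[i] a) ((U σ)^[j] b) ((U σ)^[k] c) ((U σ)^[l] d)

/-- `f` kills the fourth power of `σ - 1` in each variable. -/
structure Nil4 (f : M →+ M →+ M →+ M →+ V) (σ : M →+ M) : Prop where
  h1 : ∀ a b c d, f (T σ (T σ (T σ (T σ a)))) b c d = 0
  h2 : ∀ a b c d, f a (T σ (T σ (T σ (T σ b)))) c d = 0
  h3 : ∀ a b c d, f a b (T σ (T σ (T σ (T σ c)))) d = 0
  h4 : ∀ a b c d, f a b c (T σ (T σ (T σ (T σ d)))) = 0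

variable {f : M →+ M →+ M →+ M →+ V} {σ : M →+ M}

theorem expand4 (hn : Nil4 f σ) (a b c d : M) (e0 e1 e2 e3 : ℕ) :
    (1296 ^ 4 : ℤ) • f (σ^[e0] a) (σ^[e1] b) (σ^[e2] c) (σ^[e3] d) =
      ∑ i ∈ Finset.range 4, ∑ j ∈ Finset.range 4, ∑ k ∈ Finset.range 4, ∑ l ∈ Finset.range 4,
        ((cc i * (e0 : ℤ) ^ i) * (cc j * (e1 : ℤ) ^ j) * (cc k * (e2 : ℤ) ^ k) *
          (cc l * (e3 : ℤ) ^ l)) • val f σ a b c d i j k l := by
  have k1 : ∀ b c d, (1296 : ℤ) • f (σ^[e0] a) b c d =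
      ∑ i ∈ Finset.range 4, (cc i * (e0 : ℤ) ^ i) • f ((U σ)^[i] a) b c d := by
    intro b c d
    exact exp1 σ ((((AddMonoidHom.eval d).comp ((AddMonoidHom.eval c).comp
      ((AddMonoidHom.eval b).comp f)))) : M →+ V) (fun x => hn.h1 x b c d) e0 a
  have k2 : ∀ a c d, (1296 : ℤ) • f a (σ^[e1] b) c d =
      ∑ j ∈ Finset.range 4, (cc j * (e1 : ℤ) ^ j) • f a ((U σ)^[j] b) c d := by
    intro a c d
    exact exp1 σ ((((AddMonoidHom.eval d).comp ((AddMonoidHom.eval c).comp (f a)))) : M →+ V)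
      (fun x => hn.h2 a x c d) e1 b
  have k3 : ∀ a b d, (1296 : ℤ) • f a b (σ^[e2] c) d =
      ∑ k ∈ Finset.range 4, (cc k * (e2 : ℤ) ^ k) • f a b ((U σ)^[k] c) d := by
    intro a b d
    exact exp1 σ ((((AddMonoidHom.eval d).comp (f a b))) : M →+ V)
      (fun x => hn.h3 a b x d) e2 c
  have k4 : ∀ a b c, (1296 : ℤ) • f a b c (σ^[e3] d) =
      ∑ l ∈ Finset.range 4, (cc l * (e3 : ℤ) ^ l) • f a b c ((U σ)^[l] d) := by
    intro a b c
    exact exp1 σ (f a b c) (fun x => hn.h4 a b c x) e3 d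
  have e : (1296 ^ 4 : ℤ) • f (σ^[e0] a) (σ^[e1] b) (σ^[e2] c) (σ^[e3] d) =
      (1296 : ℤ) • (1296 : ℤ) • (1296 : ℤ) • (1296 : ℤ) •
        f (σ^[e0] a) (σ^[e1] b) (σ^[e2] c) (σ^[e3] d) := by
    simp only [smul_smul]; norm_num
  have m1 : ∀ (p q r s : ℤ) (v : V), p • q • r • s • v = s • p • q • r • v := by
    intro p q r s v
    simp only [smul_smul]; congr 1; ring
  have m2 : ∀ (p q r s : ℤ) (v : V), p • q • r • s • v = p • s • q • r • v := by
    intro p q r s v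
    simp only [smul_smul]; congr 1; ring
  have m3 : ∀ (p q r s : ℤ) (v : V), p • q • r • s • v = p • q • s • r • v := by
    intro p q r s v
    simp only [smul_smul]; congr 1; ring
  rw [e, k1]
  simp only [Finset.smul_sum]
  refine Finset.sum_congr rfl fun i _ => ?_
  rw [m1, k2]
  simp only [Finset.smul_sum]
  refine Finset.sum_congr rfl fun j _ => ?_
  rw [m2, k3]
  simp only [Finset.smul_sum]
  refine Finset.sum_congr rfl fun k _ => ?_
  rw [m3, k4]
  simp only [Finset.smul_sum]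
  refine Finset.sum_congr rfl fun l _ => ?_
  simp only [smul_smul, val]
  congr 1
  ring

/-- The coefficients in `expand4`. -/
def co (e0 e1 e2 e3 i j k l : ℕ) : ℤ :=
  (cc i * (e0 : ℤ) ^ i) * (cc j * (e1 : ℤ) ^ j) * (cc k * (e2 : ℤ) ^ k) * (cc l * (e3 : ℤ) ^ l)

/-- A weighted sum of the first seven values. -/
def Lam (wt : ℕ → ℤ) (P : ℕ → V) : V := ∑ n ∈ Finset.range 7, wt n • P n

theorem lam_gen (wt : ℕ → ℤ) (m : ℕ) (C : ℤ)
    (hw : ∀ e < 7, ∑ n ∈ Finset.range 7, wt n * (n : ℤ) ^ e = if e = m then C else 0) (hm : m < 7)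
    (hn : Nil4 f σ) (a b c d : M) (e0 e1 e2 e3 : ℕ)
    (hv : ∀ i j k l, 7 ≤ i + j + k + l → co e0 e1 e2 e3 i j k l • val f σ a b c d i j k l = 0) :
    (1296 ^ 4 : ℤ) • Lam wt (fun n => f (σ^[n * e0] a) (σ^[n * e1] b) (σ^[n * e2] c)
      (σ^[n * e3] d)) =
      ∑ i ∈ Finset.range 4, ∑ j ∈ Finset.range 4, ∑ k ∈ Finset.range 4, ∑ l ∈ Finset.range 4,
        (if i + j + k + l = m then (C * co e0 e1 e2 e3 i j k l) • val f σ a b c d i j k l
          else 0) := by
  have h1 : ∀ n : ℕ, (1296 ^ 4 : ℤ) • wt n • f (σ^[n * e0] a) (σ^[n * e1] b) (σ^[n * e2] c)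
      (σ^[n * e3] d) =
      ∑ i ∈ Finset.range 4, ∑ j ∈ Finset.range 4, ∑ k ∈ Finset.range 4, ∑ l ∈ Finset.range 4,
        (wt n * (n : ℤ) ^ (i + j + k + l)) • co e0 e1 e2 e3 i j k l • val f σ a b c d i j k l := by
    intro n
    rw [smul_comm, expand4 hn]
    simp only [Finset.smul_sum, co, smul_smul]
    refine Finset.sum_congr rfl fun i _ => Finset.sum_congr rfl fun j _ =>
      Finset.sum_congr rfl fun k _ => Finset.sum_congr rfl fun l _ => ?_
    congr 1
    push_cast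
    ring
  unfold Lam
  rw [Finset.smul_sum, Finset.sum_congr rfl fun n _ => h1 n]
  rw [Finset.sum_comm]
  refine Finset.sum_congr rfl fun i _ => ?_
  rw [Finset.sum_comm]
  refine Finset.sum_congr rfl fun j _ => ?_
  rw [Finset.sum_comm]
  refine Finset.sum_congr rfl fun k _ => ?_
  rw [Finset.sum_comm]
  refine Finset.sum_congr rfl fun l _ => ?_
  rw [← Finset.sum_smul]
  by_cases h : 7 ≤ i + j + k + l
  · rw [hv i j k l h, smul_zero, if_neg (by omega)]
  · rw [hw _ (by omega)]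
    split_ifs
    · rw [smul_smul]
    · rw [zero_smul]

/-- `V` has no `30`-torsion. -/
def NoTor (V : Type*) [AddCommGroup V] : Prop := ∀ v : V, (30 : ℤ) • v = 0 → v = 0

theorem NoTor.pow (ht : NoTor V) (k : ℕ) (v : V) (h : (30 ^ k : ℤ) • v = 0) : v = 0 := by
  induction k with
  | zero => simpa using h
  | succ k ih =>
    apply ih
    apply ht
    rw [smul_smul, ← pow_succ']
    exact h

theorem NoTor.cancel (ht : NoTor V) (n : ℤ) (k : ℕ) (m : ℤ) (hnm : m * n = 30 ^ k) {v : V}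
    (h : n • v = 0) : v = 0 := by
  apply ht.pow k
  rw [← hnm, mul_smul, h, smul_zero]

theorem NoTor.eq_of_1296 (ht : NoTor V) {v w : V} (h : (1296 ^ 4 : ℤ) • v = (1296 ^ 4 : ℤ) • w) :
    v = w := by
  rw [← sub_eq_zero]
  apply ht.cancel (1296 ^ 4) 16 (625 ^ 4) (by norm_num)
  rw [smul_sub, h, sub_self]

/-- Weights extracting the linear part. -/
def wt1 : ℕ → ℤ
  | 0 => -147
  | 1 => 360
  | 2 => -450
  | 3 => 400
  | 4 => -225
  | 5 => 72
  | 6 => -10
  | _ => 0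

/-- Weights extracting the quadratic part. -/
def wt2 : ℕ → ℤ
  | 0 => 812
  | 1 => -3132
  | 2 => 5265
  | 3 => -5080
  | 4 => 2970
  | 5 => -972
  | 6 => 137
  | _ => 0

/-- Weights extracting the cubic part. -/
def wt3 : ℕ → ℤ
  | 0 => -49 * 27
  | 1 => 232 * 27
  | 2 => -461 * 27
  | 3 => 496 * 27
  | 4 => -307 * 27
  | 5 => 104 * 27
  | 6 => -15 * 27
  | _ => 0

theorem wt1_spec : ∀ e < 7, ∑ n ∈ Finset.range 7, wt1 n * (n : ℤ) ^ e =
    if e = 1 then 60 else 0 := by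
  intro e he
  interval_cases e <;> simp [Finset.sum_range_succ, wt1]

theorem wt2_spec : ∀ e < 7, ∑ n ∈ Finset.range 7, wt2 n * (n : ℤ) ^ e =
    if e = 2 then 360 else 0 := by
  intro e he
  interval_cases e <;> simp [Finset.sum_range_succ, wt2]

theorem wt3_spec : ∀ e < 7, ∑ n ∈ Finset.range 7, wt3 n * (n : ℤ) ^ e =
    if e = 3 then 1296 else 0 := by
  intro e he
  interval_cases e <;> simp [Finset.sum_range_succ, wt3]

theorem lam1 (ht : NoTor V) (hn : Nil4 f σ)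
    (hv : ∀ a b c d i j k l, 7 ≤ i + j + k + l → val f σ a b c d i j k l = 0)
    (a b c d : M) (e0 e1 e2 e3 : ℕ) :
    Lam wt1 (fun n => f (σ^[n * e0] a) (σ^[n * e1] b) (σ^[n * e2] c) (σ^[n * e3] d)) =
      (10 : ℤ) • ((e0 : ℤ) • f (U σ a) b c d + (e1 : ℤ) • f a (U σ b) c d +
        (e2 : ℤ) • f a b (U σ c) d + (e3 : ℤ) • f a b c (U σ d)) := by
  apply ht.eq_of_1296
  rw [lam_gen wt1 1 60 wt1_spec (by norm_num) hn a b c d e0 e1 e2 e3
    (fun i j k l h => by rw [hv _ _ _ _ _ _ _ _ h, smul_zero])]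
  simp only [Finset.sum_range_succ, Finset.range_zero, Finset.sum_empty, zero_add, add_zero,
    Nat.reduceAdd, if_true, if_false, OfNat.ofNat_ne_one, OfNat.ofNat_ne_zero, zero_ne_one,
    one_ne_zero, co, cc, val, pow_zero, pow_one, mul_one, Function.iterate_zero_apply,
    Function.iterate_one, Nat.reduceEqDiff]
  module

theorem lam2 (ht : NoTor V) (hn : Nil4 f σ) (a b c d : M)
    (hv : ∀ i j k, 7 ≤ i + j + k → val f σ a b c d i j k 0 = 0)
    (e0 e1 e2 : ℕ) :
    Lam wt2 (fun n => f (σ^[n * e0] a) (σ^[n * e1] b) (σ^[n * e2] c) d) =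
      (5 : ℤ) • ((e0 ^ 2 : ℤ) • f (U σ (U σ a)) b c d + (e1 ^ 2 : ℤ) • f a (U σ (U σ b)) c d +
        (e2 ^ 2 : ℤ) • f a b (U σ (U σ c)) d + (2 * e0 * e1 : ℤ) • f (U σ a) (U σ b) c d +
        (2 * e0 * e2 : ℤ) • f (U σ a) b (U σ c) d + (2 * e1 * e2 : ℤ) • f a (U σ b) (U σ c) d) := by
  apply ht.eq_of_1296
  have h := lam_gen wt2 2 360 wt2_spec (by norm_num) hn a b c d e0 e1 e2 0
    (fun i j k l h => by
      rcases Nat.eq_zero_or_pos l with hl | hl
      · subst hl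
        rw [hv i j k (by omega), smul_zero]
      · have : co e0 e1 e2 0 i j k l = 0 := by
          unfold co
          rw [Nat.cast_zero, zero_pow (by omega)]; ring
        rw [this, zero_smul])
  simp only [mul_zero, Function.iterate_zero_apply] at h
  rw [h]
  simp only [Finset.sum_range_succ, Finset.range_zero, Finset.sum_empty, zero_add, add_zero,
    Nat.reduceAdd, if_true, if_false, OfNat.ofNat_ne_one, OfNat.ofNat_ne_zero, zero_ne_one,
    one_ne_zero, co, cc, val, pow_zero, pow_one, mul_one, Function.iterate_zero_apply,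
    Function.iterate_one, Nat.reduceEqDiff, Function.iterate_succ_apply', OfNat.one_ne_ofNat,
    OfNat.zero_ne_ofNat, Nat.cast_zero]
  module

theorem lam3 (ht : NoTor V) (hn : Nil4 f σ) (a b c d : M)
    (hv : ∀ i j, 7 ≤ i + j → val f σ a b c d i j 0 0 = 0)
    (e0 e1 : ℕ) :
    Lam wt3 (fun n => f (σ^[n * e0] a) (σ^[n * e1] b) c d) =
      (e0 ^ 3 : ℤ) • f (U σ (U σ (U σ a))) b c d + (3 * e0 ^ 2 * e1 : ℤ) •
        f (U σ (U σ a)) (U σ b) c d + (3 * e0 * e1 ^ 2 : ℤ) • f (U σ a) (U σ (U σ b)) c d +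
        (e1 ^ 3 : ℤ) • f a (U σ (U σ (U σ b))) c d := by
  apply ht.eq_of_1296
  have h := lam_gen wt3 3 1296 wt3_spec (by norm_num) hn a b c d e0 e1 0 0
    (fun i j k l h => by
      rcases Nat.eq_zero_or_pos l with hl | hl
      · rcases Nat.eq_zero_or_pos k with hk | hk
        · subst hl hk
          rw [hv i j (by omega), smul_zero]
        · have : co e0 e1 0 0 i j k l = 0 := by
            unfold co
            rw [Nat.cast_zero, zero_pow (show k ≠ 0 by omega)]; ring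
          rw [this, zero_smul]
      · have : co e0 e1 0 0 i j k l = 0 := by
          unfold co
          rw [Nat.cast_zero, zero_pow (show l ≠ 0 by omega)]; ring
        rw [this, zero_smul])
  simp only [mul_zero, Function.iterate_zero_apply] at h
  rw [h]
  simp only [Finset.sum_range_succ, Finset.range_zero, Finset.sum_empty, zero_add, add_zero,
    Nat.reduceAdd, if_true, if_false, OfNat.ofNat_ne_one, OfNat.ofNat_ne_zero, zero_ne_one,
    one_ne_zero, co, cc, val, pow_zero, pow_one, mul_one, Function.iterate_zero_apply,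
    Function.iterate_one, Nat.reduceEqDiff, Function.iterate_succ_apply', OfNat.one_ne_ofNat,
    OfNat.zero_ne_ofNat, Nat.cast_zero]
  module

end Lin

end Pool.Agent.Work.MP_d7201b_al
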