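import Pool.Agent.Work.MP_d7201b_al.Tor.Expand
import Pool.Agent.Work.MP_d7201b_al.Tor.Lin

/-!
# The homogeneous relations R1, R2, R3
-/

namespace Pool.Agent.Work.MP_d7201b_al

open Lin

set_option linter.unusedSimpArgs false

/-- The relations for a multiadditive map `f` and an additive map `σ`. -/
structure Alg {M V : Type*} [AddCommGroup M] [AddCommGroup V] (f : M →+ M →+ M →+ M →+ V)
    (σ : M →+ M) : Prop where
  A : ∀ a b c d, f a b c d + f b a c d = 0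
  J : ∀ a b c d, f a b c d + f b c a d + f c a b d = 0
  D : ∀ a b c d, f a b c d - f a b d c + f c d a b - f c d b a = 0
  E0 : ∀ a b c d, ∑ j ∈ Finset.range 5, Expand.w j • f (σ^[j] a) b c d = 0
  E1 : ∀ g a b c d, ∑ j ∈ Finset.range 5, Expand.w j • ∑ i ∈ Finset.range j,
    f (σ^[g * j] a) (σ^[g * i] b) c d = 0
  E2 : ∀ g a b c d, ∑ j ∈ Finset.range 5, Expand.w j • ∑ i1 ∈ Finset.range j,
    ∑ i2 ∈ Finset.range j,
      (if i2 ≤ i1 then f (σ^[g * j] a) (σ^[g * i1] b) (σ^[g * i2] c) d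
        else f (σ^[g * j] a) (σ^[g * i2] c) (σ^[g * i1] b) d) = 0
  E3 : ∀ g a b c d, ∑ j ∈ Finset.range 5, Expand.w j • ∑ i1 ∈ Finset.range j,
    ∑ i2 ∈ Finset.range j, ∑ i3 ∈ Finset.range j,
      (if i2 ≤ i1 ∧ i3 ≤ i2 then f (σ^[g * j] a) (σ^[g * i1] b) (σ^[g * i2] c) (σ^[g * i3] d)
        else if i2 < i3 ∧ i3 ≤ i1 then
          f (σ^[g * j] a) (σ^[g * i1] b) (σ^[g * i3] d) (σ^[g * i2] c)
        else if i1 < i2 ∧ i3 ≤ i1 then
          f (σ^[g * j] a) (σ^[g * i2] c) (σ^[g * i1] b) (σ^[g * i3] d)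
        else if i1 < i3 ∧ i3 ≤ i2 then
          f (σ^[g * j] a) (σ^[g * i2] c) (σ^[g * i3] d) (σ^[g * i1] b)
        else if i1 < i3 ∧ i2 ≤ i1 then
          f (σ^[g * j] a) (σ^[g * i3] d) (σ^[g * i1] b) (σ^[g * i2] c)
        else f (σ^[g * j] a) (σ^[g * i3] d) (σ^[g * i2] c) (σ^[g * i1] b)) = 0

theorem lam_sum {ι V : Type*} [AddCommGroup V] (s : Finset ι) (wt : ℕ → ℤ) (P : ι → ℕ → V) :
    ∑ i ∈ s, Lam wt (P i) = Lam wt (fun k => ∑ i ∈ s, P i k) := by
  unfold Lam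
  rw [Finset.sum_comm]
  simp only [Finset.smul_sum]

theorem lam_smul {V : Type*} [AddCommGroup V] (wt : ℕ → ℤ) (c : ℤ) (P : ℕ → V) :
    c • Lam wt P = Lam wt (fun k => c • P k) := by
  unfold Lam
  simp only [Finset.smul_sum]
  refine Finset.sum_congr rfl fun i _ => ?_
  rw [smul_comm]

theorem lam_ite {V : Type*} [AddCommGroup V] (wt : ℕ → ℤ) (p : Prop) [Decidable p]
    (P Q : ℕ → V) : Lam wt (fun k => if p then P k else Q k) = if p then Lam wt P else Lam wt Q := by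
  split_ifs <;> rfl

theorem lam_zero {V : Type*} [AddCommGroup V] (wt : ℕ → ℤ) {P : ℕ → V} (h : ∀ k, P k = 0) :
    Lam wt P = 0 := by
  unfold Lam
  exact Finset.sum_eq_zero fun i _ => by rw [h, smul_zero]

namespace Alg

variable {M V : Type*} [AddCommGroup M] [AddCommGroup V] {f : M →+ M →+ M →+ M →+ V}
  {σ : M →+ M} (ha : Alg f σ) (ht : NoTor V)

include ha

theorem flip (a b c d : M) : f a b c d = - f b a c d := eq_neg_of_add_eq_zero_left (ha.A a b c d)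

theorem nil1 (a b c d : M) : f (T σ (T σ (T σ (T σ a)))) b c d = 0 := by
  have h := ha.E0 a b c d
  simp only [Finset.sum_range_succ, Finset.range_zero, Finset.sum_empty, Expand.w, zero_add,
    Function.iterate_zero_apply, Function.iterate_succ_apply'] at h
  have e : T σ (T σ (T σ (T σ a))) = σ (σ (σ (σ a))) - 4 • σ (σ (σ a)) + 6 • σ (σ a) - 4 • σ a
      + a := by
    simp only [T_apply, map_sub]; abel
  rw [e]
  simp only [map_add, map_sub, map_nsmul, AddMonoidHom.add_apply, AddMonoidHom.sub_apply,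
    AddMonoidHom.nsmul_apply]
  rw [← h]
  module

theorem nil2 (a b c d : M) : f a (T σ (T σ (T σ (T σ b)))) c d = 0 := by
  rw [ha.flip, ha.nil1, neg_zero]

theorem nil3 (a b c d : M) : f a b (T σ (T σ (T σ (T σ c)))) d = 0 := by
  have h := ha.J a b (T σ (T σ (T σ (T σ c)))) d
  rw [ha.nil1, ha.nil2, add_zero, add_zero] at h
  exact h

theorem nil4 (a b c d : M) : f a b c (T σ (T σ (T σ (T σ d)))) = 0 := by
  have h := ha.D a b (T σ (T σ (T σ (T σ d)))) c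
  rw [ha.nil1, ha.nil1, ha.nil3, add_zero, sub_zero, zero_sub] at h
  exact neg_eq_zero.mp h

theorem nil : Nil4 f σ := ⟨ha.nil1, ha.nil2, ha.nil3, ha.nil4⟩

theorem u1 (a b c d : M) : f (U σ (U σ (U σ (U σ a)))) b c d = 0 := by
  have e : U σ (U σ (U σ (U σ a))) = T σ (T σ (T σ (T σ
      ((1296 : ℤ) • a - (2592 : ℤ) • T σ a + (3672 : ℤ) • T σ (T σ a)
      - (3240 : ℤ) • T σ (T σ (T σ a)) + (2241 : ℤ) • T σ (T σ (T σ (T σ a)))
      - (1080 : ℤ) • T σ (T σ (T σ (T σ (T σ a))))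
      + (408 : ℤ) • T σ (T σ (T σ (T σ (T σ (T σ a)))))
      - (96 : ℤ) • T σ (T σ (T σ (T σ (T σ (T σ (T σ a))))))
      + (16 : ℤ) • T σ (T σ (T σ (T σ (T σ (T σ (T σ (T σ a))))))))))) := by
    simp only [U_apply, map_add, map_sub, map_zsmul]
    module
  rw [e, ha.nil1]

theorem u2 (a b c d : M) : f a (U σ (U σ (U σ (U σ b)))) c d = 0 := by
  rw [ha.flip, ha.u1, neg_zero]

theorem u3 (a b c d : M) : f a b (U σ (U σ (U σ (U σ c)))) d = 0 := by
  have h := ha.J a b (U σ (U σ (U σ (U σ c)))) d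
  rw [ha.u1, ha.u2, add_zero, add_zero] at h
  exact h

theorem u4 (a b c d : M) : f a b c (U σ (U σ (U σ (U σ d)))) = 0 := by
  have h := ha.D a b (U σ (U σ (U σ (U σ d)))) c
  rw [ha.u1, ha.u1, ha.u3, add_zero, sub_zero, zero_sub] at h
  exact neg_eq_zero.mp h

omit [AddCommGroup V] ha in
theorem it {i : ℕ} (hi : 4 ≤ i) (a : M) :
    (U σ)^[i] a = U σ (U σ (U σ (U σ ((U σ)^[i - 4] a)))) := by
  obtain ⟨k, rfl⟩ := Nat.exists_eq_add_of_le hi
  rw [Function.iterate_add_apply]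
  simp [Function.iterate_succ_apply']

omit [AddCommGroup V] ha in
theorem itk {i k : ℕ} (hi : k ≤ i) (a : M) : (U σ)^[i] a = (U σ)^[k] ((U σ)^[i - k] a) := by
  rw [← Function.iterate_add_apply]
  congr 1
  rw [Nat.add_sub_cancel' hi]

include ht

theorem same (a c d : M) : f a a c d = 0 := by
  have h := ha.A a a c d
  apply ht.cancel 2 1 15 (by norm_num)
  rw [two_zsmul]; exact h

theorem R1 (y n c d : M) : (4 : ℤ) • f (U σ (U σ (U σ y))) n c d +
    (6 : ℤ) • f (U σ (U σ y)) (U σ n) c d + (4 : ℤ) • f (U σ y) (U σ (U σ n)) c d +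
    f y (U σ (U σ (U σ n))) c d = 0 := by
  have hv : ∀ a b i j, 7 ≤ i + j → val f σ a b c d i j 0 0 = 0 := by
    intro a b i j hij
    unfold val
    rcases le_or_gt 4 i with hi | hi
    · rw [it hi, ha.u1]
    · rw [it (show 4 ≤ j by omega), ha.u2]
  have h2 : ∑ j ∈ Finset.range 5, Expand.w j • ∑ i ∈ Finset.range j,
      Lam wt3 (fun k => f (σ^[k * j] y) (σ^[k * i] n) c d) = 0 := by
    simp only [lam_sum, lam_smul]
    exact lam_zero _ fun k => ha.E1 k y n c d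
  have h3 : ∀ j i : ℕ, Lam wt3 (fun k => f (σ^[k * j] y) (σ^[k * i] n) c d) = _ := fun j i =>
    lam3 ht ha.nil y n c d (hv y n) j i
  simp only [h3] at h2
  apply ht.cancel 6 1 5 (by norm_num)
  rw [← h2]
  simp only [Finset.sum_range_succ, Finset.range_zero, Finset.sum_empty, Expand.w, zero_add]
  push_cast
  module

theorem c31 (y n c d : M) : f (U σ (U σ (U σ y))) (U σ n) c d = 0 := by
  have h1 := ha.R1 ht (U σ y) n c d
  have h2 := ha.R1 ht (U σ n) y c d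
  have h3 := ha.R1 ht y (U σ n) c d
  rw [ha.u1, smul_zero, zero_add] at h1 h2
  rw [ha.u2, add_zero] at h3
  rw [ha.flip (U σ (U σ (U σ n))), ha.flip (U σ (U σ n)), ha.flip (U σ n)] at h2
  apply ht.cancel 5 1 6 (by norm_num)
  linear_combination (norm := module) (2 : ℤ) • h1 - (1 : ℤ) • h2 - (2 : ℤ) • h3

theorem c22 (y n c d : M) : f (U σ (U σ y)) (U σ (U σ n)) c d = 0 := by
  have h1 := ha.R1 ht (U σ y) n c d
  have h2 := ha.R1 ht (U σ n) y c d
  have h3 := ha.R1 ht y (U σ n) c d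
  rw [ha.u1, smul_zero, zero_add] at h1 h2
  rw [ha.u2, add_zero] at h3
  rw [ha.flip (U σ (U σ (U σ n))), ha.flip (U σ (U σ n)), ha.flip (U σ n)] at h2
  apply ht.cancel 10 1 3 (by norm_num)
  linear_combination (norm := module) (-4 : ℤ) • h1 + (4 : ℤ) • h2 + (7 : ℤ) • h3

theorem c13 (y n c d : M) : f (U σ y) (U σ (U σ (U σ n))) c d = 0 := by
  rw [ha.flip, ha.c31 ht, neg_zero]

theorem cv {i j : ℕ} (h : 4 ≤ i + j) (a b c d : M) :
    f ((U σ)^[i] a) ((U σ)^[j] b) c d = 0 := by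
  rcases le_or_gt 4 i with hi | hi
  · rw [it hi, ha.u1]
  · interval_cases i
    · rw [it (show 4 ≤ j by omega), ha.u2]
    · rw [itk (show 3 ≤ j by omega)]
      exact ha.c13 ht a ((U σ)^[j - 3] b) c d
    · rw [itk (show 2 ≤ j by omega)]
      exact ha.c22 ht a ((U σ)^[j - 2] b) c d
    · rw [itk (show 1 ≤ j by omega)]
      exact ha.c31 ht a ((U σ)^[j - 1] b) c d

theorem R2 (y n m d : M) :
    (6 : ℤ) • f (U σ (U σ y)) n m d + (8 : ℤ) • f (U σ y) (U σ n) m d +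
      (3 : ℤ) • f y (U σ (U σ n)) m d + (4 : ℤ) • f (U σ y) n (U σ m) d +
      (3 : ℤ) • f y (U σ n) (U σ m) d + f y n (U σ (U σ m)) d +
    ((6 : ℤ) • f (U σ (U σ y)) m n d + (8 : ℤ) • f (U σ y) (U σ m) n d +
      (3 : ℤ) • f y (U σ (U σ m)) n d + (4 : ℤ) • f (U σ y) m (U σ n) d +
      (3 : ℤ) • f y (U σ m) (U σ n) d + f y m (U σ (U σ n)) d) = 0 := by
  have hv : ∀ a b c i j k, 7 ≤ i + j + k → val f σ a b c d i j k 0 = 0 := by
    intro a b c i j k hij
    unfold val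
    rcases le_or_gt 4 k with hk | hk
    · rw [it hk, ha.u3]
    · exact ha.cv ht (by omega) a b _ _
  have h2 : ∑ j ∈ Finset.range 5, Expand.w j • ∑ i1 ∈ Finset.range j, ∑ i2 ∈ Finset.range j,
      (if i2 ≤ i1 then Lam wt2 (fun k => f (σ^[k * j] y) (σ^[k * i1] n) (σ^[k * i2] m) d)
        else Lam wt2 (fun k => f (σ^[k * j] y) (σ^[k * i2] m) (σ^[k * i1] n) d)) = 0 := by
    simp only [← lam_ite]
    simp only [lam_sum, lam_smul]
    exact lam_zero _ fun k => ha.E2 k y n m d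
  have h3 : ∀ j i1 i2 : ℕ, Lam wt2 (fun k => f (σ^[k * j] y) (σ^[k * i1] n) (σ^[k * i2] m) d) = _ :=
    fun j i1 i2 => lam2 ht ha.nil y n m d (hv y n m) j i1 i2
  have h4 : ∀ j i1 i2 : ℕ, Lam wt2 (fun k => f (σ^[k * j] y) (σ^[k * i2] m) (σ^[k * i1] n) d) = _ :=
    fun j i1 i2 => lam2 ht ha.nil y m n d (hv y m n) j i2 i1
  simp only [h3, h4] at h2
  apply ht.cancel 10 1 3 (by norm_num)
  rw [← h2]
  simp only [Finset.sum_range_succ, Finset.range_zero, Finset.sum_empty, Expand.w, zero_add,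
    Nat.reduceLeDiff, if_true, if_false, le_refl, Nat.zero_le, nonpos_iff_eq_zero,
    one_ne_zero, OfNat.ofNat_ne_zero]
  push_cast
  module

end Alg

end Pool.Agent.Work.MP_d7201b_al
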