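import Pool.Agent.Work.MP_d7201b_al.Tor.Alg1

/-!
# Vanishing of the values of total order at least four in the first three variables
-/

namespace Pool.Agent.Work.MP_d7201b_al

open Lin

namespace Alg

variable {M V : Type*} [AddCommGroup M] [AddCommGroup V] {f : M →+ M →+ M →+ M →+ V}
  {σ : M →+ M} (ha : Alg f σ) (ht : NoTor V)


include ha ht

theorem d301 (a b c d : M) : f (U σ (U σ (U σ a))) b (U σ c) d = 0 := by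
  apply ht.cancel 50 2 18 (by norm_num)
  linear_combination (norm := module)
    (24 : ℤ) • (ha.J a (U σ b) (U σ (U σ (U σ c))) d) + (-38 : ℤ) • (ha.A a (U σ b) (U σ (U σ (U σ c))) d) +
    (-28 : ℤ) • (ha.A a (U σ (U σ (U σ c))) (U σ b) d) + (23 : ℤ) • (ha.J a (U σ (U σ b)) (U σ (U σ c)) d) +
    (-52 : ℤ) • (ha.A a (U σ (U σ b)) (U σ (U σ c)) d) + (-33 : ℤ) • (ha.A a (U σ (U σ c)) (U σ (U σ b)) d) +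
    (10 : ℤ) • (ha.J a (U σ (U σ (U σ b))) (U σ c) d) + (-44 : ℤ) • (ha.A a (U σ (U σ (U σ b))) (U σ c) d) +
    (-20 : ℤ) • (ha.A a (U σ c) (U σ (U σ (U σ b))) d) + (-1 : ℤ) • (ha.J (U σ a) b (U σ (U σ (U σ c))) d) +
    (-21 : ℤ) • (ha.A (U σ a) b (U σ (U σ (U σ c))) d) + (-56 : ℤ) • (ha.A b (U σ (U σ (U σ c))) (U σ a) d) +
    (12 : ℤ) • (ha.J (U σ a) (U σ b) (U σ (U σ c)) d) + (-86 : ℤ) • (ha.A (U σ a) (U σ b) (U σ (U σ c)) d) +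
    (-98 : ℤ) • (ha.A (U σ a) (U σ (U σ c)) (U σ b) d) + (-214 : ℤ) • (ha.A (U σ b) (U σ (U σ c)) (U σ a) d) +
    (40 : ℤ) • (ha.J (U σ a) (U σ (U σ b)) (U σ c) d) + (-146 : ℤ) • (ha.A (U σ a) (U σ (U σ b)) (U σ c) d) +
    (-70 : ℤ) • (ha.A (U σ a) (U σ c) (U σ (U σ b)) d) + (-206 : ℤ) • (ha.A (U σ (U σ b)) (U σ c) (U σ a) d) +
    (20 : ℤ) • (ha.J (U σ a) (U σ (U σ (U σ b))) c d) + (-20 : ℤ) • (ha.A (U σ a) c (U σ (U σ (U σ b))) d) +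
    (-44 : ℤ) • (ha.A (U σ (U σ (U σ b))) c (U σ a) d) + (-37 : ℤ) • (ha.J (U σ (U σ a)) b (U σ (U σ c)) d) +
    (-21 : ℤ) • (ha.A (U σ (U σ a)) b (U σ (U σ c)) d) + (30 : ℤ) • (ha.A b (U σ (U σ c)) (U σ (U σ a)) d) +
    (-134 : ℤ) • (ha.A (U σ (U σ a)) (U σ b) (U σ c) d) + (-94 : ℤ) • (ha.A (U σ (U σ a)) (U σ c) (U σ b) d) +
    (-10 : ℤ) • (ha.A (U σ b) (U σ c) (U σ (U σ a)) d) + (30 : ℤ) • (ha.J (U σ (U σ a)) (U σ (U σ b)) c d) +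
    (-30 : ℤ) • (ha.A (U σ (U σ a)) c (U σ (U σ b)) d) + (-26 : ℤ) • (ha.A (U σ (U σ (U σ a))) b (U σ c) d) +
    (-16 : ℤ) • (ha.A (U σ (U σ (U σ a))) c (U σ b) d) + (4 : ℤ) • (ha.R1 ht a b (U σ c) d) +
    (26 : ℤ) • (ha.R1 ht b a (U σ c) d) + (4 : ℤ) • (ha.R1 ht a c (U σ b) d) +
    (16 : ℤ) • (ha.R1 ht c a (U σ b) d) + (36 : ℤ) • (ha.R1 ht b c (U σ a) d) +
    (44 : ℤ) • (ha.R1 ht c b (U σ a) d) + (3 : ℤ) • (ha.R2 ht a b (U σ (U σ c)) d) +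
    (7 : ℤ) • (ha.R2 ht b a (U σ (U σ c)) d) + (-30 : ℤ) • (ha.R2 ht (U σ (U σ c)) a b d) +
    (5 : ℤ) • (ha.R2 ht a (U σ b) (U σ c) d) + (10 : ℤ) • (ha.R2 ht (U σ b) a (U σ c) d) +
    (10 : ℤ) • (ha.R2 ht (U σ c) a (U σ b) d) + (5 : ℤ) • (ha.R2 ht a (U σ (U σ b)) c d) +
    (-30 : ℤ) • (ha.R2 ht (U σ (U σ b)) a c d) + (10 : ℤ) • (ha.R2 ht (U σ a) b (U σ c) d) +
    (-3 : ℤ) • (ha.u3 a b c d) + (-15 : ℤ) • (ha.u2 a b c d) + (-5 : ℤ) • (ha.u3 a c b d) +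
    (-9 : ℤ) • (ha.u2 a c b d) + (-60 : ℤ) • (ha.c13 ht a b c d) +
    (-54 : ℤ) • (ha.c13 ht a c b d) + (-60 : ℤ) • (ha.c22 ht a b c d) +
    (-98 : ℤ) • (ha.c22 ht a c b d) + (-60 : ℤ) • (ha.c31 ht a c b d) +
    (-7 : ℤ) • (ha.u3 b a c d) + (-21 : ℤ) • (ha.u2 b c a d) + (-110 : ℤ) • (ha.c13 ht b c a d) +
    (90 : ℤ) • (ha.c22 ht b a c d) + (-55 : ℤ) • (ha.c22 ht b c a d) +
    (240 : ℤ) • (ha.c31 ht b a c d) + (170 : ℤ) • (ha.c31 ht b c a d) +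
    (180 : ℤ) • (ha.u1 b a c d) + (180 : ℤ) • (ha.u1 b c a d) + (-30 : ℤ) • (ha.c13 ht c b a d) +
    (127 : ℤ) • (ha.c22 ht c a b d) + (10 : ℤ) • (ha.c22 ht c b a d) +
    (241 : ℤ) • (ha.c31 ht c a b d) + (180 : ℤ) • (ha.c31 ht c b a d) +
    (180 : ℤ) • (ha.u1 c a b d) + (180 : ℤ) • (ha.u1 c b a d)

theorem d211 (a b c d : M) : f (U σ (U σ a)) (U σ b) (U σ c) d = 0 := by
  apply ht.cancel 60 2 15 (by norm_num)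
  linear_combination (norm := module)
    (-48 : ℤ) • (ha.J a (U σ b) (U σ (U σ (U σ c))) d) + (78 : ℤ) • (ha.A a (U σ b) (U σ (U σ (U σ c))) d) +
    (60 : ℤ) • (ha.A a (U σ (U σ (U σ c))) (U σ b) d) + (-79 : ℤ) • (ha.J a (U σ (U σ b)) (U σ (U σ c)) d) +
    (132 : ℤ) • (ha.A a (U σ (U σ b)) (U σ (U σ c)) d) + (49 : ℤ) • (ha.A a (U σ (U σ c)) (U σ (U σ b)) d) +
    (-18 : ℤ) • (ha.J a (U σ (U σ (U σ b))) (U σ c) d) + (36 : ℤ) • (ha.A a (U σ (U σ (U σ b))) (U σ c) d) +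
    (24 : ℤ) • (ha.A a (U σ c) (U σ (U σ (U σ b))) d) + (1 : ℤ) • (ha.J (U σ a) b (U σ (U σ (U σ c))) d) +
    (45 : ℤ) • (ha.A (U σ a) b (U σ (U σ (U σ c))) d) + (88 : ℤ) • (ha.A b (U σ (U σ (U σ c))) (U σ a) d) +
    (-28 : ℤ) • (ha.J (U σ a) (U σ b) (U σ (U σ c)) d) + (174 : ℤ) • (ha.A (U σ a) (U σ b) (U σ (U σ c)) d) +
    (202 : ℤ) • (ha.A (U σ a) (U σ (U σ c)) (U σ b) d) + (318 : ℤ) • (ha.A (U σ b) (U σ (U σ c)) (U σ a) d) +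
    (-76 : ℤ) • (ha.J (U σ a) (U σ (U σ b)) (U σ c) d) + (126 : ℤ) • (ha.A (U σ a) (U σ (U σ b)) (U σ c) d) +
    (94 : ℤ) • (ha.A (U σ a) (U σ c) (U σ (U σ b)) d) + (322 : ℤ) • (ha.A (U σ (U σ b)) (U σ c) (U σ a) d) +
    (-20 : ℤ) • (ha.J (U σ a) (U σ (U σ (U σ b))) c d) + (20 : ℤ) • (ha.A (U σ a) c (U σ (U σ (U σ b))) d) +
    (76 : ℤ) • (ha.A (U σ (U σ (U σ b))) c (U σ a) d) + (69 : ℤ) • (ha.J (U σ (U σ a)) b (U σ (U σ c)) d) +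
    (45 : ℤ) • (ha.A (U σ (U σ a)) b (U σ (U σ c)) d) + (-54 : ℤ) • (ha.A b (U σ (U σ c)) (U σ (U σ a)) d) +
    (12 : ℤ) • (ha.J (U σ (U σ a)) (U σ b) (U σ c) d) + (102 : ℤ) • (ha.A (U σ (U σ a)) (U σ b) (U σ c) d) +
    (198 : ℤ) • (ha.A (U σ (U σ a)) (U σ c) (U σ b) d) + (6 : ℤ) • (ha.A (U σ b) (U σ c) (U σ (U σ a)) d) +
    (-30 : ℤ) • (ha.J (U σ (U σ a)) (U σ (U σ b)) c d) + (30 : ℤ) • (ha.A (U σ (U σ a)) c (U σ (U σ b)) d) +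
    (12 : ℤ) • (ha.A (U σ (U σ (U σ a))) b (U σ c) d) + (48 : ℤ) • (ha.A (U σ (U σ (U σ a))) c (U σ b) d) +
    (24 : ℤ) • (ha.R1 ht a b (U σ c) d) + (-12 : ℤ) • (ha.R1 ht b a (U σ c) d) +
    (-12 : ℤ) • (ha.R1 ht a c (U σ b) d) + (-48 : ℤ) • (ha.R1 ht c a (U σ b) d) +
    (-44 : ℤ) • (ha.R1 ht b c (U σ a) d) + (-76 : ℤ) • (ha.R1 ht c b (U σ a) d) +
    (-7 : ℤ) • (ha.R2 ht a b (U σ (U σ c)) d) + (-15 : ℤ) • (ha.R2 ht b a (U σ (U σ c)) d) +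
    (54 : ℤ) • (ha.R2 ht (U σ (U σ c)) a b d) + (-9 : ℤ) • (ha.R2 ht a (U σ b) (U σ c) d) +
    (-18 : ℤ) • (ha.R2 ht (U σ b) a (U σ c) d) + (-6 : ℤ) • (ha.R2 ht (U σ c) a (U σ b) d) +
    (-5 : ℤ) • (ha.R2 ht a (U σ (U σ b)) c d) + (30 : ℤ) • (ha.R2 ht (U σ (U σ b)) a c d) +
    (-18 : ℤ) • (ha.R2 ht (U σ a) b (U σ c) d) + (7 : ℤ) • (ha.u3 a b c d) +
    (15 : ℤ) • (ha.u2 a b c d) + (5 : ℤ) • (ha.u3 a c b d) + (21 : ℤ) • (ha.u2 a c b d) +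
    (60 : ℤ) • (ha.c13 ht a b c d) + (110 : ℤ) • (ha.c13 ht a c b d) +
    (60 : ℤ) • (ha.c22 ht a b c d) + (186 : ℤ) • (ha.c22 ht a c b d) +
    (108 : ℤ) • (ha.c31 ht a c b d) + (15 : ℤ) • (ha.u3 b a c d) + (45 : ℤ) • (ha.u2 b c a d) +
    (222 : ℤ) • (ha.c13 ht b c a d) + (-90 : ℤ) • (ha.c22 ht b a c d) +
    (223 : ℤ) • (ha.c22 ht b c a d) + (-240 : ℤ) • (ha.c31 ht b a c d) +
    (-114 : ℤ) • (ha.c31 ht b c a d) + (-180 : ℤ) • (ha.u1 b a c d) +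
    (-180 : ℤ) • (ha.u1 b c a d) + (18 : ℤ) • (ha.c13 ht c b a d) +
    (-231 : ℤ) • (ha.c22 ht c a b d) + (-114 : ℤ) • (ha.c22 ht c b a d) +
    (-433 : ℤ) • (ha.c31 ht c a b d) + (-396 : ℤ) • (ha.c31 ht c b a d) +
    (-324 : ℤ) • (ha.u1 c a b d) + (-324 : ℤ) • (ha.u1 c b a d)

theorem d202 (a b c d : M) : f (U σ (U σ a)) b (U σ (U σ c)) d = 0 := by
  apply ht.cancel 30 1 1 (by norm_num)
  linear_combination (norm := module)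
    (9 : ℤ) • (ha.J a (U σ b) (U σ (U σ (U σ c))) d) + (15 : ℤ) • (ha.A a (U σ (U σ (U σ c))) (U σ b) d) +
    (35 : ℤ) • (ha.J a (U σ (U σ b)) (U σ (U σ c)) d) + (-12 : ℤ) • (ha.A a (U σ (U σ b)) (U σ (U σ c)) d) +
    (25 : ℤ) • (ha.A a (U σ (U σ c)) (U σ (U σ b)) d) + (48 : ℤ) • (ha.A a (U σ (U σ (U σ b))) (U σ c) d) +
    (12 : ℤ) • (ha.A a (U σ c) (U σ (U σ (U σ b))) d) + (-8 : ℤ) • (ha.J (U σ a) b (U σ (U σ (U σ c))) d) +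
    (16 : ℤ) • (ha.A b (U σ (U σ (U σ c))) (U σ a) d) + (-4 : ℤ) • (ha.J (U σ a) (U σ b) (U σ (U σ c)) d) +
    (-8 : ℤ) • (ha.A (U σ a) (U σ (U σ c)) (U σ b) d) + (36 : ℤ) • (ha.A (U σ b) (U σ (U σ c)) (U σ a) d) +
    (8 : ℤ) • (ha.J (U σ a) (U σ (U σ b)) (U σ c) d) + (108 : ℤ) • (ha.A (U σ a) (U σ (U σ b)) (U σ c) d) +
    (28 : ℤ) • (ha.A (U σ a) (U σ c) (U σ (U σ b)) d) + (4 : ℤ) • (ha.A (U σ (U σ b)) (U σ c) (U σ a) d) +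
    (-8 : ℤ) • (ha.J (U σ a) (U σ (U σ (U σ b))) c d) + (8 : ℤ) • (ha.A (U σ a) c (U σ (U σ (U σ b))) d) +
    (-8 : ℤ) • (ha.A (U σ (U σ (U σ b))) c (U σ a) d) + (-12 : ℤ) • (ha.J (U σ (U σ a)) b (U σ (U σ c)) d) +
    (12 : ℤ) • (ha.A b (U σ (U σ c)) (U σ (U σ a)) d) + (-12 : ℤ) • (ha.J (U σ (U σ a)) (U σ b) (U σ c) d) +
    (96 : ℤ) • (ha.A (U σ (U σ a)) (U σ b) (U σ c) d) + (-48 : ℤ) • (ha.A (U σ (U σ a)) (U σ c) (U σ b) d) +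
    (12 : ℤ) • (ha.A (U σ b) (U σ c) (U σ (U σ a)) d) + (-12 : ℤ) • (ha.J (U σ (U σ a)) (U σ (U σ b)) c d) +
    (12 : ℤ) • (ha.A (U σ (U σ a)) c (U σ (U σ b)) d) + (24 : ℤ) • (ha.A (U σ (U σ (U σ a))) b (U σ c) d) +
    (-24 : ℤ) • (ha.A (U σ (U σ (U σ a))) c (U σ b) d) + (-24 : ℤ) • (ha.R1 ht a b (U σ c) d) +
    (-24 : ℤ) • (ha.R1 ht b a (U σ c) d) + (6 : ℤ) • (ha.R1 ht a c (U σ b) d) +
    (24 : ℤ) • (ha.R1 ht c a (U σ b) d) + (-8 : ℤ) • (ha.R1 ht b c (U σ a) d) +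
    (8 : ℤ) • (ha.R1 ht c b (U σ a) d) + (-1 : ℤ) • (ha.R2 ht a b (U σ (U σ c)) d) +
    (-12 : ℤ) • (ha.R2 ht (U σ (U σ c)) a b d) + (-6 : ℤ) • (ha.R2 ht a (U σ b) (U σ c) d) +
    (-12 : ℤ) • (ha.R2 ht (U σ c) a (U σ b) d) + (-2 : ℤ) • (ha.R2 ht a (U σ (U σ b)) c d) +
    (12 : ℤ) • (ha.R2 ht (U σ (U σ b)) a c d) + (12 : ℤ) • (ha.R2 ht (U σ a) b (U σ c) d) +
    (1 : ℤ) • (ha.u3 a b c d) + (6 : ℤ) • (ha.u2 a b c d) + (2 : ℤ) • (ha.u3 a c b d) +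
    (3 : ℤ) • (ha.u2 a c b d) + (24 : ℤ) • (ha.c13 ht a b c d) + (-28 : ℤ) • (ha.c13 ht a c b d) +
    (24 : ℤ) • (ha.c22 ht a b c d) + (-90 : ℤ) • (ha.c22 ht a c b d) +
    (-72 : ℤ) • (ha.c31 ht a c b d) + (-9 : ℤ) • (ha.c13 ht b c a d) +
    (-36 : ℤ) • (ha.c22 ht b a c d) + (-71 : ℤ) • (ha.c22 ht b c a d) +
    (-96 : ℤ) • (ha.c31 ht b a c d) + (-96 : ℤ) • (ha.c31 ht b c a d) +
    (-72 : ℤ) • (ha.u1 b a c d) + (-72 : ℤ) • (ha.u1 b c a d) + (36 : ℤ) • (ha.c13 ht c b a d) +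
    (48 : ℤ) • (ha.c22 ht c a b d) + (132 : ℤ) • (ha.c22 ht c b a d) +
    (104 : ℤ) • (ha.c31 ht c a b d) + (168 : ℤ) • (ha.c31 ht c b a d) +
    (72 : ℤ) • (ha.u1 c a b d) + (72 : ℤ) • (ha.u1 c b a d)

theorem d112 (a b c d : M) : f (U σ a) (U σ b) (U σ (U σ c)) d = 0 := by
  apply ht.cancel 50 2 18 (by norm_num)
  linear_combination (norm := module)
    (-21 : ℤ) • (ha.J a (U σ b) (U σ (U σ (U σ c))) d) + (-18 : ℤ) • (ha.A a (U σ b) (U σ (U σ (U σ c))) d) +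
    (-63 : ℤ) • (ha.A a (U σ (U σ (U σ c))) (U σ b) d) + (-52 : ℤ) • (ha.J a (U σ (U σ b)) (U σ (U σ c)) d) +
    (-22 : ℤ) • (ha.A a (U σ (U σ b)) (U σ (U σ c)) d) + (-68 : ℤ) • (ha.A a (U σ (U σ c)) (U σ (U σ b)) d) +
    (-84 : ℤ) • (ha.A a (U σ (U σ (U σ b))) (U σ c) d) + (-30 : ℤ) • (ha.A a (U σ c) (U σ (U σ (U σ b))) d) +
    (-16 : ℤ) • (ha.J (U σ a) b (U σ (U σ (U σ c))) d) + (-6 : ℤ) • (ha.A (U σ a) b (U σ (U σ (U σ c))) d) +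
    (-16 : ℤ) • (ha.A b (U σ (U σ (U σ c))) (U σ a) d) + (2 : ℤ) • (ha.J (U σ a) (U σ b) (U σ (U σ c)) d) +
    (-46 : ℤ) • (ha.A (U σ a) (U σ b) (U σ (U σ c)) d) + (-98 : ℤ) • (ha.A (U σ a) (U σ (U σ c)) (U σ b) d) +
    (-144 : ℤ) • (ha.A (U σ b) (U σ (U σ c)) (U σ a) d) + (-206 : ℤ) • (ha.A (U σ a) (U σ (U σ b)) (U σ c) d) +
    (-90 : ℤ) • (ha.A (U σ a) (U σ c) (U σ (U σ b)) d) + (-106 : ℤ) • (ha.A (U σ (U σ b)) (U σ c) (U σ a) d) +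
    (20 : ℤ) • (ha.J (U σ a) (U σ (U σ (U σ b))) c d) + (-20 : ℤ) • (ha.A (U σ a) c (U σ (U σ (U σ b))) d) +
    (-4 : ℤ) • (ha.A (U σ (U σ (U σ b))) c (U σ a) d) + (-2 : ℤ) • (ha.J (U σ (U σ a)) b (U σ (U σ c)) d) +
    (-6 : ℤ) • (ha.A (U σ (U σ a)) b (U σ (U σ c)) d) + (20 : ℤ) • (ha.J (U σ (U σ a)) (U σ b) (U σ c) d) +
    (-174 : ℤ) • (ha.A (U σ (U σ a)) (U σ b) (U σ c) d) + (-14 : ℤ) • (ha.A (U σ (U σ a)) (U σ c) (U σ b) d) +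
    (-30 : ℤ) • (ha.A (U σ b) (U σ c) (U σ (U σ a)) d) + (30 : ℤ) • (ha.J (U σ (U σ a)) (U σ (U σ b)) c d) +
    (-30 : ℤ) • (ha.A (U σ (U σ a)) c (U σ (U σ b)) d) + (-36 : ℤ) • (ha.A (U σ (U σ (U σ a))) b (U σ c) d) +
    (24 : ℤ) • (ha.A (U σ (U σ (U σ a))) c (U σ b) d) + (24 : ℤ) • (ha.R1 ht a b (U σ c) d) +
    (36 : ℤ) • (ha.R1 ht b a (U σ c) d) + (-6 : ℤ) • (ha.R1 ht a c (U σ b) d) +
    (-24 : ℤ) • (ha.R1 ht c a (U σ b) d) + (26 : ℤ) • (ha.R1 ht b c (U σ a) d) +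
    (4 : ℤ) • (ha.R1 ht c b (U σ a) d) + (8 : ℤ) • (ha.R2 ht a b (U σ (U σ c)) d) +
    (2 : ℤ) • (ha.R2 ht b a (U σ (U σ c)) d) + (15 : ℤ) • (ha.R2 ht a (U σ b) (U σ c) d) +
    (10 : ℤ) • (ha.R2 ht (U σ b) a (U σ c) d) + (30 : ℤ) • (ha.R2 ht (U σ c) a (U σ b) d) +
    (5 : ℤ) • (ha.R2 ht a (U σ (U σ b)) c d) + (-30 : ℤ) • (ha.R2 ht (U σ (U σ b)) a c d) +
    (-10 : ℤ) • (ha.R2 ht (U σ a) b (U σ c) d) + (-8 : ℤ) • (ha.u3 a b c d) +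
    (-15 : ℤ) • (ha.u2 a b c d) + (-5 : ℤ) • (ha.u3 a c b d) + (-24 : ℤ) • (ha.u2 a c b d) +
    (-60 : ℤ) • (ha.c13 ht a b c d) + (-34 : ℤ) • (ha.c13 ht a c b d) +
    (-60 : ℤ) • (ha.c22 ht a b c d) + (32 : ℤ) • (ha.c22 ht a c b d) +
    (60 : ℤ) • (ha.c31 ht a c b d) + (-2 : ℤ) • (ha.u3 b a c d) + (-6 : ℤ) • (ha.u2 b c a d) +
    (-25 : ℤ) • (ha.c13 ht b c a d) + (90 : ℤ) • (ha.c22 ht b a c d) +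
    (50 : ℤ) • (ha.c22 ht b c a d) + (240 : ℤ) • (ha.c31 ht b a c d) +
    (180 : ℤ) • (ha.c31 ht b c a d) + (180 : ℤ) • (ha.u1 b a c d) + (180 : ℤ) • (ha.u1 b c a d) +
    (-90 : ℤ) • (ha.c13 ht c b a d) + (2 : ℤ) • (ha.c22 ht c a b d) +
    (-240 : ℤ) • (ha.c22 ht c b a d) + (16 : ℤ) • (ha.c31 ht c a b d) +
    (-180 : ℤ) • (ha.c31 ht c b a d)

theorem d103 (a b c d : M) : f (U σ a) b (U σ (U σ (U σ c))) d = 0 := by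
  apply ht.cancel 150 2 6 (by norm_num)
  linear_combination (norm := module)
    (-12 : ℤ) • (ha.J a (U σ b) (U σ (U σ (U σ c))) d) + (-6 : ℤ) • (ha.A a (U σ b) (U σ (U σ (U σ c))) d) +
    (24 : ℤ) • (ha.A a (U σ (U σ (U σ c))) (U σ b) d) + (-19 : ℤ) • (ha.J a (U σ (U σ b)) (U σ (U σ c)) d) +
    (36 : ℤ) • (ha.A a (U σ (U σ b)) (U σ (U σ c)) d) + (49 : ℤ) • (ha.A a (U σ (U σ c)) (U σ (U σ b)) d) +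
    (12 : ℤ) • (ha.A a (U σ (U σ (U σ b))) (U σ c) d) + (30 : ℤ) • (ha.A a (U σ c) (U σ (U σ (U σ b))) d) +
    (163 : ℤ) • (ha.J (U σ a) b (U σ (U σ (U σ c))) d) + (-27 : ℤ) • (ha.A (U σ a) b (U σ (U σ (U σ c))) d) +
    (-152 : ℤ) • (ha.A b (U σ (U σ (U σ c))) (U σ a) d) + (44 : ℤ) • (ha.J (U σ a) (U σ b) (U σ (U σ c)) d) +
    (18 : ℤ) • (ha.A (U σ a) (U σ b) (U σ (U σ c)) d) + (214 : ℤ) • (ha.A (U σ a) (U σ (U σ c)) (U σ b) d) +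
    (162 : ℤ) • (ha.A (U σ b) (U σ (U σ c)) (U σ a) d) + (-40 : ℤ) • (ha.J (U σ a) (U σ (U σ b)) (U σ c) d) +
    (78 : ℤ) • (ha.A (U σ a) (U σ (U σ b)) (U σ c) d) + (130 : ℤ) • (ha.A (U σ a) (U σ c) (U σ (U σ b)) d) +
    (298 : ℤ) • (ha.A (U σ (U σ b)) (U σ c) (U σ a) d) + (-20 : ℤ) • (ha.J (U σ a) (U σ (U σ (U σ b))) c d) +
    (20 : ℤ) • (ha.A (U σ a) c (U σ (U σ (U σ b))) d) + (52 : ℤ) • (ha.A (U σ (U σ (U σ b))) c (U σ a) d) +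
    (81 : ℤ) • (ha.J (U σ (U σ a)) b (U σ (U σ c)) d) + (-27 : ℤ) • (ha.A (U σ (U σ a)) b (U σ (U σ c)) d) +
    (-90 : ℤ) • (ha.A b (U σ (U σ c)) (U σ (U σ a)) d) + (42 : ℤ) • (ha.A (U σ (U σ a)) (U σ b) (U σ c) d) +
    (282 : ℤ) • (ha.A (U σ (U σ a)) (U σ c) (U σ b) d) + (30 : ℤ) • (ha.A (U σ b) (U σ c) (U σ (U σ a)) d) +
    (-30 : ℤ) • (ha.J (U σ (U σ a)) (U σ (U σ b)) c d) + (30 : ℤ) • (ha.A (U σ (U σ a)) c (U σ (U σ b)) d) +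
    (-12 : ℤ) • (ha.A (U σ (U σ (U σ a))) b (U σ c) d) + (48 : ℤ) • (ha.A (U σ (U σ (U σ a))) c (U σ b) d) +
    (48 : ℤ) • (ha.R1 ht a b (U σ c) d) + (12 : ℤ) • (ha.R1 ht b a (U σ c) d) +
    (-12 : ℤ) • (ha.R1 ht a c (U σ b) d) + (-48 : ℤ) • (ha.R1 ht c a (U σ b) d) +
    (-38 : ℤ) • (ha.R1 ht b c (U σ a) d) + (-52 : ℤ) • (ha.R1 ht c b (U σ a) d) +
    (11 : ℤ) • (ha.R2 ht a b (U σ (U σ c)) d) + (9 : ℤ) • (ha.R2 ht b a (U σ (U σ c)) d) +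
    (90 : ℤ) • (ha.R2 ht (U σ (U σ c)) a b d) + (-15 : ℤ) • (ha.R2 ht a (U σ b) (U σ c) d) +
    (-30 : ℤ) • (ha.R2 ht (U σ b) a (U σ c) d) + (-30 : ℤ) • (ha.R2 ht (U σ c) a (U σ b) d) +
    (-5 : ℤ) • (ha.R2 ht a (U σ (U σ b)) c d) + (30 : ℤ) • (ha.R2 ht (U σ (U σ b)) a c d) +
    (-30 : ℤ) • (ha.R2 ht (U σ a) b (U σ c) d) + (-11 : ℤ) • (ha.u3 a b c d) +
    (15 : ℤ) • (ha.u2 a b c d) + (5 : ℤ) • (ha.u3 a c b d) + (-33 : ℤ) • (ha.u2 a c b d) +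
    (60 : ℤ) • (ha.c13 ht a b c d) + (2 : ℤ) • (ha.c13 ht a c b d) +
    (60 : ℤ) • (ha.c22 ht a b c d) + (174 : ℤ) • (ha.c22 ht a c b d) +
    (180 : ℤ) • (ha.c31 ht a c b d) + (-9 : ℤ) • (ha.u3 b a c d) + (-27 : ℤ) • (ha.u2 b c a d) +
    (30 : ℤ) • (ha.c13 ht b c a d) + (-90 : ℤ) • (ha.c22 ht b a c d) +
    (115 : ℤ) • (ha.c22 ht b c a d) + (-240 : ℤ) • (ha.c31 ht b a c d) +
    (-60 : ℤ) • (ha.c31 ht b c a d) + (-180 : ℤ) • (ha.u1 b a c d) +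
    (-180 : ℤ) • (ha.u1 b c a d) + (90 : ℤ) • (ha.c13 ht c b a d) +
    (-351 : ℤ) • (ha.c22 ht c a b d) + (-30 : ℤ) • (ha.c22 ht c b a d) +
    (-883 : ℤ) • (ha.c31 ht c a b d) + (-540 : ℤ) • (ha.c31 ht c b a d) +
    (-540 : ℤ) • (ha.u1 c a b d) + (-540 : ℤ) • (ha.u1 c b a d)

end Alg

end Pool.Agent.Work.MP_d7201b_al
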