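import Pool.Agent.Work.MP_d7201b_al.Tor.Alg2

/-!
# The relation R3
-/

namespace Pool.Agent.Work.MP_d7201b_al

open Lin

set_option linter.unusedSimpArgs false

namespace Alg

variable {M V : Type*} [AddCommGroup M] [AddCommGroup V] {f : M →+ M →+ M →+ M →+ V}
  {σ : M →+ M} (ha : Alg f σ) (ht : NoTor V)


include ha ht

theorem d031 (a b c d : M) : f a (U σ (U σ (U σ b))) (U σ c) d = 0 := by
  rw [ha.flip, ha.d301 ht, neg_zero]

theorem d121 (a b c d : M) : f (U σ a) (U σ (U σ b)) (U σ c) d = 0 := by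
  rw [ha.flip, ha.d211 ht, neg_zero]

theorem d022 (a b c d : M) : f a (U σ (U σ b)) (U σ (U σ c)) d = 0 := by
  rw [ha.flip, ha.d202 ht, neg_zero]

theorem d013 (a b c d : M) : f a (U σ b) (U σ (U σ (U σ c))) d = 0 := by
  rw [ha.flip, ha.d103 ht, neg_zero]

theorem dv {i j k : ℕ} (h : 4 ≤ i + j + k) (a b c d : M) :
    f ((U σ)^[i] a) ((U σ)^[j] b) ((U σ)^[k] c) d = 0 := by
  rcases le_or_gt 4 (i + j) with hij | hij
  · exact ha.cv ht hij a b _ _
  · rcases le_or_gt 4 k with hk | hk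
    · rw [it hk, ha.u3]
    · have hi : i < 4 := by omega
      interval_cases i
      · have hj : j < 4 := by omega
        interval_cases j
        · omega
        · rw [itk (show 3 ≤ k by omega)]
          exact ha.d013 ht a b ((U σ)^[k - 3] c) d
        · rw [itk (show 2 ≤ k by omega)]
          exact ha.d022 ht a b ((U σ)^[k - 2] c) d
        · rw [itk (show 1 ≤ k by omega)]
          exact ha.d031 ht a b ((U σ)^[k - 1] c) d
      · have hj : j < 3 := by omega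
        interval_cases j
        · rw [itk (show 3 ≤ k by omega)]
          exact ha.d103 ht a b ((U σ)^[k - 3] c) d
        · rw [itk (show 2 ≤ k by omega)]
          exact ha.d112 ht a b ((U σ)^[k - 2] c) d
        · rw [itk (show 1 ≤ k by omega)]
          exact ha.d121 ht a b ((U σ)^[k - 1] c) d
      · have hj : j < 2 := by omega
        interval_cases j
        · rw [itk (show 2 ≤ k by omega)]
          exact ha.d202 ht a b ((U σ)^[k - 2] c) d
        · rw [itk (show 1 ≤ k by omega)]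
          exact ha.d211 ht a b ((U σ)^[k - 1] c) d
      · have hj : j < 1 := by omega
        interval_cases j
        rw [itk (show 1 ≤ k by omega)]
        exact ha.d301 ht a b ((U σ)^[k - 1] c) d

theorem hv (a b c d : M) (i j k l : ℕ) (h : 7 ≤ i + j + k + l) : val f σ a b c d i j k l = 0 := by
  unfold val
  rcases le_or_gt 4 l with hl | hl
  · rw [it hl, ha.u4]
  · exact ha.dv ht (by omega) a b c _

theorem l1 (a b c d : M) (e0 e1 e2 e3 : ℕ) :
    Lam wt1 (fun n => f (σ^[n * e0] a) (σ^[n * e1] b) (σ^[n * e2] c) (σ^[n * e3] d)) =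
      (10 : ℤ) • ((e0 : ℤ) • f (U σ a) b c d + (e1 : ℤ) • f a (U σ b) c d +
        (e2 : ℤ) • f a b (U σ c) d + (e3 : ℤ) • f a b c (U σ d)) :=
  lam1 ht ha.nil (ha.hv ht) a b c d e0 e1 e2 e3

theorem R3 (y n1 n2 n3 : M) :
    (4 : ℤ) • f (U σ y) n1 n2 n3 + (3 : ℤ) • f y (U σ n1) n2 n3 + (2 : ℤ) • f y n1 (U σ n2) n3 +
      f y n1 n2 (U σ n3) +
    ((4 : ℤ) • f (U σ y) n1 n3 n2 + (3 : ℤ) • f y (U σ n1) n3 n2 + (2 : ℤ) • f y n1 (U σ n3) n2 +
      f y n1 n3 (U σ n2)) +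
    ((4 : ℤ) • f (U σ y) n2 n1 n3 + (3 : ℤ) • f y (U σ n2) n1 n3 + (2 : ℤ) • f y n2 (U σ n1) n3 +
      f y n2 n1 (U σ n3)) +
    ((4 : ℤ) • f (U σ y) n2 n3 n1 + (3 : ℤ) • f y (U σ n2) n3 n1 + (2 : ℤ) • f y n2 (U σ n3) n1 +
      f y n2 n3 (U σ n1)) +
    ((4 : ℤ) • f (U σ y) n3 n1 n2 + (3 : ℤ) • f y (U σ n3) n1 n2 + (2 : ℤ) • f y n3 (U σ n1) n2 +
      f y n3 n1 (U σ n2)) +
    ((4 : ℤ) • f (U σ y) n3 n2 n1 + (3 : ℤ) • f y (U σ n3) n2 n1 + (2 : ℤ) • f y n3 (U σ n2) n1 +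
      f y n3 n2 (U σ n1)) = 0 := by
  have h2 : ∑ j ∈ Finset.range 5, Expand.w j • ∑ i1 ∈ Finset.range j,
    ∑ i2 ∈ Finset.range j, ∑ i3 ∈ Finset.range j,
      (if i2 ≤ i1 ∧ i3 ≤ i2 then
          Lam wt1 (fun g => f (σ^[g * j] y) (σ^[g * i1] n1) (σ^[g * i2] n2) (σ^[g * i3] n3))
        else if i2 < i3 ∧ i3 ≤ i1 then
          Lam wt1 (fun g => f (σ^[g * j] y) (σ^[g * i1] n1) (σ^[g * i3] n3) (σ^[g * i2] n2))
        else if i1 < i2 ∧ i3 ≤ i1 then
          Lam wt1 (fun g => f (σ^[g * j] y) (σ^[g * i2] n2) (σ^[g * i1] n1) (σ^[g * i3] n3))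
        else if i1 < i3 ∧ i3 ≤ i2 then
          Lam wt1 (fun g => f (σ^[g * j] y) (σ^[g * i2] n2) (σ^[g * i3] n3) (σ^[g * i1] n1))
        else if i1 < i3 ∧ i2 ≤ i1 then
          Lam wt1 (fun g => f (σ^[g * j] y) (σ^[g * i3] n3) (σ^[g * i1] n1) (σ^[g * i2] n2))
        else
          Lam wt1 (fun g => f (σ^[g * j] y) (σ^[g * i3] n3) (σ^[g * i2] n2) (σ^[g * i1] n1)))
        = 0 := by
    simp only [← lam_ite]
    simp only [lam_sum, lam_smul]
    exact lam_zero _ fun k => ha.E3 k y n1 n2 n3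
  simp only [ha.l1 ht] at h2
  apply ht.cancel 10 1 3 (by norm_num)
  rw [← h2]
  simp only [Finset.sum_range_succ, Finset.range_zero, Finset.sum_empty, Expand.w, zero_add,
    Nat.reduceLeDiff, if_true, if_false, le_refl, Nat.zero_le, nonpos_iff_eq_zero,
    one_ne_zero, OfNat.ofNat_ne_zero, and_true, true_and, and_self, and_false, false_and,
    Nat.reduceLT, lt_self_iff_false, not_lt_zero, Nat.lt_one_iff, zero_lt_one, Nat.ofNat_pos]
  push_cast
  module

end Alg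

end Pool.Agent.Work.MP_d7201b_al
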