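import Pool.Agent.Work.MP_d7201b_al.Tor.Alg3

/-!
# Certificates
-/

namespace Pool.Agent.Work.MP_d7201b_al

open Lin

set_option linter.unusedSimpArgs false
set_option linter.unusedVariables false
set_option linter.unreachableTactic false
set_option linter.unusedTactic false

namespace Alg

variable {M V : Type*} [AddCommGroup M] [AddCommGroup V]

/-- `f` vanishes on all permutations of four arguments. -/
structure Z (f : M →+ M →+ M →+ M →+ V) (p q r s : M) : Prop where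
  e0123 : f p q r s = 0
  e0132 : f p q s r = 0
  e0213 : f p r q s = 0
  e0231 : f p r s q = 0
  e0312 : f p s q r = 0
  e0321 : f p s r q = 0
  e1023 : f q p r s = 0
  e1032 : f q p s r = 0
  e1203 : f q r p s = 0
  e1230 : f q r s p = 0
  e1302 : f q s p r = 0
  e1320 : f q s r p = 0
  e2013 : f r p q s = 0
  e2031 : f r p s q = 0
  e2103 : f r q p s = 0
  e2130 : f r q s p = 0
  e2301 : f r s p q = 0
  e2310 : f r s q p = 0
  e3012 : f s p q r = 0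
  e3021 : f s p r q = 0
  e3102 : f s q p r = 0
  e3120 : f s q r p = 0
  e3201 : f s r p q = 0
  e3210 : f s r q p = 0

/-- The derivatives of the vanishing of all permutations. -/
structure Sh (f : M →+ M →+ M →+ M →+ V) (a' a b' b m n : M) : Prop where
  e0123 : f a' b m n + f a b' m n = 0
  e0132 : f a' b n m + f a b' n m = 0
  e0213 : f a' m b n + f a m b' n = 0
  e0231 : f a' m n b + f a m n b' = 0
  e0312 : f a' n b m + f a n b' m = 0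
  e0321 : f a' n m b + f a n m b' = 0
  e1023 : f b a' m n + f b' a m n = 0
  e1032 : f b a' n m + f b' a n m = 0
  e1203 : f b m a' n + f b' m a n = 0
  e1230 : f b m n a' + f b' m n a = 0
  e1302 : f b n a' m + f b' n a m = 0
  e1320 : f b n m a' + f b' n m a = 0
  e2013 : f m a' b n + f m a b' n = 0
  e2031 : f m a' n b + f m a n b' = 0
  e2103 : f m b a' n + f m b' a n = 0
  e2130 : f m b n a' + f m b' n a = 0
  e2301 : f m n a' b + f m n a b' = 0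
  e2310 : f m n b a' + f m n b' a = 0
  e3012 : f n a' b m + f n a b' m = 0
  e3021 : f n a' m b + f n a m b' = 0
  e3102 : f n b a' m + f n b' a m = 0
  e3120 : f n b m a' + f n b' m a = 0
  e3201 : f n m a' b + f n m a b' = 0
  e3210 : f n m b a' + f n m b' a = 0

variable {f : M →+ M →+ M →+ M →+ V} {σ : M →+ M} (ha : Alg f σ) (ht : NoTor V)


include ha

theorem mkZ {p q r s : M}
    (h0123 : f p q r s = 0)
    (h0132 : f p q s r = 0)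
    (h0213 : f p r q s = 0)
    (h0231 : f p r s q = 0)
    (h0312 : f p s q r = 0)
    (h0321 : f p s r q = 0) : Z f p q r s := by
  have h1023 : f q p r s = 0 := by rw [ha.flip, h0123, neg_zero]
  have h1032 : f q p s r = 0 := by rw [ha.flip, h0132, neg_zero]
  have h2013 : f r p q s = 0 := by rw [ha.flip, h0213, neg_zero]
  have h2031 : f r p s q = 0 := by rw [ha.flip, h0231, neg_zero]
  have h3012 : f s p q r = 0 := by rw [ha.flip, h0312, neg_zero]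
  have h3021 : f s p r q = 0 := by rw [ha.flip, h0321, neg_zero]
  have h1203 : f q r p s = 0 := by
    have h := ha.J p q r s
    rw [h0123, h2013, zero_add, add_zero] at h
    exact h
  have h1302 : f q s p r = 0 := by
    have h := ha.J p q s r
    rw [h0132, h3012, zero_add, add_zero] at h
    exact h
  have h2103 : f r q p s = 0 := by
    have h := ha.J p r q s
    rw [h0213, h1023, zero_add, add_zero] at h
    exact h
  have h2301 : f r s p q = 0 := by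
    have h := ha.J p r s q
    rw [h0231, h3021, zero_add, add_zero] at h
    exact h
  have h3102 : f s q p r = 0 := by
    have h := ha.J p s q r
    rw [h0312, h1032, zero_add, add_zero] at h
    exact h
  have h3201 : f s r p q = 0 := by
    have h := ha.J p s r q
    rw [h0321, h2031, zero_add, add_zero] at h
    exact h
  have h1230 : f q r s p = 0 := by
    have h := ha.D q r s p
    rw [h1203, h3012, h3021, sub_zero, sub_zero, add_zero] at h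
    exact h
  have h1320 : f q s r p = 0 := by
    have h := ha.D q s r p
    rw [h1302, h2013, h2031, sub_zero, sub_zero, add_zero] at h
    exact h
  have h2130 : f r q s p = 0 := by
    have h := ha.D r q s p
    rw [h2103, h3021, h3012, sub_zero, sub_zero, add_zero] at h
    exact h
  have h2310 : f r s q p = 0 := by
    have h := ha.D r s q p
    rw [h2301, h1023, h1032, sub_zero, sub_zero, add_zero] at h
    exact h
  have h3120 : f s q r p = 0 := by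
    have h := ha.D s q r p
    rw [h3102, h2031, h2013, sub_zero, sub_zero, add_zero] at h
    exact h
  have h3210 : f s r q p = 0 := by
    have h := ha.D s r q p
    rw [h3201, h1032, h1023, sub_zero, sub_zero, add_zero] at h
    exact h
  exact ⟨h0123, h0132, h0213, h0231, h0312, h0321, h1023, h1032, h1203, h1230, h1302, h1320, h2013, h2031, h2103, h2130, h2301, h2310, h3012, h3021, h3102, h3120, h3201, h3210⟩

include ht

theorem shift (a b c d : M) (e0 e1 e2 e3 : ℕ)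
    (h : ∀ k : ℕ, f (σ^[k * e0] a) (σ^[k * e1] b) (σ^[k * e2] c) (σ^[k * e3] d) = 0) :
    (e0 : ℤ) • f (U σ a) b c d + (e1 : ℤ) • f a (U σ b) c d + (e2 : ℤ) • f a b (U σ c) d +
      (e3 : ℤ) • f a b c (U σ d) = 0 := by
  apply ht.cancel 10 1 3 (by norm_num)
  rw [← ha.l1 ht]
  exact lam_zero _ h

theorem mkSh {a b m n : M} (h : ∀ k : ℕ, Z f (σ^[k] a) (σ^[k] b) m n) :
    Sh f (U σ a) a (U σ b) b m n := by
  refine ⟨?_, ?_, ?_, ?_, ?_, ?_, ?_, ?_, ?_, ?_, ?_, ?_, ?_, ?_, ?_, ?_, ?_, ?_, ?_, ?_, ?_, ?_, ?_, ?_⟩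
  · have h1 := ha.shift ht a b m n 1 1 0 0 (fun k => by
      simpa only [mul_one, mul_zero, Function.iterate_zero_apply] using (h k).e0123)
    simp only [Nat.cast_one, one_smul, Nat.cast_zero, zero_smul, add_zero, zero_add] at h1
    first | exact h1 | (rw [add_comm]; exact h1)
  · have h1 := ha.shift ht a b n m 1 1 0 0 (fun k => by
      simpa only [mul_one, mul_zero, Function.iterate_zero_apply] using (h k).e0132)
    simp only [Nat.cast_one, one_smul, Nat.cast_zero, zero_smul, add_zero, zero_add] at h1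
    first | exact h1 | (rw [add_comm]; exact h1)
  · have h1 := ha.shift ht a m b n 1 0 1 0 (fun k => by
      simpa only [mul_one, mul_zero, Function.iterate_zero_apply] using (h k).e0213)
    simp only [Nat.cast_one, one_smul, Nat.cast_zero, zero_smul, add_zero, zero_add] at h1
    first | exact h1 | (rw [add_comm]; exact h1)
  · have h1 := ha.shift ht a m n b 1 0 0 1 (fun k => by
      simpa only [mul_one, mul_zero, Function.iterate_zero_apply] using (h k).e0231)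
    simp only [Nat.cast_one, one_smul, Nat.cast_zero, zero_smul, add_zero, zero_add] at h1
    first | exact h1 | (rw [add_comm]; exact h1)
  · have h1 := ha.shift ht a n b m 1 0 1 0 (fun k => by
      simpa only [mul_one, mul_zero, Function.iterate_zero_apply] using (h k).e0312)
    simp only [Nat.cast_one, one_smul, Nat.cast_zero, zero_smul, add_zero, zero_add] at h1
    first | exact h1 | (rw [add_comm]; exact h1)
  · have h1 := ha.shift ht a n m b 1 0 0 1 (fun k => by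
      simpa only [mul_one, mul_zero, Function.iterate_zero_apply] using (h k).e0321)
    simp only [Nat.cast_one, one_smul, Nat.cast_zero, zero_smul, add_zero, zero_add] at h1
    first | exact h1 | (rw [add_comm]; exact h1)
  · have h1 := ha.shift ht b a m n 1 1 0 0 (fun k => by
      simpa only [mul_one, mul_zero, Function.iterate_zero_apply] using (h k).e1023)
    simp only [Nat.cast_one, one_smul, Nat.cast_zero, zero_smul, add_zero, zero_add] at h1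
    first | exact h1 | (rw [add_comm]; exact h1)
  · have h1 := ha.shift ht b a n m 1 1 0 0 (fun k => by
      simpa only [mul_one, mul_zero, Function.iterate_zero_apply] using (h k).e1032)
    simp only [Nat.cast_one, one_smul, Nat.cast_zero, zero_smul, add_zero, zero_add] at h1
    first | exact h1 | (rw [add_comm]; exact h1)
  · have h1 := ha.shift ht b m a n 1 0 1 0 (fun k => by
      simpa only [mul_one, mul_zero, Function.iterate_zero_apply] using (h k).e1203)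
    simp only [Nat.cast_one, one_smul, Nat.cast_zero, zero_smul, add_zero, zero_add] at h1
    first | exact h1 | (rw [add_comm]; exact h1)
  · have h1 := ha.shift ht b m n a 1 0 0 1 (fun k => by
      simpa only [mul_one, mul_zero, Function.iterate_zero_apply] using (h k).e1230)
    simp only [Nat.cast_one, one_smul, Nat.cast_zero, zero_smul, add_zero, zero_add] at h1
    first | exact h1 | (rw [add_comm]; exact h1)
  · have h1 := ha.shift ht b n a m 1 0 1 0 (fun k => by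
      simpa only [mul_one, mul_zero, Function.iterate_zero_apply] using (h k).e1302)
    simp only [Nat.cast_one, one_smul, Nat.cast_zero, zero_smul, add_zero, zero_add] at h1
    first | exact h1 | (rw [add_comm]; exact h1)
  · have h1 := ha.shift ht b n m a 1 0 0 1 (fun k => by
      simpa only [mul_one, mul_zero, Function.iterate_zero_apply] using (h k).e1320)
    simp only [Nat.cast_one, one_smul, Nat.cast_zero, zero_smul, add_zero, zero_add] at h1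
    first | exact h1 | (rw [add_comm]; exact h1)
  · have h1 := ha.shift ht m a b n 0 1 1 0 (fun k => by
      simpa only [mul_one, mul_zero, Function.iterate_zero_apply] using (h k).e2013)
    simp only [Nat.cast_one, one_smul, Nat.cast_zero, zero_smul, add_zero, zero_add] at h1
    first | exact h1 | (rw [add_comm]; exact h1)
  · have h1 := ha.shift ht m a n b 0 1 0 1 (fun k => by
      simpa only [mul_one, mul_zero, Function.iterate_zero_apply] using (h k).e2031)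
    simp only [Nat.cast_one, one_smul, Nat.cast_zero, zero_smul, add_zero, zero_add] at h1
    first | exact h1 | (rw [add_comm]; exact h1)
  · have h1 := ha.shift ht m b a n 0 1 1 0 (fun k => by
      simpa only [mul_one, mul_zero, Function.iterate_zero_apply] using (h k).e2103)
    simp only [Nat.cast_one, one_smul, Nat.cast_zero, zero_smul, add_zero, zero_add] at h1
    first | exact h1 | (rw [add_comm]; exact h1)
  · have h1 := ha.shift ht m b n a 0 1 0 1 (fun k => by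
      simpa only [mul_one, mul_zero, Function.iterate_zero_apply] using (h k).e2130)
    simp only [Nat.cast_one, one_smul, Nat.cast_zero, zero_smul, add_zero, zero_add] at h1
    first | exact h1 | (rw [add_comm]; exact h1)
  · have h1 := ha.shift ht m n a b 0 0 1 1 (fun k => by
      simpa only [mul_one, mul_zero, Function.iterate_zero_apply] using (h k).e2301)
    simp only [Nat.cast_one, one_smul, Nat.cast_zero, zero_smul, add_zero, zero_add] at h1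
    first | exact h1 | (rw [add_comm]; exact h1)
  · have h1 := ha.shift ht m n b a 0 0 1 1 (fun k => by
      simpa only [mul_one, mul_zero, Function.iterate_zero_apply] using (h k).e2310)
    simp only [Nat.cast_one, one_smul, Nat.cast_zero, zero_smul, add_zero, zero_add] at h1
    first | exact h1 | (rw [add_comm]; exact h1)
  · have h1 := ha.shift ht n a b m 0 1 1 0 (fun k => by
      simpa only [mul_one, mul_zero, Function.iterate_zero_apply] using (h k).e3012)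
    simp only [Nat.cast_one, one_smul, Nat.cast_zero, zero_smul, add_zero, zero_add] at h1
    first | exact h1 | (rw [add_comm]; exact h1)
  · have h1 := ha.shift ht n a m b 0 1 0 1 (fun k => by
      simpa only [mul_one, mul_zero, Function.iterate_zero_apply] using (h k).e3021)
    simp only [Nat.cast_one, one_smul, Nat.cast_zero, zero_smul, add_zero, zero_add] at h1
    first | exact h1 | (rw [add_comm]; exact h1)
  · have h1 := ha.shift ht n b a m 0 1 1 0 (fun k => by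
      simpa only [mul_one, mul_zero, Function.iterate_zero_apply] using (h k).e3102)
    simp only [Nat.cast_one, one_smul, Nat.cast_zero, zero_smul, add_zero, zero_add] at h1
    first | exact h1 | (rw [add_comm]; exact h1)
  · have h1 := ha.shift ht n b m a 0 1 0 1 (fun k => by
      simpa only [mul_one, mul_zero, Function.iterate_zero_apply] using (h k).e3120)
    simp only [Nat.cast_one, one_smul, Nat.cast_zero, zero_smul, add_zero, zero_add] at h1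
    first | exact h1 | (rw [add_comm]; exact h1)
  · have h1 := ha.shift ht n m a b 0 0 1 1 (fun k => by
      simpa only [mul_one, mul_zero, Function.iterate_zero_apply] using (h k).e3201)
    simp only [Nat.cast_one, one_smul, Nat.cast_zero, zero_smul, add_zero, zero_add] at h1
    first | exact h1 | (rw [add_comm]; exact h1)
  · have h1 := ha.shift ht n m b a 0 0 1 1 (fun k => by
      simpa only [mul_one, mul_zero, Function.iterate_zero_apply] using (h k).e3210)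
    simp only [Nat.cast_one, one_smul, Nat.cast_zero, zero_smul, add_zero, zero_add] at h1
    first | exact h1 | (rw [add_comm]; exact h1)

theorem b3_1 (y : M) :
    f (U σ y) y y y = 0 := by
  apply ht.cancel 6 1 5 (by norm_num)
  linear_combination (norm := module)
    (-18 : ℤ) • (ha.J y y (U σ y) y) + (1 : ℤ) • (ha.R3 ht y y y y) +
    (-6 : ℤ) • (ha.same ht y y (U σ y)) + (6 : ℤ) • (ha.same ht y (U σ y) y)

theorem b3_2 (y : M) :
    f (U σ (U σ y)) y y y = 0 := by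
  apply ht.cancel 30 1 1 (by norm_num)
  linear_combination (norm := module)
    (-3 : ℤ) • (ha.D (U σ y) y (U σ y) y) + (-54 : ℤ) • (ha.A y (U σ y) (U σ y) y) +
    (-54 : ℤ) • (ha.A y (U σ (U σ y)) y y) + (9 : ℤ) • (ha.R2 ht y y y y) +
    (-1 : ℤ) • (ha.R3 ht (U σ y) y y y) + (-18 : ℤ) • (ha.same ht y (U σ (U σ y)) y) +
    (-126 : ℤ) • (ha.same ht (U σ y) y y)

theorem b3_3 (y : M) :
    f (U σ (U σ (U σ y))) y y y = 0 := by
  apply ht.cancel 30 1 1 (by norm_num)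
  linear_combination (norm := module)
    (-10 : ℤ) • (ha.J y y (U σ (U σ (U σ y))) y) + (24 : ℤ) • (ha.D (U σ y) y (U σ (U σ y)) y) +
    (-18 : ℤ) • (ha.D y (U σ y) y (U σ (U σ y))) + (-22 : ℤ) • (ha.A y (U σ y) (U σ (U σ y)) y) +
    (6 : ℤ) • (ha.J y (U σ y) (U σ (U σ y)) y) + (12 : ℤ) • (ha.A y (U σ (U σ y)) y (U σ y)) +
    (7 : ℤ) • (ha.R1 ht y y y y) + (-5 : ℤ) • (ha.R2 ht y y (U σ y) y) +
    (-3 : ℤ) • (ha.R2 ht (U σ y) y y y) + (2 : ℤ) • (ha.R3 ht (U σ (U σ y)) y y y) +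
    (3 : ℤ) • (ha.R3 ht y y y (U σ (U σ y))) + (-6 : ℤ) • (ha.same ht y y (U σ (U σ (U σ y)))) +
    (-12 : ℤ) • (ha.same ht y (U σ y) (U σ (U σ y))) + (-6 : ℤ) • (ha.same ht y (U σ (U σ y)) (U σ y)) +
    (3 : ℤ) • (ha.same ht y (U σ (U σ (U σ y))) y) + (78 : ℤ) • (ha.same ht (U σ y) (U σ y) y)

theorem b2_1a (y m : M) (h0 : ∀ m, Z f m y y y)
    (pol : f m (U σ y) y y + f m y (U σ y) y + f m y y (U σ y) = 0) :
    f (U σ y) y y m = 0 := by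
  apply ht.cancel 10 1 3 (by norm_num)
  linear_combination (norm := module)
    (-10 : ℤ) • (pol) + (-26 : ℤ) • (ha.J m (U σ y) y y) + (-12 : ℤ) • (ha.J y y (U σ y) m) +
    (8 : ℤ) • (ha.A m y (U σ y) y) + (-24 : ℤ) • (ha.J m y (U σ y) y) + (2 : ℤ) • (ha.D m y (U σ y) y) +
    (-6 : ℤ) • (ha.D y (U σ y) y m) + (3 : ℤ) • (ha.R3 ht y m y y) + (2 : ℤ) • (ha.R3 ht m y y y) +
    (-48 : ℤ) • ((h0 (U σ m)).e0123) + (-18 : ℤ) • ((h0 (U σ m)).e1023) +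
    (-6 : ℤ) • (ha.same ht y m (U σ y)) + (-12 : ℤ) • (ha.same ht y (U σ m) y) +
    (-6 : ℤ) • (ha.same ht y y (U σ m))

theorem b2_1b (y m : M) (h0 : ∀ m, Z f m y y y)
    (pol : f m (U σ y) y y + f m y (U σ y) y + f m y y (U σ y) = 0) :
    f (U σ y) y m y = 0 := by
  apply ht.cancel 60 2 15 (by norm_num)
  linear_combination (norm := module)
    (30 : ℤ) • (pol) + (-48 : ℤ) • (ha.J m (U σ y) y y) + (-36 : ℤ) • (ha.J y y (U σ y) m) +
    (-6 : ℤ) • (ha.A m y (U σ y) y) + (-72 : ℤ) • (ha.J m y (U σ y) y) +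
    (36 : ℤ) • (ha.D m y (U σ y) y) + (-18 : ℤ) • (ha.D y (U σ y) y m) +
    (9 : ℤ) • (ha.R3 ht y m y y) + (1 : ℤ) • (ha.R3 ht m y y y) + (-24 : ℤ) • ((h0 (U σ m)).e0123) +
    (-54 : ℤ) • ((h0 (U σ m)).e1023) + (-18 : ℤ) • (ha.same ht y m (U σ y)) +
    (-36 : ℤ) • (ha.same ht y (U σ m) y) + (-18 : ℤ) • (ha.same ht y y (U σ m))

theorem b2_1c (y m : M) (h0 : ∀ m, Z f m y y y)
    (pol : f m (U σ y) y y + f m y (U σ y) y + f m y y (U σ y) = 0) :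
    f (U σ y) m y y = 0 := by
  apply ht.cancel 20 2 45 (by norm_num)
  linear_combination (norm := module)
    (10 : ℤ) • (pol) + (-2 : ℤ) • (ha.A y (U σ y) m y) + (-4 : ℤ) • (ha.D y (U σ y) m y) +
    (12 : ℤ) • (ha.A m (U σ y) y y) + (-4 : ℤ) • (ha.J m (U σ y) y y) + (2 : ℤ) • (ha.D y m (U σ y) y) +
    (-10 : ℤ) • (ha.J y y (U σ y) m) + (-2 : ℤ) • (ha.A m y (U σ y) y) +
    (1 : ℤ) • (ha.R3 ht y m y y) + (-1 : ℤ) • (ha.R3 ht m y y y) + (24 : ℤ) • ((h0 (U σ m)).e0123) +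
    (-6 : ℤ) • ((h0 (U σ m)).e1023) + (-2 : ℤ) • (ha.same ht y m (U σ y)) +
    (-4 : ℤ) • (ha.same ht y (U σ m) y) + (-2 : ℤ) • (ha.same ht y y (U σ m)) +
    (6 : ℤ) • (ha.same ht y (U σ y) m)

theorem b2_2a (y m : M) (h0 : ∀ m, Z f m y y y)
    (h1 : ∀ m, Z f (U σ y) y y m)
    (pol1 : f (U σ (U σ y)) y y m + f (U σ y) (U σ y) y m + f (U σ y) y (U σ y) m = 0)
    (pol2 : f (U σ (U σ y)) y m y + f (U σ y) (U σ y) m y + f (U σ y) y m (U σ y) = 0)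
    (pol3 : f (U σ (U σ y)) m y y + f (U σ y) m (U σ y) y + f (U σ y) m y (U σ y) = 0) :
    f (U σ (U σ y)) y y m = 0 := by
  apply ht.cancel 4 2 225 (by norm_num)
  linear_combination (norm := module)
    (-2 : ℤ) • (pol1) + (-6 : ℤ) • (ha.A y (U σ (U σ y)) y m) + (-6 : ℤ) • (ha.A y (U σ y) (U σ y) m) +
    (1 : ℤ) • (ha.R2 ht y y y m) + (-2 : ℤ) • (ha.same ht y (U σ (U σ y)) m) +
    (-14 : ℤ) • (ha.same ht (U σ y) y m)

theorem b2_2b (y m : M) (h0 : ∀ m, Z f m y y y)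
    (h1 : ∀ m, Z f (U σ y) y y m)
    (pol1 : f (U σ (U σ y)) y y m + f (U σ y) (U σ y) y m + f (U σ y) y (U σ y) m = 0)
    (pol2 : f (U σ (U σ y)) y m y + f (U σ y) (U σ y) m y + f (U σ y) y m (U σ y) = 0)
    (pol3 : f (U σ (U σ y)) m y y + f (U σ y) m (U σ y) y + f (U σ y) m y (U σ y) = 0) :
    f (U σ (U σ y)) y m y = 0 := by
  apply ht.cancel 20 2 45 (by norm_num)
  linear_combination (norm := module)
    (-10 : ℤ) • (pol1) + (-4 : ℤ) • (ha.J m y (U σ (U σ y)) y) + (-4 : ℤ) • (ha.D y m y (U σ (U σ y))) +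
    (-4 : ℤ) • (ha.D (U σ (U σ y)) y y m) + (-12 : ℤ) • (ha.A m (U σ (U σ y)) y y) +
    (10 : ℤ) • (ha.A y (U σ (U σ y)) y m) + (-12 : ℤ) • (ha.A m (U σ y) (U σ y) y) +
    (4 : ℤ) • (ha.D (U σ y) y (U σ y) m) + (6 : ℤ) • (ha.A y (U σ y) (U σ y) m) +
    (-1 : ℤ) • (ha.R2 ht y y y m) + (2 : ℤ) • (ha.R2 ht m y y y) +
    (2 : ℤ) • (ha.R3 ht (U σ y) m y y) + (-16 : ℤ) • ((h1 (U σ m)).e3102) +
    (-32 : ℤ) • ((h1 (U σ m)).e3012) + (-24 : ℤ) • ((h0 (U σ (U σ m))).e0123) +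
    (2 : ℤ) • (ha.same ht y (U σ (U σ y)) m) + (-12 : ℤ) • ((h1 (U σ m)).e0312) +
    (-8 : ℤ) • ((h1 (U σ m)).e0132) + (-4 : ℤ) • ((h1 (U σ m)).e0123) +
    (-12 : ℤ) • (ha.same ht (U σ y) m y) + (14 : ℤ) • (ha.same ht (U σ y) y m)

theorem b2_2c (y m : M) (h0 : ∀ m, Z f m y y y)
    (h1 : ∀ m, Z f (U σ y) y y m)
    (pol1 : f (U σ (U σ y)) y y m + f (U σ y) (U σ y) y m + f (U σ y) y (U σ y) m = 0)
    (pol2 : f (U σ (U σ y)) y m y + f (U σ y) (U σ y) m y + f (U σ y) y m (U σ y) = 0)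
    (pol3 : f (U σ (U σ y)) m y y + f (U σ y) m (U σ y) y + f (U σ y) m y (U σ y) = 0) :
    f (U σ (U σ y)) m y y = 0 := by
  apply ht.cancel 10 1 3 (by norm_num)
  linear_combination (norm := module)
    (6 : ℤ) • (pol1) + (-4 : ℤ) • (pol2) + (-4 : ℤ) • (pol3) + (6 : ℤ) • (ha.D y m y (U σ (U σ y))) +
    (6 : ℤ) • (ha.D (U σ (U σ y)) y y m) + (2 : ℤ) • (ha.A m (U σ (U σ y)) y y) +
    (-2 : ℤ) • (ha.J m (U σ (U σ y)) y y) + (-4 : ℤ) • (ha.D (U σ y) y (U σ y) m) +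
    (6 : ℤ) • (ha.A y (U σ y) (U σ y) m) + (2 : ℤ) • (ha.R2 ht y m y y) +
    (-1 : ℤ) • (ha.R2 ht y y y m) + (-6 : ℤ) • ((h1 (U σ m)).e1302) +
    (-6 : ℤ) • ((h0 (U σ (U σ m))).e1023) + (-2 : ℤ) • (ha.same ht y (U σ (U σ m)) y) +
    (2 : ℤ) • (ha.same ht y (U σ (U σ y)) m) + (-6 : ℤ) • ((h1 (U σ m)).e1032) +
    (-16 : ℤ) • ((h1 (U σ m)).e0312) + (-8 : ℤ) • ((h1 (U σ m)).e0132) +
    (-12 : ℤ) • (ha.same ht (U σ y) m y) + (10 : ℤ) • (ha.same ht (U σ y) y m)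

theorem b2_2d (y m : M) (h0 : ∀ m, Z f m y y y)
    (h1 : ∀ m, Z f (U σ y) y y m)
    (pol1 : f (U σ (U σ y)) y y m + f (U σ y) (U σ y) y m + f (U σ y) y (U σ y) m = 0)
    (pol2 : f (U σ (U σ y)) y m y + f (U σ y) (U σ y) m y + f (U σ y) y m (U σ y) = 0)
    (pol3 : f (U σ (U σ y)) m y y + f (U σ y) m (U σ y) y + f (U σ y) m y (U σ y) = 0) :
    f (U σ y) m (U σ y) y = 0 := by
  apply ht.cancel 20 2 45 (by norm_num)
  linear_combination (norm := module)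
    (-14 : ℤ) • (pol1) + (16 : ℤ) • (pol2) + (16 : ℤ) • (pol3) +
    (-30 : ℤ) • (ha.A y (U σ (U σ y)) y m) + (12 : ℤ) • (ha.D (U σ y) y (U σ y) m) +
    (-30 : ℤ) • (ha.A y (U σ y) (U σ y) m) + (5 : ℤ) • (ha.R2 ht y y y m) +
    (-2 : ℤ) • (ha.R3 ht (U σ y) m y y) + (-10 : ℤ) • (ha.same ht y (U σ (U σ y)) m) +
    (12 : ℤ) • ((h1 (U σ m)).e0312) + (8 : ℤ) • ((h1 (U σ m)).e0132) + (4 : ℤ) • ((h1 (U σ m)).e0123) +
    (-4 : ℤ) • (ha.same ht (U σ y) m y) + (-54 : ℤ) • (ha.same ht (U σ y) y m)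

theorem b2_3a (y m : M) (h0 : ∀ m, Z f m y y y)
    (h1 : ∀ m, Z f (U σ y) y y m)
    (h2 : ∀ m, Z f (U σ (U σ y)) y y m)
    (h11 : ∀ m, Z f (U σ y) (U σ y) y m)
    (pol1 : f (U σ (U σ (U σ y))) y y m + f (U σ (U σ y)) (U σ y) y m + f (U σ (U σ y)) y (U σ y) m = 0)
    (pol2 : f (U σ (U σ (U σ y))) y m y + f (U σ (U σ y)) (U σ y) m y + f (U σ (U σ y)) y m (U σ y) = 0)
    (pol3 : f (U σ (U σ (U σ y))) m y y + f (U σ (U σ y)) m (U σ y) y + f (U σ (U σ y)) m y (U σ y) = 0) :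
    f (U σ (U σ (U σ y))) y y m = 0 := by
  apply ht.cancel 20 2 45 (by norm_num)
  linear_combination (norm := module)
    (-40 : ℤ) • (pol1) + (-36 : ℤ) • (ha.A (U σ y) (U σ (U σ y)) y m) +
    (6 : ℤ) • (ha.A y (U σ (U σ y)) (U σ y) m) + (-4 : ℤ) • (ha.A y (U σ y) (U σ (U σ y)) m) +
    (8 : ℤ) • (ha.J y (U σ y) (U σ (U σ y)) m) + (3 : ℤ) • (ha.R1 ht y y y m) +
    (-1 : ℤ) • (ha.R2 ht y y (U σ y) m) + (4 : ℤ) • (ha.R2 ht (U σ y) y y m) +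
    (1 : ℤ) • (ha.same ht y (U σ (U σ (U σ y))) m) + (-12 : ℤ) • (ha.same ht (U σ y) (U σ y) m)

theorem b2_3b (y m : M) (h0 : ∀ m, Z f m y y y)
    (h1 : ∀ m, Z f (U σ y) y y m)
    (h2 : ∀ m, Z f (U σ (U σ y)) y y m)
    (h11 : ∀ m, Z f (U σ y) (U σ y) y m)
    (pol1 : f (U σ (U σ (U σ y))) y y m + f (U σ (U σ y)) (U σ y) y m + f (U σ (U σ y)) y (U σ y) m = 0)
    (pol2 : f (U σ (U σ (U σ y))) y m y + f (U σ (U σ y)) (U σ y) m y + f (U σ (U σ y)) y m (U σ y) = 0)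
    (pol3 : f (U σ (U σ (U σ y))) m y y + f (U σ (U σ y)) m (U σ y) y + f (U σ (U σ y)) m y (U σ y) = 0) :
    f (U σ (U σ (U σ y))) y m y = 0 := by
  apply ht.cancel 40 3 675 (by norm_num)
  linear_combination (norm := module)
    (68 : ℤ) • (ha.A m (U σ (U σ (U σ y))) y y) + (-8 : ℤ) • (ha.J m (U σ (U σ (U σ y))) y y) +
    (20 : ℤ) • (ha.A m y (U σ (U σ (U σ y))) y) + (-56 : ℤ) • (ha.A m (U σ y) (U σ (U σ y)) y) +
    (136 : ℤ) • (ha.J m (U σ y) (U σ (U σ y)) y) + (120 : ℤ) • (ha.J m (U σ (U σ y)) (U σ y) y) +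
    (-136 : ℤ) • (ha.A (U σ y) (U σ (U σ y)) m y) + (7 : ℤ) • (ha.R1 ht y m y y) +
    (36 : ℤ) • (ha.R1 ht y y m y) + (-12 : ℤ) • (ha.R2 ht y m (U σ y) y) +
    (-20 : ℤ) • (ha.R2 ht m y (U σ y) y) + (-16 : ℤ) • (ha.R2 ht (U σ y) m y y) +
    (80 : ℤ) • ((h2 (U σ m)).e3102) + (240 : ℤ) • ((h11 (U σ m)).e3012) +
    (160 : ℤ) • ((h2 (U σ m)).e3012) + (120 : ℤ) • ((h1 (U σ (U σ m))).e3102) +
    (120 : ℤ) • ((h1 (U σ (U σ m))).e3012) + (36 : ℤ) • ((h2 (U σ m)).e1302) +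
    (36 : ℤ) • ((h1 (U σ (U σ m))).e1302) + (-7 : ℤ) • ((h0 (U σ (U σ (U σ m)))).e1023) +
    (12 : ℤ) • ((h1 (U σ (U σ m))).e1032) + (36 : ℤ) • ((h2 (U σ m)).e1032) +
    (144 : ℤ) • ((h11 (U σ m)).e0312) + (20 : ℤ) • ((h1 (U σ (U σ m))).e0312) +
    (16 : ℤ) • ((h1 (U σ (U σ m))).e0132) + (96 : ℤ) • (ha.same ht (U σ y) (U σ m) y) +
    (86 : ℤ) • ((h2 (U σ m)).e0312) + (64 : ℤ) • ((h2 (U σ m)).e0132)

theorem b2_3c (y m : M) (h0 : ∀ m, Z f m y y y)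
    (h1 : ∀ m, Z f (U σ y) y y m)
    (h2 : ∀ m, Z f (U σ (U σ y)) y y m)
    (h11 : ∀ m, Z f (U σ y) (U σ y) y m)
    (pol1 : f (U σ (U σ (U σ y))) y y m + f (U σ (U σ y)) (U σ y) y m + f (U σ (U σ y)) y (U σ y) m = 0)
    (pol2 : f (U σ (U σ (U σ y))) y m y + f (U σ (U σ y)) (U σ y) m y + f (U σ (U σ y)) y m (U σ y) = 0)
    (pol3 : f (U σ (U σ (U σ y))) m y y + f (U σ (U σ y)) m (U σ y) y + f (U σ (U σ y)) m y (U σ y) = 0) :
    f (U σ (U σ (U σ y))) m y y = 0 := by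
  apply ht.cancel 4 2 225 (by norm_num)
  linear_combination (norm := module)
    (1 : ℤ) • (ha.R1 ht y m y y) + (-1 : ℤ) • ((h0 (U σ (U σ (U σ m)))).e1023) +
    (-4 : ℤ) • ((h1 (U σ (U σ m))).e0312) + (-6 : ℤ) • ((h2 (U σ m)).e0312)

theorem b1_1a (y m n : M) (z0 : ∀ m n, Z f y y m n)
    (s : Sh f (U σ y) y (U σ y) y m n) :
    f (U σ y) y m n = 0 := by
  apply ht.cancel 5 1 6 (by norm_num)
  linear_combination (norm := module)
    (-3 : ℤ) • (s.e0123) + (-8 : ℤ) • (s.e0132) + (5 : ℤ) • (s.e0312) + (-5 : ℤ) • (s.e3201) +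
    (-1 : ℤ) • (ha.J n y (U σ y) m) + (-7 : ℤ) • (ha.D n y (U σ y) m) +
    (-2 : ℤ) • (ha.A m n y (U σ y)) + (-11 : ℤ) • (ha.A n y m (U σ y)) +
    (-8 : ℤ) • (ha.D n (U σ y) m y) + (-8 : ℤ) • (ha.D (U σ y) n m y) +
    (-9 : ℤ) • (ha.D y n (U σ y) m) + (-4 : ℤ) • (ha.J m n (U σ y) y) +
    (-6 : ℤ) • (ha.A m (U σ y) y n) + (3 : ℤ) • (ha.D y (U σ y) n m) +
    (-20 : ℤ) • (ha.A n (U σ y) y m) + (-4 : ℤ) • (ha.A m y (U σ y) n) +
    (-6 : ℤ) • (ha.A m (U σ y) n y) + (-2 : ℤ) • (ha.A m y n (U σ y)) + (2 : ℤ) • (ha.R3 ht y m n y) +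
    (1 : ℤ) • (ha.R3 ht m n y y) + (2 : ℤ) • (ha.R3 ht n m y y) +
    (-6 : ℤ) • ((z0 m (U σ n)).e2301) + (-4 : ℤ) • ((z0 m (U σ n)).e2031) +
    (-2 : ℤ) • ((z0 m (U σ n)).e2013) + (-8 : ℤ) • ((z0 (U σ m) n).e2301) +
    (-8 : ℤ) • ((z0 (U σ m) n).e2031) + (-8 : ℤ) • ((z0 (U σ m) n).e2013) +
    (-12 : ℤ) • ((z0 (U σ m) n).e3201) + (-8 : ℤ) • ((z0 (U σ m) n).e3021) +
    (-4 : ℤ) • ((z0 (U σ m) n).e3012) + (-16 : ℤ) • ((z0 m (U σ n)).e3201) +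
    (-16 : ℤ) • ((z0 m (U σ n)).e3021) + (-16 : ℤ) • ((z0 m (U σ n)).e3012) +
    (-4 : ℤ) • ((z0 m (U σ n)).e0231) + (-2 : ℤ) • ((z0 m (U σ n)).e0213) +
    (-6 : ℤ) • ((z0 (U σ m) n).e0231) + (-6 : ℤ) • ((z0 (U σ m) n).e0213) +
    (-4 : ℤ) • ((z0 (U σ m) n).e0321) + (-2 : ℤ) • ((z0 (U σ m) n).e0312) +
    (-6 : ℤ) • ((z0 m (U σ n)).e0321) + (-6 : ℤ) • ((z0 m (U σ n)).e0312) +
    (-2 : ℤ) • (ha.same ht y m (U σ n)) + (-4 : ℤ) • (ha.same ht y (U σ m) n) +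
    (-2 : ℤ) • (ha.same ht y n (U σ m)) + (-4 : ℤ) • (ha.same ht y (U σ n) m)

theorem b1_1b (y m n : M) (z0 : ∀ m n, Z f y y m n)
    (s : Sh f (U σ y) y (U σ y) y m n) :
    f (U σ y) y n m = 0 := by
  apply ht.cancel 5 1 6 (by norm_num)
  linear_combination (norm := module)
    (-12 : ℤ) • (s.e0132) + (3 : ℤ) • (s.e0231) + (-8 : ℤ) • (s.e0312) + (-3 : ℤ) • (s.e2013) +
    (-4 : ℤ) • (s.e2031) + (-6 : ℤ) • (s.e3012) + (3 : ℤ) • (s.e3021) +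
    (2 : ℤ) • (ha.A n y (U σ y) m) + (-2 : ℤ) • (ha.A m n y (U σ y)) + (-5 : ℤ) • (ha.J m n y (U σ y)) +
    (-6 : ℤ) • (ha.D m n y (U σ y)) + (2 : ℤ) • (ha.D y n (U σ y) m) + (4 : ℤ) • (ha.A m n (U σ y) y) +
    (-9 : ℤ) • (ha.J m n (U σ y) y) + (-9 : ℤ) • (ha.D m n (U σ y) y) +
    (-10 : ℤ) • (ha.A m (U σ y) y n) + (1 : ℤ) • (ha.J m (U σ y) y n) +
    (-5 : ℤ) • (ha.A m y (U σ y) n) + (-8 : ℤ) • (ha.J m (U σ y) n y) + (2 : ℤ) • (ha.R3 ht y m n y) +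
    (2 : ℤ) • (ha.R3 ht m n y y) + (1 : ℤ) • (ha.R3 ht n m y y) +
    (-12 : ℤ) • ((z0 m (U σ n)).e2301) + (-8 : ℤ) • ((z0 m (U σ n)).e2031) +
    (-4 : ℤ) • ((z0 m (U σ n)).e2013) + (-16 : ℤ) • ((z0 (U σ m) n).e2301) +
    (-16 : ℤ) • ((z0 (U σ m) n).e2031) + (-16 : ℤ) • ((z0 (U σ m) n).e2013) +
    (-6 : ℤ) • ((z0 (U σ m) n).e3201) + (-4 : ℤ) • ((z0 (U σ m) n).e3021) +
    (-2 : ℤ) • ((z0 (U σ m) n).e3012) + (-8 : ℤ) • ((z0 m (U σ n)).e3201) +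
    (-8 : ℤ) • ((z0 m (U σ n)).e3021) + (-8 : ℤ) • ((z0 m (U σ n)).e3012) +
    (-4 : ℤ) • ((z0 m (U σ n)).e0231) + (-2 : ℤ) • ((z0 m (U σ n)).e0213) +
    (-6 : ℤ) • ((z0 (U σ m) n).e0231) + (-6 : ℤ) • ((z0 (U σ m) n).e0213) +
    (-4 : ℤ) • ((z0 (U σ m) n).e0321) + (-2 : ℤ) • ((z0 (U σ m) n).e0312) +
    (-6 : ℤ) • ((z0 m (U σ n)).e0321) + (-6 : ℤ) • ((z0 m (U σ n)).e0312) +
    (-2 : ℤ) • (ha.same ht y m (U σ n)) + (-4 : ℤ) • (ha.same ht y (U σ m) n) +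
    (-2 : ℤ) • (ha.same ht y n (U σ m)) + (-4 : ℤ) • (ha.same ht y (U σ n) m)

theorem b1_1c (y m n : M) (z0 : ∀ m n, Z f y y m n)
    (s : Sh f (U σ y) y (U σ y) y m n) :
    f (U σ y) m y n = 0 := by
  apply ht.cancel 10 1 3 (by norm_num)
  linear_combination (norm := module)
    (-6 : ℤ) • (s.e0123) + (-10 : ℤ) • (s.e0132) + (-4 : ℤ) • (s.e0312) + (-4 : ℤ) • (s.e3012) +
    (-10 : ℤ) • (s.e3021) + (4 : ℤ) • (ha.J n y (U σ y) m) + (-2 : ℤ) • (ha.J m n y (U σ y)) +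
    (8 : ℤ) • (ha.D n y m (U σ y)) + (2 : ℤ) • (ha.D n m (U σ y) y) + (6 : ℤ) • (ha.A n (U σ y) m y) +
    (4 : ℤ) • (ha.A m n (U σ y) y) + (-8 : ℤ) • (ha.J m n (U σ y) y) + (2 : ℤ) • (ha.A m (U σ y) y n) +
    (-8 : ℤ) • (ha.A n (U σ y) y m) + (-4 : ℤ) • (ha.A m y (U σ y) n) +
    (-14 : ℤ) • (ha.J m (U σ y) n y) + (-2 : ℤ) • (ha.J m y n (U σ y)) +
    (2 : ℤ) • (ha.R3 ht y m n y) + (1 : ℤ) • (ha.R3 ht m n y y) + (2 : ℤ) • (ha.R3 ht n m y y) +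
    (-6 : ℤ) • ((z0 m (U σ n)).e2301) + (-4 : ℤ) • ((z0 m (U σ n)).e2031) +
    (-2 : ℤ) • ((z0 m (U σ n)).e2013) + (-8 : ℤ) • ((z0 (U σ m) n).e2301) +
    (-8 : ℤ) • ((z0 (U σ m) n).e2031) + (-8 : ℤ) • ((z0 (U σ m) n).e2013) +
    (-12 : ℤ) • ((z0 (U σ m) n).e3201) + (-8 : ℤ) • ((z0 (U σ m) n).e3021) +
    (-4 : ℤ) • ((z0 (U σ m) n).e3012) + (-16 : ℤ) • ((z0 m (U σ n)).e3201) +
    (-16 : ℤ) • ((z0 m (U σ n)).e3021) + (-16 : ℤ) • ((z0 m (U σ n)).e3012) +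
    (-4 : ℤ) • ((z0 m (U σ n)).e0231) + (-2 : ℤ) • ((z0 m (U σ n)).e0213) +
    (-6 : ℤ) • ((z0 (U σ m) n).e0231) + (-6 : ℤ) • ((z0 (U σ m) n).e0213) +
    (-4 : ℤ) • ((z0 (U σ m) n).e0321) + (-2 : ℤ) • ((z0 (U σ m) n).e0312) +
    (-6 : ℤ) • ((z0 m (U σ n)).e0321) + (-6 : ℤ) • ((z0 m (U σ n)).e0312) +
    (-2 : ℤ) • (ha.same ht y m (U σ n)) + (-4 : ℤ) • (ha.same ht y (U σ m) n) +
    (-2 : ℤ) • (ha.same ht y n (U σ m)) + (-4 : ℤ) • (ha.same ht y (U σ n) m)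

theorem b1_1d (y m n : M) (z0 : ∀ m n, Z f y y m n)
    (s : Sh f (U σ y) y (U σ y) y m n) :
    f (U σ y) m n y = 0 := by
  apply ht.cancel 20 2 45 (by norm_num)
  linear_combination (norm := module)
    (4 : ℤ) • (s.e0132) + (10 : ℤ) • (s.e0213) + (-20 : ℤ) • (s.e0231) + (-4 : ℤ) • (s.e0321) +
    (20 : ℤ) • (s.e2013) + (6 : ℤ) • (s.e3021) + (4 : ℤ) • (ha.A n y (U σ y) m) +
    (8 : ℤ) • (ha.J n y (U σ y) m) + (6 : ℤ) • (ha.D m n y (U σ y)) + (18 : ℤ) • (ha.D y m n (U σ y)) +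
    (-18 : ℤ) • (ha.A n (U σ y) m y) + (-18 : ℤ) • (ha.A m n (U σ y) y) +
    (48 : ℤ) • (ha.J m n (U σ y) y) + (-4 : ℤ) • (ha.D m n (U σ y) y) +
    (-2 : ℤ) • (ha.A m (U σ y) y n) + (12 : ℤ) • (ha.J m (U σ y) y n) +
    (30 : ℤ) • (ha.J m (U σ y) n y) + (4 : ℤ) • (ha.A m y n (U σ y)) + (6 : ℤ) • (ha.J m y n (U σ y)) +
    (-2 : ℤ) • (ha.R3 ht y m n y) + (-5 : ℤ) • (ha.R3 ht m n y y) +
    (-3 : ℤ) • (ha.R3 ht n m y y) + (30 : ℤ) • ((z0 m (U σ n)).e2301) +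
    (20 : ℤ) • ((z0 m (U σ n)).e2031) + (10 : ℤ) • ((z0 m (U σ n)).e2013) +
    (40 : ℤ) • ((z0 (U σ m) n).e2301) + (40 : ℤ) • ((z0 (U σ m) n).e2031) +
    (40 : ℤ) • ((z0 (U σ m) n).e2013) + (18 : ℤ) • ((z0 (U σ m) n).e3201) +
    (12 : ℤ) • ((z0 (U σ m) n).e3021) + (6 : ℤ) • ((z0 (U σ m) n).e3012) +
    (24 : ℤ) • ((z0 m (U σ n)).e3201) + (24 : ℤ) • ((z0 m (U σ n)).e3021) +
    (24 : ℤ) • ((z0 m (U σ n)).e3012) + (4 : ℤ) • ((z0 m (U σ n)).e0231) +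
    (2 : ℤ) • ((z0 m (U σ n)).e0213) + (6 : ℤ) • ((z0 (U σ m) n).e0231) +
    (6 : ℤ) • ((z0 (U σ m) n).e0213) + (4 : ℤ) • ((z0 (U σ m) n).e0321) +
    (2 : ℤ) • ((z0 (U σ m) n).e0312) + (6 : ℤ) • ((z0 m (U σ n)).e0321) +
    (6 : ℤ) • ((z0 m (U σ n)).e0312) + (2 : ℤ) • (ha.same ht y m (U σ n)) +
    (4 : ℤ) • (ha.same ht y (U σ m) n) + (2 : ℤ) • (ha.same ht y n (U σ m)) +
    (4 : ℤ) • (ha.same ht y (U σ n) m)

theorem b1_1e (y m n : M) (z0 : ∀ m n, Z f y y m n)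
    (s : Sh f (U σ y) y (U σ y) y m n) :
    f (U σ y) n y m = 0 := by
  apply ht.cancel 10 1 3 (by norm_num)
  linear_combination (norm := module)
    (-12 : ℤ) • (s.e0123) + (-2 : ℤ) • (s.e0231) + (-6 : ℤ) • (s.e0312) + (-12 : ℤ) • (s.e2013) +
    (-18 : ℤ) • (s.e3012) + (12 : ℤ) • (s.e3021) + (4 : ℤ) • (ha.D m n y (U σ y)) +
    (-14 : ℤ) • (ha.D n y m (U σ y)) + (-12 : ℤ) • (ha.D n (U σ y) m y) +
    (-2 : ℤ) • (ha.D y n m (U σ y)) + (-8 : ℤ) • (ha.D (U σ y) n m y) +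
    (-6 : ℤ) • (ha.A m n (U σ y) y) + (-6 : ℤ) • (ha.J m n (U σ y) y) + (8 : ℤ) • (ha.D m n (U σ y) y) +
    (-8 : ℤ) • (ha.A m (U σ y) y n) + (-4 : ℤ) • (ha.J m (U σ y) y n) +
    (-2 : ℤ) • (ha.D y (U σ y) n m) + (2 : ℤ) • (ha.R3 ht y m n y) + (2 : ℤ) • (ha.R3 ht m n y y) +
    (1 : ℤ) • (ha.R3 ht n m y y) + (-12 : ℤ) • ((z0 m (U σ n)).e2301) +
    (-8 : ℤ) • ((z0 m (U σ n)).e2031) + (-4 : ℤ) • ((z0 m (U σ n)).e2013) +
    (-16 : ℤ) • ((z0 (U σ m) n).e2301) + (-16 : ℤ) • ((z0 (U σ m) n).e2031) +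
    (-16 : ℤ) • ((z0 (U σ m) n).e2013) + (-6 : ℤ) • ((z0 (U σ m) n).e3201) +
    (-4 : ℤ) • ((z0 (U σ m) n).e3021) + (-2 : ℤ) • ((z0 (U σ m) n).e3012) +
    (-8 : ℤ) • ((z0 m (U σ n)).e3201) + (-8 : ℤ) • ((z0 m (U σ n)).e3021) +
    (-8 : ℤ) • ((z0 m (U σ n)).e3012) + (-4 : ℤ) • ((z0 m (U σ n)).e0231) +
    (-2 : ℤ) • ((z0 m (U σ n)).e0213) + (-6 : ℤ) • ((z0 (U σ m) n).e0231) +
    (-6 : ℤ) • ((z0 (U σ m) n).e0213) + (-4 : ℤ) • ((z0 (U σ m) n).e0321) +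
    (-2 : ℤ) • ((z0 (U σ m) n).e0312) + (-6 : ℤ) • ((z0 m (U σ n)).e0321) +
    (-6 : ℤ) • ((z0 m (U σ n)).e0312) + (-2 : ℤ) • (ha.same ht y m (U σ n)) +
    (-4 : ℤ) • (ha.same ht y (U σ m) n) + (-2 : ℤ) • (ha.same ht y n (U σ m)) +
    (-4 : ℤ) • (ha.same ht y (U σ n) m)

theorem b1_1f (y m n : M) (z0 : ∀ m n, Z f y y m n)
    (s : Sh f (U σ y) y (U σ y) y m n) :
    f (U σ y) n m y = 0 := by
  apply ht.cancel 20 2 45 (by norm_num)
  linear_combination (norm := module)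
    (12 : ℤ) • (s.e0132) + (10 : ℤ) • (s.e2013) + (20 : ℤ) • (s.e3012) + (10 : ℤ) • (s.e3021) +
    (-28 : ℤ) • (ha.D y m (U σ y) n) + (6 : ℤ) • (ha.D m n y (U σ y)) +
    (-30 : ℤ) • (ha.D y m n (U σ y)) + (-8 : ℤ) • (ha.D n m (U σ y) y) +
    (28 : ℤ) • (ha.A m n (U σ y) y) + (-10 : ℤ) • (ha.J m n (U σ y) y) +
    (8 : ℤ) • (ha.A m (U σ y) y n) + (36 : ℤ) • (ha.A n (U σ y) y m) + (4 : ℤ) • (ha.J n (U σ y) y m) +
    (2 : ℤ) • (ha.A m y (U σ y) n) + (18 : ℤ) • (ha.A m (U σ y) n y) + (4 : ℤ) • (ha.A m y n (U σ y)) +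
    (2 : ℤ) • (ha.J m y n (U σ y)) + (-2 : ℤ) • (ha.R3 ht y m n y) + (-3 : ℤ) • (ha.R3 ht m n y y) +
    (-5 : ℤ) • (ha.R3 ht n m y y) + (18 : ℤ) • ((z0 m (U σ n)).e2301) +
    (12 : ℤ) • ((z0 m (U σ n)).e2031) + (6 : ℤ) • ((z0 m (U σ n)).e2013) +
    (24 : ℤ) • ((z0 (U σ m) n).e2301) + (24 : ℤ) • ((z0 (U σ m) n).e2031) +
    (24 : ℤ) • ((z0 (U σ m) n).e2013) + (30 : ℤ) • ((z0 (U σ m) n).e3201) +
    (20 : ℤ) • ((z0 (U σ m) n).e3021) + (10 : ℤ) • ((z0 (U σ m) n).e3012) +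
    (40 : ℤ) • ((z0 m (U σ n)).e3201) + (40 : ℤ) • ((z0 m (U σ n)).e3021) +
    (40 : ℤ) • ((z0 m (U σ n)).e3012) + (4 : ℤ) • ((z0 m (U σ n)).e0231) +
    (2 : ℤ) • ((z0 m (U σ n)).e0213) + (6 : ℤ) • ((z0 (U σ m) n).e0231) +
    (6 : ℤ) • ((z0 (U σ m) n).e0213) + (4 : ℤ) • ((z0 (U σ m) n).e0321) +
    (2 : ℤ) • ((z0 (U σ m) n).e0312) + (6 : ℤ) • ((z0 m (U σ n)).e0321) +
    (6 : ℤ) • ((z0 m (U σ n)).e0312) + (2 : ℤ) • (ha.same ht y m (U σ n)) +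
    (4 : ℤ) • (ha.same ht y (U σ m) n) + (2 : ℤ) • (ha.same ht y n (U σ m)) +
    (4 : ℤ) • (ha.same ht y (U σ n) m)

theorem b1_2a (y m n : M) (z0 : ∀ m n, Z f y y m n)
    (z1 : ∀ m n, Z f (U σ y) y m n)
    (s : Sh f (U σ (U σ y)) (U σ y) (U σ y) y m n) :
    f (U σ (U σ y)) y m n = 0 := by
  apply ht.cancel 1 0 1 (by norm_num)
  linear_combination (norm := module)
    (1 : ℤ) • (s.e0123) + (-1 : ℤ) • (ha.same ht (U σ y) m n)

theorem b1_2b (y m n : M) (z0 : ∀ m n, Z f y y m n)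
    (z1 : ∀ m n, Z f (U σ y) y m n)
    (s : Sh f (U σ (U σ y)) (U σ y) (U σ y) y m n) :
    f (U σ (U σ y)) y n m = 0 := by
  apply ht.cancel 1 0 1 (by norm_num)
  linear_combination (norm := module)
    (1 : ℤ) • (s.e0132) + (-1 : ℤ) • (ha.same ht (U σ y) n m)

theorem b1_2c (y m n : M) (z0 : ∀ m n, Z f y y m n)
    (z1 : ∀ m n, Z f (U σ y) y m n)
    (s : Sh f (U σ (U σ y)) (U σ y) (U σ y) y m n) :
    f (U σ (U σ y)) m y n = 0 := by
  apply ht.cancel 2 1 15 (by norm_num)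
  linear_combination (norm := module)
    (-2 : ℤ) • (s.e1023) + (6 : ℤ) • (s.e2013) + (2 : ℤ) • (ha.J m y (U σ (U σ y)) n) +
    (-1 : ℤ) • (ha.R2 ht m y y n) + (8 : ℤ) • ((z1 (U σ m) n).e2103) +
    (16 : ℤ) • ((z1 (U σ m) n).e2013) + (12 : ℤ) • ((z0 (U σ (U σ m)) n).e2013) +
    (2 : ℤ) • (ha.same ht (U σ y) m n)

theorem b1_2d (y m n : M) (z0 : ∀ m n, Z f y y m n)
    (z1 : ∀ m n, Z f (U σ y) y m n)
    (s : Sh f (U σ (U σ y)) (U σ y) (U σ y) y m n) :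
    f (U σ (U σ y)) m n y = 0 := by
  apply ht.cancel 15 1 2 (by norm_num)
  linear_combination (norm := module)
    (-3 : ℤ) • (ha.A m n (U σ (U σ y)) y) + (3 : ℤ) • (ha.J m n (U σ (U σ y)) y) +
    (-12 : ℤ) • (ha.A n (U σ (U σ y)) m y) + (2 : ℤ) • (ha.R2 ht y m n y) +
    (3 : ℤ) • (ha.R2 ht n m y y) + (-9 : ℤ) • ((z1 (U σ m) n).e3201) +
    (-9 : ℤ) • ((z0 (U σ (U σ m)) n).e3201) + (-3 : ℤ) • ((z0 (U σ (U σ m)) n).e3021) +
    (-9 : ℤ) • ((z1 (U σ m) n).e3021) + (-12 : ℤ) • ((z1 m (U σ n)).e3201) +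
    (-24 : ℤ) • ((z0 (U σ m) (U σ n)).e3201) + (-12 : ℤ) • ((z0 (U σ m) (U σ n)).e3021) +
    (-24 : ℤ) • ((z1 m (U σ n)).e3021) + (-18 : ℤ) • ((z0 m (U σ (U σ n))).e3201) +
    (-18 : ℤ) • ((z0 m (U σ (U σ n))).e3021) + (-2 : ℤ) • ((z0 m (U σ (U σ n))).e0231) +
    (-6 : ℤ) • ((z0 (U σ m) (U σ n)).e0231) + (-6 : ℤ) • ((z0 (U σ (U σ m)) n).e0231) +
    (-2 : ℤ) • ((z0 (U σ (U σ m)) n).e0321) + (-6 : ℤ) • ((z0 (U σ m) (U σ n)).e0321) +
    (-6 : ℤ) • ((z0 m (U σ (U σ n))).e0321) + (-8 : ℤ) • ((z1 m (U σ n)).e0231) +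
    (-16 : ℤ) • ((z1 (U σ m) n).e0231) + (-8 : ℤ) • ((z1 (U σ m) n).e0321) +
    (-16 : ℤ) • ((z1 m (U σ n)).e0321)

theorem b1_2e (y m n : M) (z0 : ∀ m n, Z f y y m n)
    (z1 : ∀ m n, Z f (U σ y) y m n)
    (s : Sh f (U σ (U σ y)) (U σ y) (U σ y) y m n) :
    f (U σ (U σ y)) n y m = 0 := by
  apply ht.cancel 3 1 10 (by norm_num)
  linear_combination (norm := module)
    (-3 : ℤ) • (s.e0132) + (-3 : ℤ) • (s.e0312) + (-1 : ℤ) • (s.e1302) +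
    (-3 : ℤ) • (ha.A y (U σ (U σ y)) n m) + (1 : ℤ) • (ha.R2 ht y n y m) +
    (-3 : ℤ) • ((z1 m (U σ n)).e1302) + (-3 : ℤ) • ((z0 m (U σ (U σ n))).e0312) +
    (-1 : ℤ) • (ha.same ht y (U σ (U σ n)) m) + (-3 : ℤ) • ((z1 m (U σ n)).e1032) +
    (-8 : ℤ) • ((z1 m (U σ n)).e0312) + (-4 : ℤ) • ((z1 m (U σ n)).e0132) +
    (-5 : ℤ) • (ha.same ht (U σ y) n m)

theorem b1_2f (y m n : M) (z0 : ∀ m n, Z f y y m n)
    (z1 : ∀ m n, Z f (U σ y) y m n)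
    (s : Sh f (U σ (U σ y)) (U σ y) (U σ y) y m n) :
    f (U σ (U σ y)) n m y = 0 := by
  apply ht.cancel 15 1 2 (by norm_num)
  linear_combination (norm := module)
    (-12 : ℤ) • (ha.A m (U σ (U σ y)) n y) + (3 : ℤ) • (ha.J m (U σ (U σ y)) n y) +
    (-3 : ℤ) • (ha.A m n (U σ (U σ y)) y) + (2 : ℤ) • (ha.R2 ht y m n y) +
    (3 : ℤ) • (ha.R2 ht m n y y) + (-9 : ℤ) • ((z1 m (U σ n)).e2301) +
    (-9 : ℤ) • ((z0 m (U σ (U σ n))).e2301) + (-3 : ℤ) • ((z0 m (U σ (U σ n))).e2031) +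
    (-9 : ℤ) • ((z1 m (U σ n)).e2031) + (-12 : ℤ) • ((z1 (U σ m) n).e2301) +
    (-24 : ℤ) • ((z0 (U σ m) (U σ n)).e2301) + (-12 : ℤ) • ((z0 (U σ m) (U σ n)).e2031) +
    (-24 : ℤ) • ((z1 (U σ m) n).e2031) + (-18 : ℤ) • ((z0 (U σ (U σ m)) n).e2301) +
    (-18 : ℤ) • ((z0 (U σ (U σ m)) n).e2031) + (-2 : ℤ) • ((z0 m (U σ (U σ n))).e0231) +
    (-6 : ℤ) • ((z0 (U σ m) (U σ n)).e0231) + (-6 : ℤ) • ((z0 (U σ (U σ m)) n).e0231) +
    (-2 : ℤ) • ((z0 (U σ (U σ m)) n).e0321) + (-6 : ℤ) • ((z0 (U σ m) (U σ n)).e0321) +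
    (-6 : ℤ) • ((z0 m (U σ (U σ n))).e0321) + (-8 : ℤ) • ((z1 m (U σ n)).e0231) +
    (-16 : ℤ) • ((z1 (U σ m) n).e0231) + (-8 : ℤ) • ((z1 (U σ m) n).e0321) +
    (-16 : ℤ) • ((z1 m (U σ n)).e0321)

theorem b1_3a (y m n : M) (z0 : ∀ m n, Z f y y m n)
    (z1 : ∀ m n, Z f (U σ y) y m n)
    (z2 : ∀ m n, Z f (U σ (U σ y)) y m n)
    (z11 : ∀ m n, Z f (U σ y) (U σ y) m n)
    (s : Sh f (U σ (U σ (U σ y))) (U σ (U σ y)) (U σ y) y m n)
    (t : Sh f (U σ (U σ y)) (U σ y) (U σ (U σ y)) (U σ y) m n) :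
    f (U σ (U σ (U σ y))) y m n = 0 := by
  apply ht.cancel 1 0 1 (by norm_num)
  linear_combination (norm := module)
    (-2 : ℤ) • (s.e0123) + (-4 : ℤ) • (t.e0123) + (-1 : ℤ) • (ha.A y (U σ (U σ (U σ y))) m n) +
    (1 : ℤ) • (ha.R1 ht y y m n)

theorem b1_3b (y m n : M) (z0 : ∀ m n, Z f y y m n)
    (z1 : ∀ m n, Z f (U σ y) y m n)
    (z2 : ∀ m n, Z f (U σ (U σ y)) y m n)
    (z11 : ∀ m n, Z f (U σ y) (U σ y) m n)
    (s : Sh f (U σ (U σ (U σ y))) (U σ (U σ y)) (U σ y) y m n)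
    (t : Sh f (U σ (U σ y)) (U σ y) (U σ (U σ y)) (U σ y) m n) :
    f (U σ (U σ (U σ y))) y n m = 0 := by
  apply ht.cancel 1 0 1 (by norm_num)
  linear_combination (norm := module)
    (-1 : ℤ) • (s.e0312) + (-1 : ℤ) • (s.e1302) + (1 : ℤ) • (t.e0312) +
    (1 : ℤ) • (ha.A n (U σ (U σ (U σ y))) y m) + (1 : ℤ) • (ha.J n (U σ (U σ (U σ y))) y m) +
    (-2 : ℤ) • (ha.R1 ht n y y m) + (8 : ℤ) • ((z2 m (U σ n)).e3012) +
    (12 : ℤ) • ((z1 m (U σ (U σ n))).e3012) + (8 : ℤ) • ((z0 m (U σ (U σ (U σ n)))).e3012)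

theorem b1_3c (y m n : M) (z0 : ∀ m n, Z f y y m n)
    (z1 : ∀ m n, Z f (U σ y) y m n)
    (z2 : ∀ m n, Z f (U σ (U σ y)) y m n)
    (z11 : ∀ m n, Z f (U σ y) (U σ y) m n)
    (s : Sh f (U σ (U σ (U σ y))) (U σ (U σ y)) (U σ y) y m n)
    (t : Sh f (U σ (U σ y)) (U σ y) (U σ (U σ y)) (U σ y) m n) :
    f (U σ (U σ (U σ y))) m y n = 0 := by
  apply ht.cancel 4 2 225 (by norm_num)
  linear_combination (norm := module)
    (1 : ℤ) • (ha.R1 ht y m y n) + (-1 : ℤ) • ((z0 (U σ (U σ (U σ m))) n).e0213) +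
    (-4 : ℤ) • ((z1 (U σ (U σ m)) n).e0213) + (-6 : ℤ) • ((z2 (U σ m) n).e0213)

theorem b1_3d (y m n : M) (z0 : ∀ m n, Z f y y m n)
    (z1 : ∀ m n, Z f (U σ y) y m n)
    (z2 : ∀ m n, Z f (U σ (U σ y)) y m n)
    (z11 : ∀ m n, Z f (U σ y) (U σ y) m n)
    (s : Sh f (U σ (U σ (U σ y))) (U σ (U σ y)) (U σ y) y m n)
    (t : Sh f (U σ (U σ y)) (U σ y) (U σ (U σ y)) (U σ y) m n) :
    f (U σ (U σ (U σ y))) m n y = 0 := by
  apply ht.cancel 4 2 225 (by norm_num)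
  linear_combination (norm := module)
    (1 : ℤ) • (ha.R1 ht y m n y) + (-1 : ℤ) • ((z0 (U σ (U σ (U σ m))) n).e0231) +
    (-4 : ℤ) • ((z1 (U σ (U σ m)) n).e0231) + (-6 : ℤ) • ((z2 (U σ m) n).e0231)

theorem b1_3e (y m n : M) (z0 : ∀ m n, Z f y y m n)
    (z1 : ∀ m n, Z f (U σ y) y m n)
    (z2 : ∀ m n, Z f (U σ (U σ y)) y m n)
    (z11 : ∀ m n, Z f (U σ y) (U σ y) m n)
    (s : Sh f (U σ (U σ (U σ y))) (U σ (U σ y)) (U σ y) y m n)
    (t : Sh f (U σ (U σ y)) (U σ y) (U σ (U σ y)) (U σ y) m n) :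
    f (U σ (U σ (U σ y))) n y m = 0 := by
  apply ht.cancel 4 2 225 (by norm_num)
  linear_combination (norm := module)
    (1 : ℤ) • (ha.R1 ht y n y m) + (-1 : ℤ) • ((z0 m (U σ (U σ (U σ n)))).e0312) +
    (-4 : ℤ) • ((z1 m (U σ (U σ n))).e0312) + (-6 : ℤ) • ((z2 m (U σ n)).e0312)

theorem b1_3f (y m n : M) (z0 : ∀ m n, Z f y y m n)
    (z1 : ∀ m n, Z f (U σ y) y m n)
    (z2 : ∀ m n, Z f (U σ (U σ y)) y m n)
    (z11 : ∀ m n, Z f (U σ y) (U σ y) m n)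
    (s : Sh f (U σ (U σ (U σ y))) (U σ (U σ y)) (U σ y) y m n)
    (t : Sh f (U σ (U σ y)) (U σ y) (U σ (U σ y)) (U σ y) m n) :
    f (U σ (U σ (U σ y))) n m y = 0 := by
  apply ht.cancel 4 2 225 (by norm_num)
  linear_combination (norm := module)
    (1 : ℤ) • (ha.R1 ht y n m y) + (-1 : ℤ) • ((z0 m (U σ (U σ (U σ n)))).e0321) +
    (-4 : ℤ) • ((z1 m (U σ (U σ n))).e0321) + (-6 : ℤ) • ((z2 m (U σ n)).e0321)

end Alg

end Pool.Agent.Work.MP_d7201b_al
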