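import Pool.Agent.Work.MP_d7201b_al.Tor.Alg4

/-!
# The three steps
-/

namespace Pool.Agent.Work.MP_d7201b_al

open Lin

set_option linter.unusedSimpArgs false

namespace Alg

variable {M V : Type*} [AddCommGroup M] [AddCommGroup V] {f : M →+ M →+ M →+ M →+ V}
  {σ : M →+ M} (ha : Alg f σ) (ht : NoTor V)


theorem comm_u (y : M) : σ (U σ y) = U σ (σ y) := by
  simp only [U_apply, T_apply, map_add, map_sub, map_zsmul]

theorem comm_it (k : ℕ) (y : M) : σ^[k] (U σ y) = U σ (σ^[k] y) := by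
  induction k generalizing y with
  | zero => rfl
  | succ k ih => rw [Function.iterate_succ_apply, comm_u, ih, Function.iterate_succ_apply]

include ha ht

theorem first (a b c d : M) (h0 : f a b c d = 0) (h1 : f (U σ a) b c d = 0)
    (h2 : f (U σ (U σ a)) b c d = 0) (h3 : f (U σ (U σ (U σ a))) b c d = 0) : f (σ a) b c d = 0 := by
  have h := exp1 σ ((((AddMonoidHom.eval d).comp ((AddMonoidHom.eval c).comp
      ((AddMonoidHom.eval b).comp f)))) : M →+ V) (fun x => ha.nil1 x b c d) 1 a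
  have e : ∀ x, ((((AddMonoidHom.eval d).comp ((AddMonoidHom.eval c).comp
      ((AddMonoidHom.eval b).comp f)))) : M →+ V) x = f x b c d := fun _ => rfl
  simp only [Finset.sum_range_succ, Finset.range_zero, Finset.sum_empty,
    Function.iterate_succ_apply', Function.iterate_zero_apply, e, h0, h1, h2, h3, smul_zero,
    add_zero] at h
  exact ht.cancel 1296 4 625 (by norm_num) h

theorem p3 (y : M) : f (σ y) y y y = 0 :=
  ha.first ht y y y y (ha.same ht y y y) (ha.b3_1 ht y) (ha.b3_2 ht y) (ha.b3_3 ht y)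

section

variable {X : Set M} (hX : ∀ y ∈ X, ∀ k : ℕ, σ^[k] y ∈ X)

include hX

theorem z0 (h : ∀ y ∈ X, ∀ m, f m y y y = 0) (y : M) (hy : y ∈ X) (m : M) : Z f m y y y :=
  ha.mkZ (h y hy m) (h y hy m) (h y hy m) (h y hy m) (h y hy m) (h y hy m)

theorem z1 (h : ∀ y ∈ X, ∀ m, f m y y y = 0) (y : M) (hy : y ∈ X) (m : M) :
    Z f (U σ y) y y m := by
  have hz := fun m => ha.z0 ht hX h y hy m
  have pol : f m (U σ y) y y + f m y (U σ y) y + f m y y (U σ y) = 0 := by
    have h1 := ha.shift ht m y y y 0 1 1 1 (fun k => by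
      simpa only [mul_one, mul_zero, Function.iterate_zero_apply] using h (σ^[k] y) (hX y hy k) m)
    simpa only [Nat.cast_one, one_smul, Nat.cast_zero, zero_smul, add_zero, zero_add] using h1
  exact ha.mkZ (ha.b2_1a ht y m hz pol) (ha.b2_1b ht y m hz pol) (ha.b2_1a ht y m hz pol)
    (ha.b2_1b ht y m hz pol) (ha.b2_1c ht y m hz pol) (ha.b2_1c ht y m hz pol)

theorem z2 (h : ∀ y ∈ X, ∀ m, f m y y y = 0) (y : M) (hy : y ∈ X) (m : M) :
    Z f (U σ (U σ y)) y y m ∧ Z f (U σ y) (U σ y) y m := by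
  have hz := fun m => ha.z0 ht hX h y hy m
  have hz1 := fun m => ha.z1 ht hX h y hy m
  have pol1 : f (U σ (U σ y)) y y m + f (U σ y) (U σ y) y m + f (U σ y) y (U σ y) m = 0 := by
    have h1 := ha.shift ht (U σ y) y y m 1 1 1 0 (fun k => by
      simpa only [mul_one, mul_zero, Function.iterate_zero_apply, comm_it] using
        (ha.z1 ht hX h (σ^[k] y) (hX y hy k) m).e0123)
    simpa only [Nat.cast_one, one_smul, Nat.cast_zero, zero_smul, add_zero, zero_add] using h1
  have pol2 : f (U σ (U σ y)) y m y + f (U σ y) (U σ y) m y + f (U σ y) y m (U σ y) = 0 := by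
    have h1 := ha.shift ht (U σ y) y m y 1 1 0 1 (fun k => by
      simpa only [mul_one, mul_zero, Function.iterate_zero_apply, comm_it] using
        (ha.z1 ht hX h (σ^[k] y) (hX y hy k) m).e0132)
    simpa only [Nat.cast_one, one_smul, Nat.cast_zero, zero_smul, add_zero, zero_add] using h1
  have pol3 : f (U σ (U σ y)) m y y + f (U σ y) m (U σ y) y + f (U σ y) m y (U σ y) = 0 := by
    have h1 := ha.shift ht (U σ y) m y y 1 0 1 1 (fun k => by
      simpa only [mul_one, mul_zero, Function.iterate_zero_apply, comm_it] using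
        (ha.z1 ht hX h (σ^[k] y) (hX y hy k) m).e0312)
    simpa only [Nat.cast_one, one_smul, Nat.cast_zero, zero_smul, add_zero, zero_add] using h1
  have ea := ha.b2_2a ht y m hz hz1 pol1 pol2 pol3
  have eb := ha.b2_2b ht y m hz hz1 pol1 pol2 pol3
  have ec := ha.b2_2c ht y m hz hz1 pol1 pol2 pol3
  have ed := ha.b2_2d ht y m hz hz1 pol1 pol2 pol3
  refine ⟨ha.mkZ ea eb ea eb ec ec, ?_⟩
  rw [ea, ha.same ht, zero_add, zero_add] at pol1
  rw [eb, ha.same ht, zero_add, zero_add] at pol2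
  rw [ec, ed, zero_add, zero_add] at pol3
  exact ha.mkZ (ha.same ht _ _ _) (ha.same ht _ _ _) pol1 pol2 ed pol3

theorem p2 (h : ∀ y ∈ X, ∀ m, f m y y y = 0) (y : M) (hy : y ∈ X) (m : M) :
    f (σ y) y y m = 0 ∧ f (σ y) y m y = 0 ∧ f (σ y) m y y = 0 := by
  have hz := fun m => ha.z0 ht hX h y hy m
  have hz1 := fun m => ha.z1 ht hX h y hy m
  have hz2 := fun m => (ha.z2 ht hX h y hy m).1
  have hz11 := fun m => (ha.z2 ht hX h y hy m).2
  have pol1 : f (U σ (U σ (U σ y))) y y m + f (U σ (U σ y)) (U σ y) y m + f (U σ (U σ y)) y (U σ y) m = 0 := by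
    have h1 := ha.shift ht (U σ (U σ y)) y y m 1 1 1 0 (fun k => by
      simpa only [mul_one, mul_zero, Function.iterate_zero_apply, comm_it] using
        (ha.z2 ht hX h (σ^[k] y) (hX y hy k) m).1.e0123)
    simpa only [Nat.cast_one, one_smul, Nat.cast_zero, zero_smul, add_zero, zero_add] using h1
  have pol2 : f (U σ (U σ (U σ y))) y m y + f (U σ (U σ y)) (U σ y) m y + f (U σ (U σ y)) y m (U σ y) = 0 := by
    have h1 := ha.shift ht (U σ (U σ y)) y m y 1 1 0 1 (fun k => by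
      simpa only [mul_one, mul_zero, Function.iterate_zero_apply, comm_it] using
        (ha.z2 ht hX h (σ^[k] y) (hX y hy k) m).1.e0132)
    simpa only [Nat.cast_one, one_smul, Nat.cast_zero, zero_smul, add_zero, zero_add] using h1
  have pol3 : f (U σ (U σ (U σ y))) m y y + f (U σ (U σ y)) m (U σ y) y + f (U σ (U σ y)) m y (U σ y) = 0 := by
    have h1 := ha.shift ht (U σ (U σ y)) m y y 1 0 1 1 (fun k => by
      simpa only [mul_one, mul_zero, Function.iterate_zero_apply, comm_it] using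
        (ha.z2 ht hX h (σ^[k] y) (hX y hy k) m).1.e0312)
    simpa only [Nat.cast_one, one_smul, Nat.cast_zero, zero_smul, add_zero, zero_add] using h1
  have ea := ha.b2_3a ht y m hz hz1 hz2 hz11 pol1 pol2 pol3
  have eb := ha.b2_3b ht y m hz hz1 hz2 hz11 pol1 pol2 pol3
  have ec := ha.b2_3c ht y m hz hz1 hz2 hz11 pol1 pol2 pol3
  exact ⟨ha.first ht _ _ _ _ (ha.same ht _ _ _) (hz1 m).e0123 (hz2 m).e0123 ea,
    ha.first ht _ _ _ _ (ha.same ht _ _ _) (hz1 m).e0132 (hz2 m).e0132 eb,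
    ha.first ht _ _ _ _ (hz m).e1023 (hz1 m).e0312 (hz2 m).e0312 ec⟩

theorem w1 (h : ∀ y ∈ X, ∀ m n, Z f y y m n) (y : M) (hy : y ∈ X) (m n : M) :
    Z f (U σ y) y m n := by
  have s : Sh f (U σ y) y (U σ y) y m n := ha.mkSh ht fun k => h (σ^[k] y) (hX y hy k) m n
  have hz := h y hy
  exact ha.mkZ (ha.b1_1a ht y m n hz s) (ha.b1_1b ht y m n hz s) (ha.b1_1c ht y m n hz s)
    (ha.b1_1d ht y m n hz s) (ha.b1_1e ht y m n hz s) (ha.b1_1f ht y m n hz s)

theorem w2 (h : ∀ y ∈ X, ∀ m n, Z f y y m n) (y : M) (hy : y ∈ X) (m n : M) :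
    Z f (U σ (U σ y)) y m n ∧ Z f (U σ y) (U σ y) m n := by
  have hz := h y hy
  have hz1 := ha.w1 ht hX h y hy
  have s : Sh f (U σ (U σ y)) (U σ y) (U σ y) y m n := ha.mkSh ht fun k => by
    simpa only [comm_it] using ha.w1 ht hX h (σ^[k] y) (hX y hy k) m n
  have z : Z f (U σ (U σ y)) y m n :=
    ha.mkZ (ha.b1_2a ht y m n hz hz1 s) (ha.b1_2b ht y m n hz hz1 s)
      (ha.b1_2c ht y m n hz hz1 s) (ha.b1_2d ht y m n hz hz1 s) (ha.b1_2e ht y m n hz hz1 s)
      (ha.b1_2f ht y m n hz hz1 s)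
  have e0123 := s.e0123
  have e0132 := s.e0132
  have e0213 := s.e0213
  have e0231 := s.e0231
  have e0312 := s.e0312
  have e0321 := s.e0321
  rw [z.e0123, zero_add] at e0123
  rw [z.e0132, zero_add] at e0132
  rw [z.e0213, zero_add] at e0213
  rw [z.e0231, zero_add] at e0231
  rw [z.e0312, zero_add] at e0312
  rw [z.e0321, zero_add] at e0321
  exact ⟨z, ha.mkZ e0123 e0132 e0213 e0231 e0312 e0321⟩

theorem p1 (h : ∀ y ∈ X, ∀ m n, Z f y y m n) (y : M) (hy : y ∈ X) (m n : M) :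
    f (σ y) y m n = 0 := by
  have hz := h y hy
  have hz1 := ha.w1 ht hX h y hy
  have hz2 := fun m n => (ha.w2 ht hX h y hy m n).1
  have hz11 := fun m n => (ha.w2 ht hX h y hy m n).2
  have s : Sh f (U σ (U σ (U σ y))) (U σ (U σ y)) (U σ y) y m n := ha.mkSh ht fun k => by
    simpa only [comm_it] using (ha.w2 ht hX h (σ^[k] y) (hX y hy k) m n).1
  have t : Sh f (U σ (U σ y)) (U σ y) (U σ (U σ y)) (U σ y) m n := ha.mkSh ht fun k => by
    simpa only [comm_it] using (ha.w2 ht hX h (σ^[k] y) (hX y hy k) m n).2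
  exact ha.first ht _ _ _ _ (ha.same ht _ _ _) (hz1 m n).e0123 (hz2 m n).e0123
    (ha.b1_3a ht y m n hz hz1 hz2 hz11 s t)

end

end Alg

end Pool.Agent.Work.MP_d7201b_al
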