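import Pool.Agent.Work.MP_d7201b_al.Tor.Base

/-!
# The relations between the values `[xʰ⁰, xʰ¹, xʰ², xʰ³]`
-/

namespace Pool.Agent.Work.MP_d7201b_al

set_option linter.unusedSectionVars false

/-- Hall-Witt identity. -/
theorem hall_witt {G : Type*} [Group G] (x y z : G) :
    (y⁻¹ * comm (comm x y⁻¹) z * y) * (z⁻¹ * comm (comm y z⁻¹) x * z) *
      (x⁻¹ * comm (comm z x⁻¹) y * x) = 1 := by
  unfold comm; group

namespace Sys

variable {A : Type*} [Group A] {F : Filt A} {V : Type*} [AddCommGroup V] (T : Sys F V)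

theorem comm_comm_inv {i j k : ℕ} (hi : 1 ≤ i) (hj : 1 ≤ j) (hk : 1 ≤ k) {x y z : A}
    (hx : x ∈ F.S i) (hy : y ∈ F.S j) (hz : z ∈ F.S k) :
    T.θ (i + j + k) (MP_d7201b_al.comm (MP_d7201b_al.comm x y⁻¹) z) =
      - T.θ (i + j + k) (MP_d7201b_al.comm (MP_d7201b_al.comm x y) z) := by
  have hxy : MP_d7201b_al.comm x y ∈ F.S (i + j) := F.comm hx hy
  have hxy' : MP_d7201b_al.comm x y⁻¹ ∈ F.S (i + j) := F.comm hx (inv_mem hy)
  have h1 : MP_d7201b_al.comm (MP_d7201b_al.comm x y) y⁻¹ ∈ F.S (i + j + j) :=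
    F.comm hxy (inv_mem hy)
  have h1' : MP_d7201b_al.comm (MP_d7201b_al.comm x y) y⁻¹ ∈ F.S (i + j + 1) :=
    F.anti (by omega) h1
  have h1'' : MP_d7201b_al.comm (MP_d7201b_al.comm x y) y⁻¹ ∈ F.S (i + j) :=
    F.anti (by omega) h1
  have e : MP_d7201b_al.comm x y⁻¹ *
      (MP_d7201b_al.comm x y * MP_d7201b_al.comm (MP_d7201b_al.comm x y) y⁻¹) = 1 := by
    unfold MP_d7201b_al.comm; group
  have h2 : MP_d7201b_al.comm (MP_d7201b_al.comm (MP_d7201b_al.comm x y) y⁻¹) z ∈
      F.S (i + j + 1 + k) := F.comm h1' hz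
  have h2' : MP_d7201b_al.comm (MP_d7201b_al.comm (MP_d7201b_al.comm x y) y⁻¹) z ∈
      F.S (i + j + k + 1) := F.anti (by omega) h2
  have e2 := congrArg (fun u => T.θ (i + j + k) (MP_d7201b_al.comm u z)) e
  beta_reduce at e2
  rw [T.comm_add_left (by omega) hk hxy' (mul_mem hxy h1'') hz,
    T.comm_add_left (by omega) hk hxy h1'' hz, T.zero (by omega) h2', add_zero] at e2
  have e3 : MP_d7201b_al.comm (1 : A) z = 1 := by unfold MP_d7201b_al.comm; group
  rw [e3, T.one (by omega)] at e2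
  exact eq_neg_of_add_eq_zero_left e2

/-- The Jacobi identity. -/
theorem jacobi {i j k : ℕ} (hi : 1 ≤ i) (hj : 1 ≤ j) (hk : 1 ≤ k) {x y z : A}
    (hx : x ∈ F.S i) (hy : y ∈ F.S j) (hz : z ∈ F.S k) :
    T.θ (i + j + k) (MP_d7201b_al.comm (MP_d7201b_al.comm x y) z) +
      T.θ (i + j + k) (MP_d7201b_al.comm (MP_d7201b_al.comm y z) x) +
      T.θ (i + j + k) (MP_d7201b_al.comm (MP_d7201b_al.comm z x) y) = 0 := by
  have hx1 := F.anti hi hx
  have hy1 := F.anti hj hy
  have hz1 := F.anti hk hz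
  have m1 : MP_d7201b_al.comm (MP_d7201b_al.comm x y⁻¹) z ∈ F.S (i + j + k) :=
    F.comm (F.comm hx (inv_mem hy)) hz
  have m2 : MP_d7201b_al.comm (MP_d7201b_al.comm y z⁻¹) x ∈ F.S (i + j + k) := by
    have := F.comm (F.comm hy (inv_mem hz)) hx
    rwa [show j + k + i = i + j + k by omega] at this
  have m3 : MP_d7201b_al.comm (MP_d7201b_al.comm z x⁻¹) y ∈ F.S (i + j + k) := by
    have := F.comm (F.comm hz (inv_mem hx)) hy
    rwa [show k + i + j = i + j + k by omega] at this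
  have h := congrArg (T.θ (i + j + k)) (hall_witt x y z)
  rw [T.mul (by omega) (mul_mem (F.conj m1 (F.mem_zero hy)) (F.conj m2 (F.mem_zero hz)))
      (F.conj m3 (F.mem_zero hx)),
    T.mul (by omega) (F.conj m1 (F.mem_zero hy)) (F.conj m2 (F.mem_zero hz)),
    T.conj (by omega) m1 hy1, T.conj (by omega) m2 hz1, T.conj (by omega) m3 hx1,
    T.one (by omega), T.comm_comm_inv hi hj hk hx hy hz] at h
  have h2 := T.comm_comm_inv hj hk hi hy hz hx
  have h3 := T.comm_comm_inv hk hi hj hz hx hy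
  rw [show j + k + i = i + j + k by omega] at h2
  rw [show k + i + j = i + j + k by omega] at h3
  rw [h2, h3] at h
  rw [← neg_eq_zero, ← h]
  abel

end Sys

/-- The relations satisfied by the values `F h₀ h₁ h₂ h₃ = [xʰ⁰, xʰ¹, xʰ², xʰ³]`. -/
structure Rels {G : Type*} [Group G] {V : Type*} [AddCommGroup V] (F : G → G → G → G → V) :
    Prop where
  A : ∀ a b c d, F a b c d + F b a c d = 0
  J : ∀ a b c d, F a b c d + F b c a d + F c a b d = 0
  D : ∀ a b c d, F a b c d - F a b d c + F c d a b - F c d b a = 0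
  E0 : ∀ g a b c d, ∑ j ∈ Finset.range 5, Expand.w j • F (a * g ^ j) b c d = 0
  E1 : ∀ g a b c d, ∑ j ∈ Finset.range 5, Expand.w j • ∑ i ∈ Finset.range j,
    F (a * g ^ j) (b * g ^ i) c d = 0
  E2 : ∀ g a b c d, ∑ j ∈ Finset.range 5, Expand.w j • ∑ i1 ∈ Finset.range j,
    ∑ i2 ∈ Finset.range j,
      (if i2 ≤ i1 then F (a * g ^ j) (b * g ^ i1) (c * g ^ i2) d
        else F (a * g ^ j) (c * g ^ i2) (b * g ^ i1) d) = 0
  E3 : ∀ g a b c d, ∑ j ∈ Finset.range 5, Expand.w j • ∑ i1 ∈ Finset.range j,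
    ∑ i2 ∈ Finset.range j, ∑ i3 ∈ Finset.range j,
      (if i2 ≤ i1 ∧ i3 ≤ i2 then F (a * g ^ j) (b * g ^ i1) (c * g ^ i2) (d * g ^ i3)
        else if i2 < i3 ∧ i3 ≤ i1 then F (a * g ^ j) (b * g ^ i1) (d * g ^ i3) (c * g ^ i2)
        else if i1 < i2 ∧ i3 ≤ i1 then F (a * g ^ j) (c * g ^ i2) (b * g ^ i1) (d * g ^ i3)
        else if i1 < i3 ∧ i3 ≤ i2 then F (a * g ^ j) (c * g ^ i2) (d * g ^ i3) (b * g ^ i1)
        else if i1 < i3 ∧ i2 ≤ i1 then F (a * g ^ j) (d * g ^ i3) (b * g ^ i1) (c * g ^ i2)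
        else F (a * g ^ j) (d * g ^ i3) (c * g ^ i2) (b * g ^ i1)) = 0

section

variable {G : Type*} [Group G] {N : Subgroup G} [hN : N.Normal] {c : ℕ}
  (hc : N.lowerCentralSeries (c + 1) = ⊥)

/-- The conjugate `xʰ`. -/
def cj (x h : G) : G := h⁻¹ * x * h

theorem cj_mul (x h g : G) : cj x (h * g) = g⁻¹ * cj x h * g := by
  unfold cj; group

theorem cj_pow (x h g : G) (j : ℕ) : cj x (h * g ^ (j + 1)) = g⁻¹ * cj x (h * g ^ j) * g := by
  rw [← cj_mul, pow_succ, mul_assoc]

theorem engel_conj (x g h : G) (k : ℕ) : engel (cj x h) g k = cj (engel x (h * g * h⁻¹) k) h := by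
  induction k with
  | zero => rfl
  | succ k ih =>
    show comm _ _ = _
    rw [ih]
    show comm _ _ = cj (comm _ _) h
    unfold cj
    rw [comm_conj]
    congr 1
    group

theorem engel_cj {x : G} (hx : IsRightEngel 4 x) (h g : G) : engel (cj x h) g 4 = 1 := by
  rw [engel_conj, hx]
  unfold cj; group

theorem cj_mem {x : G} (hx : x ∈ N) (h : G) : cj x h ∈ N := by
  have := hN.conj_mem x hx h⁻¹
  rwa [inv_inv] at this

/-- The values `[xʰ⁰, xʰ¹, xʰ², xʰ³]`. -/
noncomputable def val4 (x : G) (a b c' d : G) : List G → Last N c hc :=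
  brN hc (cj x d) (brN hc (cj x c') (brN hc (cj x b) ((baseSys hc).θ 1 (cj x a))))

variable {x : G} (hx : x ∈ N)

include hx

theorem br_eq {k : ℕ} {u : G} (hk : 1 ≤ k) (hu : u ∈ (lcsFilt N).S k) {n : G} (hn : n ∈ N) :
    brN hc n ((baseSys hc).θ k u) = (baseSys hc).θ (k + 1) (comm u n) :=
  ((isBr hc hn).2 hk hu).symm

theorem val4_eq (a b c' d : G) :
    val4 hc x a b c' d =
      (baseSys hc).θ 4 (comm (comm (comm (cj x a) (cj x b)) (cj x c')) (cj x d)) := by
  have ha : cj x a ∈ (lcsFilt N).S 1 := cj_mem hx a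
  have hb : cj x b ∈ (lcsFilt N).S 1 := cj_mem hx b
  have hc' : cj x c' ∈ (lcsFilt N).S 1 := cj_mem hx c'
  have h2 : comm (cj x a) (cj x b) ∈ (lcsFilt N).S 2 := (lcsFilt N).comm ha hb
  have h3 : comm (comm (cj x a) (cj x b)) (cj x c') ∈ (lcsFilt N).S 3 := (lcsFilt N).comm h2 hc'
  unfold val4
  rw [br_eq hc hx le_rfl ha (cj_mem hx b), br_eq hc hx (by omega) h2 (cj_mem hx c'),
    br_eq hc hx (by omega) h3 (cj_mem hx d)]

/-- The relations hold. -/
theorem rels_val4 (he : IsRightEngel 4 x) : Rels (val4 hc x) := by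
  set T := baseSys hc with hT
  have hm : ∀ a, cj x a ∈ (lcsFilt N).S 1 := fun a => cj_mem hx a
  have hm2 : ∀ a b, comm (cj x a) (cj x b) ∈ (lcsFilt N).S 2 := fun a b =>
    (lcsFilt N).comm (hm a) (hm b)
  have hW : ∀ (g a : G) (j : ℕ), opG hc g (T.θ 1 (cj x (a * g ^ j))) =
      T.θ 1 (cj x (a * g ^ (j + 1))) := by
    intro g a j
    rw [cj_pow, (isOp hc g).2 le_rfl (hm _)]
  have hF : ∀ (g n : G) (i : ℕ) (v : List G → Last N c hc),
      opG hc g (brN hc (cj x (n * g ^ i)) v) = brN hc (cj x (n * g ^ (i + 1))) (opG hc g v) := by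
    intro g n i v
    rw [opG_brN, cj_pow]
  have hA : ∀ a b c' d, val4 hc x a b c' d + val4 hc x b a c' d = 0 := by
    intro a b c' d
    unfold val4
    rw [← map_add, ← map_add, br_eq hc hx le_rfl (hm a) (cj_mem hx b),
      br_eq hc hx le_rfl (hm b) (cj_mem hx a)]
    have e : comm (cj x b) (cj x a) = (comm (cj x a) (cj x b))⁻¹ := by unfold comm; group
    rw [e, Sys.inv _ (by omega) (hm2 a b)]
    simp
  have hJ : ∀ a b c' d, val4 hc x a b c' d + val4 hc x b c' a d + val4 hc x c' a b d = 0 := by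
    intro a b c' d
    unfold val4
    rw [← map_add, ← map_add, br_eq hc hx le_rfl (hm a) (cj_mem hx b),
      br_eq hc hx le_rfl (hm b) (cj_mem hx c'), br_eq hc hx le_rfl (hm c') (cj_mem hx a),
      br_eq hc hx (by omega) (hm2 a b) (cj_mem hx c'),
      br_eq hc hx (by omega) (hm2 b c') (cj_mem hx a),
      br_eq hc hx (by omega) (hm2 c' a) (cj_mem hx b),
      T.jacobi (i := 1) (j := 1) (k := 1) le_rfl le_rfl le_rfl (hm a) (hm b) (hm c'), map_zero]
  refine ⟨hA, hJ, ?_, ?_, ?_, ?_, ?_⟩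
  · -- D
    have key : ∀ a b c' d, val4 hc x a b c' d - val4 hc x a b d c' +
        T.θ 4 (comm (comm (cj x c') (cj x d)) (comm (cj x a) (cj x b))) = 0 := by
      intro a b c' d
      have h := T.jacobi (i := 2) (j := 1) (k := 1) (by omega) le_rfl le_rfl (hm2 a b) (hm c')
        (hm d)
      have e : comm (cj x d) (comm (cj x a) (cj x b)) =
          (comm (comm (cj x a) (cj x b)) (cj x d))⁻¹ := by unfold comm; group
      have h3 : comm (comm (cj x a) (cj x b)) (cj x d) ∈ (lcsFilt N).S 3 :=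
        (lcsFilt N).comm (hm2 a b) (hm d)
      have e2 : T.θ 4 (comm (comm (cj x d) (comm (cj x a) (cj x b))) (cj x c')) =
          - T.θ 4 (comm (comm (comm (cj x a) (cj x b)) (cj x d)) (cj x c')) := by
        have h4 := T.comm_add_left (i := 3) (j := 1) (by omega) le_rfl (inv_mem h3) h3 (hm c')
        rw [inv_mul_cancel, ← e] at h4
        have e3 : comm (1 : G) (cj x c') = 1 := by unfold comm; group
        rw [e3, T.one (by omega)] at h4
        exact eq_neg_of_add_eq_zero_left h4.symm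
      rw [val4_eq hc hx, val4_eq hc hx]
      rw [e2] at h
      rw [← h]
      abel
    intro a b c' d
    have h1 := key a b c' d
    have h2 := key c' d a b
    have e : comm (comm (cj x a) (cj x b)) (comm (cj x c') (cj x d)) =
        (comm (comm (cj x c') (cj x d)) (comm (cj x a) (cj x b)))⁻¹ := by unfold comm; group
    have hm4 : comm (comm (cj x c') (cj x d)) (comm (cj x a) (cj x b)) ∈ (lcsFilt N).S 4 :=
      (lcsFilt N).comm (hm2 c' d) (hm2 a b)
    rw [e, Sys.inv _ (by omega) hm4] at h2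
    have h3 := congrArg₂ (· + ·) h1 h2
    simp only [add_zero] at h3
    rw [← h3]
    abel
  · -- E0
    intro g a b c' d
    have h := Sys.engel_rel (isOp hc g) (hm a) (engel_cj he a g)
    have h0 : T.θ 1 (cj x a) = T.θ 1 (cj x (a * g ^ 0)) := by simp
    rw [← hT, h0] at h
    simp only [hW, Nat.reduceAdd, zero_add] at h
    have h2 := congrArg (fun v => brN hc (cj x d) (brN hc (cj x c') (brN hc (cj x b) v))) h
    simp only [map_add, map_sub, map_nsmul, map_zero] at h2
    simp only [Finset.sum_range_succ, Finset.range_zero, Finset.sum_empty, Expand.w, zero_add]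
    refine Eq.trans ?_ h2
    unfold val4
    abel
  · -- E1
    intro g a b c' d
    have hop := (isOp hc g).prod (isBr hc (cj_mem hx b))
    have hE : engel (cj x a, cj x a) (g, g * cj x b) 4 = 1 := by
      rw [Sys.engel_pair, engel_cj he, engel_cj he]; rfl
    have h := Sys.engel_rel hop ((lcsFilt N).diag_mem (hm a)) hE
    rw [Sys.prod_diag _ le_rfl] at h
    have h0 : T.θ 1 (cj x a) = T.θ 1 (cj x (a * g ^ 0)) := by simp
    have hb0 : brN hc (cj x b) = brN hc (cj x (b * g ^ 0)) := by simp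
    rw [← hT, h0, hb0] at h
    have h2 := Expand.e1 (opG hc g) (fun i => brN hc (cj x (b * g ^ i)))
      (fun j => T.θ 1 (cj x (a * g ^ j))) (fun i v => hF g b i v) (fun j => hW g a j) h
    have h3 := congrArg (fun v => brN hc (cj x d) (brN hc (cj x c') v)) h2
    simp only [map_sum, map_zsmul, map_zero] at h3
    exact h3
  · -- E2
    intro g a b c' d
    have hop := ((isOp hc g).prod (isBr hc (cj_mem hx b))).prod (isBr hc (cj_mem hx c')).prod
    have hE : engel ((cj x a, cj x a), (cj x a, cj x a))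
        ((g, g * cj x b), (g, g * cj x b) * (cj x c', cj x c')) 4 = 1 := by
      simp only [Prod.mk_mul_mk, Sys.engel_pair, engel_cj he]; rfl
    have h := Sys.engel_rel hop ((lcsFilt N).prod.diag_mem ((lcsFilt N).diag_mem (hm a))) hE
    rw [Sys.prod_diag _ le_rfl, Sys.prod_diag _ le_rfl] at h
    have h0 : T.θ 1 (cj x a) = T.θ 1 (cj x (a * g ^ 0)) := by simp
    have hb0 : brN hc (cj x b) = brN hc (cj x (b * g ^ 0)) := by simp
    have hc0 : brN hc (cj x c') = brN hc (cj x (c' * g ^ 0)) := by simp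
    rw [← hT, h0, hb0, hc0] at h
    have h2 := Expand.e2 (opG hc g) (fun i => brN hc (cj x (b * g ^ i)))
      (fun i => brN hc (cj x (c' * g ^ i)))
      (fun j => T.θ 1 (cj x (a * g ^ j))) (fun i v => hF g b i v) (fun i v => hF g c' i v)
      (fun j => hW g a j) h
    have h3 := congrArg (fun v => brN hc (cj x d) v) h2
    simp only [map_sum, map_zsmul, map_zero, Expand.srt2, apply_ite (brN hc (cj x d))] at h3
    exact h3
  · -- E3
    intro g a b c' d
    have hop := (((isOp hc g).prod (isBr hc (cj_mem hx b))).prod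
      (isBr hc (cj_mem hx c')).prod).prod (isBr hc (cj_mem hx d)).prod.prod
    have hE : engel (((cj x a, cj x a), (cj x a, cj x a)), ((cj x a, cj x a), (cj x a, cj x a)))
        (((g, g * cj x b), (g, g * cj x b) * (cj x c', cj x c')),
          ((g, g * cj x b), (g, g * cj x b) * (cj x c', cj x c')) *
            ((cj x d, cj x d), (cj x d, cj x d))) 4 = 1 := by
      simp only [Prod.mk_mul_mk, Sys.engel_pair, engel_cj he]; rfl
    have h := Sys.engel_rel hop ((lcsFilt N).prod.prod.diag_mem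
      ((lcsFilt N).prod.diag_mem ((lcsFilt N).diag_mem (hm a)))) hE
    rw [Sys.prod_diag _ le_rfl, Sys.prod_diag _ le_rfl, Sys.prod_diag _ le_rfl] at h
    have h0 : T.θ 1 (cj x a) = T.θ 1 (cj x (a * g ^ 0)) := by simp
    have hb0 : brN hc (cj x b) = brN hc (cj x (b * g ^ 0)) := by simp
    have hc0 : brN hc (cj x c') = brN hc (cj x (c' * g ^ 0)) := by simp
    have hd0 : brN hc (cj x d) = brN hc (cj x (d * g ^ 0)) := by simp
    rw [← hT, h0, hb0, hc0, hd0] at h
    exact Expand.e3 (opG hc g) (fun i => brN hc (cj x (b * g ^ i)))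
      (fun i => brN hc (cj x (c' * g ^ i))) (fun i => brN hc (cj x (d * g ^ i)))
      (fun j => T.θ 1 (cj x (a * g ^ j))) (fun i v => hF g b i v) (fun i v => hF g c' i v)
      (fun i v => hF g d i v) (fun j => hW g a j) h

end

end Pool.Agent.Work.MP_d7201b_al
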