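import Pool.Agent.Work.MP_d7201b_al.Tor.Alg5
import Pool.Agent.Work.MP_d7201b_al.Tor.Rel

/-!
# All values vanish
-/

namespace Pool.Agent.Work.MP_d7201b_al

open Lin

set_option linter.unusedSimpArgs false

namespace Alg

variable {G V : Type*} [Group G] [AddCommGroup V]

/-- The multiadditive extension of `F`. -/
noncomputable def lift4 (F : G → G → G → G → V) : FreeAbelianGroup G →+ FreeAbelianGroup G →+
    FreeAbelianGroup G →+ FreeAbelianGroup G →+ V :=
  FreeAbelianGroup.lift fun a => FreeAbelianGroup.lift fun b => FreeAbelianGroup.lift fun c =>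
    FreeAbelianGroup.lift fun d => F a b c d

theorem lift4_of (F : G → G → G → G → V) (a b c d : G) :
    lift4 F (FreeAbelianGroup.of a) (FreeAbelianGroup.of b) (FreeAbelianGroup.of c)
      (FreeAbelianGroup.of d) = F a b c d := by
  simp [lift4]

/-- Right multiplication by `g`. -/
noncomputable def rm (g : G) : FreeAbelianGroup G →+ FreeAbelianGroup G :=
  FreeAbelianGroup.map (· * g)

theorem rm_of (g a : G) : rm g (FreeAbelianGroup.of a) = FreeAbelianGroup.of (a * g) := by
  simp [rm]

theorem rm_it (g a : G) (k : ℕ) :
    (rm g)^[k] (FreeAbelianGroup.of a) = FreeAbelianGroup.of (a * g ^ k) := by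
  induction k with
  | zero => simp
  | succ k ih => rw [Function.iterate_succ_apply', ih, rm_of, pow_succ, mul_assoc]

theorem it_add {M : Type*} [AddCommGroup M] (σ : M →+ M) (k : ℕ) (a b : M) :
    σ^[k] (a + b) = σ^[k] a + σ^[k] b := by
  induction k with
  | zero => rfl
  | succ k ih => rw [Function.iterate_succ_apply', ih, map_add, Function.iterate_succ_apply',
      Function.iterate_succ_apply']

theorem ext1 (P : FreeAbelianGroup G → V) (h : ∀ a b, P (a + b) = P a + P b)
    (h0 : ∀ a : G, P (FreeAbelianGroup.of a) = 0) (a : FreeAbelianGroup G) : P a = 0 := by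
  have e : AddMonoidHom.mk' P h = 0 := FreeAbelianGroup.lift_ext _ _ fun a => by
    simpa using h0 a
  exact DFunLike.congr_fun e a

theorem ext4 (P : FreeAbelianGroup G → FreeAbelianGroup G → FreeAbelianGroup G →
      FreeAbelianGroup G → V)
    (h1 : ∀ a a' b c d, P (a + a') b c d = P a b c d + P a' b c d)
    (h2 : ∀ a b b' c d, P a (b + b') c d = P a b c d + P a b' c d)
    (h3 : ∀ a b c c' d, P a b (c + c') d = P a b c d + P a b c' d)
    (h4 : ∀ a b c d d', P a b c (d + d') = P a b c d + P a b c d')
    (h0 : ∀ a b c d : G, P (FreeAbelianGroup.of a) (FreeAbelianGroup.of b)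
      (FreeAbelianGroup.of c) (FreeAbelianGroup.of d) = 0)
    (a b c d : FreeAbelianGroup G) : P a b c d = 0 := by
  refine ext1 (fun a => P a b c d) (fun x y => h1 x y b c d) (fun a => ?_) a
  refine ext1 (fun b => P _ b c d) (fun x y => h2 _ x y c d) (fun b => ?_) b
  refine ext1 (fun c => P _ _ c d) (fun x y => h3 _ _ x y d) (fun c => ?_) c
  exact ext1 (fun d => P _ _ _ d) (fun x y => h4 _ _ _ x y) (fun d => h0 a b c d) d

theorem ext3 (P : FreeAbelianGroup G → FreeAbelianGroup G → FreeAbelianGroup G → V)
    (h1 : ∀ a a' b c, P (a + a') b c = P a b c + P a' b c)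
    (h2 : ∀ a b b' c, P a (b + b') c = P a b c + P a b' c)
    (h3 : ∀ a b c c', P a b (c + c') = P a b c + P a b c')
    (h0 : ∀ a b c : G, P (FreeAbelianGroup.of a) (FreeAbelianGroup.of b)
      (FreeAbelianGroup.of c) = 0)
    (a b c : FreeAbelianGroup G) : P a b c = 0 := by
  refine ext1 (fun a => P a b c) (fun x y => h1 x y b c) (fun a => ?_) a
  refine ext1 (fun b => P _ b c) (fun x y => h2 _ x y c) (fun b => ?_) b
  exact ext1 (fun c => P _ _ c) (fun x y => h3 _ _ x y) (fun c => h0 a b c) c

variable {F : G → G → G → G → V} (hF : Rels F)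

include hF

theorem alg (g : G) : Alg (lift4 F) (rm g) := by
  constructor
  · apply ext4
    · intros; simp only [map_add, AddMonoidHom.add_apply]; abel
    · intros; simp only [map_add, AddMonoidHom.add_apply]; abel
    · intros; simp only [map_add, AddMonoidHom.add_apply]; abel
    · intros; simp only [map_add, AddMonoidHom.add_apply]; abel
    · intro a b c d; simp only [lift4_of]; exact hF.A a b c d
  · apply ext4
    · intros; simp only [map_add, AddMonoidHom.add_apply]; abel
    · intros; simp only [map_add, AddMonoidHom.add_apply]; abel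
    · intros; simp only [map_add, AddMonoidHom.add_apply]; abel
    · intros; simp only [map_add, AddMonoidHom.add_apply]; abel
    · intro a b c d; simp only [lift4_of]; exact hF.J a b c d
  · apply ext4
    · intros; simp only [map_add, AddMonoidHom.add_apply]; abel
    · intros; simp only [map_add, AddMonoidHom.add_apply]; abel
    · intros; simp only [map_add, AddMonoidHom.add_apply]; abel
    · intros; simp only [map_add, AddMonoidHom.add_apply]; abel
    · intro a b c d; simp only [lift4_of]; exact hF.D a b c d
  · apply ext4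
    · intros; simp only [it_add, map_add, AddMonoidHom.add_apply, smul_add,
        Finset.sum_add_distrib]
    · intros; simp only [it_add, map_add, AddMonoidHom.add_apply, smul_add,
        Finset.sum_add_distrib]
    · intros; simp only [it_add, map_add, AddMonoidHom.add_apply, smul_add,
        Finset.sum_add_distrib]
    · intros; simp only [it_add, map_add, AddMonoidHom.add_apply, smul_add,
        Finset.sum_add_distrib]
    · intro a b c d; simp only [rm_it, lift4_of]; exact hF.E0 g a b c d
  · intro k
    apply ext4
    · intros; simp only [it_add, map_add, AddMonoidHom.add_apply, smul_add,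
        Finset.sum_add_distrib]
    · intros; simp only [it_add, map_add, AddMonoidHom.add_apply, smul_add,
        Finset.sum_add_distrib]
    · intros; simp only [it_add, map_add, AddMonoidHom.add_apply, smul_add,
        Finset.sum_add_distrib]
    · intros; simp only [it_add, map_add, AddMonoidHom.add_apply, smul_add,
        Finset.sum_add_distrib]
    · intro a b c d; simp only [rm_it, lift4_of, pow_mul]; exact hF.E1 (g ^ k) a b c d
  · intro k
    have key : ∀ (p : Prop) [Decidable p] (x y z w : V),
        (if p then x + y else z + w) = (if p then x else z) + (if p then y else w) := by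
      intro p _ x y z w; split_ifs <;> rfl
    apply ext4
    · intros; simp only [it_add, map_add, AddMonoidHom.add_apply, key, smul_add,
        Finset.sum_add_distrib]
    · intros; simp only [it_add, map_add, AddMonoidHom.add_apply, key, smul_add,
        Finset.sum_add_distrib]
    · intros; simp only [it_add, map_add, AddMonoidHom.add_apply, key, smul_add,
        Finset.sum_add_distrib]
    · intros; simp only [it_add, map_add, AddMonoidHom.add_apply, key, smul_add,
        Finset.sum_add_distrib]
    · intro a b c d; simp only [rm_it, lift4_of, pow_mul]; exact hF.E2 (g ^ k) a b c d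
  · intro k
    have key : ∀ (p : Prop) [Decidable p] (x y z w : V),
        (if p then x + y else z + w) = (if p then x else z) + (if p then y else w) := by
      intro p _ x y z w; split_ifs <;> rfl
    apply ext4
    · intros; simp only [it_add, map_add, AddMonoidHom.add_apply, key, smul_add,
        Finset.sum_add_distrib]
    · intros; simp only [it_add, map_add, AddMonoidHom.add_apply, key, smul_add,
        Finset.sum_add_distrib]
    · intros; simp only [it_add, map_add, AddMonoidHom.add_apply, key, smul_add,
        Finset.sum_add_distrib]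
    · intros; simp only [it_add, map_add, AddMonoidHom.add_apply, key, smul_add,
        Finset.sum_add_distrib]
    · intro a b c d; simp only [rm_it, lift4_of, pow_mul]; exact hF.E3 (g ^ k) a b c d

variable (ht : NoTor V)

include ht

/-- Without `30`-torsion the relations force all values to vanish. -/
theorem zero (a b c d : G) : F a b c d = 0 := by
  have hr : ∀ y k : G, rm (y⁻¹ * k) (FreeAbelianGroup.of y) = FreeAbelianGroup.of k := by
    intro y k; rw [rm_of, mul_inv_cancel_left]
  have hX : ∀ g : G, ∀ y ∈ Set.range (FreeAbelianGroup.of : G → FreeAbelianGroup G), ∀ k : ℕ,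
      (rm g)^[k] y ∈ Set.range (FreeAbelianGroup.of : G → FreeAbelianGroup G) := by
    rintro g _ ⟨y, rfl⟩ k
    exact ⟨_, (rm_it g y k).symm⟩
  have h3 : ∀ y ∈ Set.range (FreeAbelianGroup.of : G → FreeAbelianGroup G), ∀ m,
      lift4 F m y y y = 0 := by
    rintro _ ⟨y, rfl⟩ m
    refine ext1 (fun m => lift4 F m _ _ _) ?_ (fun k => ?_) m
    · intros; simp only [map_add, AddMonoidHom.add_apply]
    · have h := (alg hF (y⁻¹ * k)).p3 ht (FreeAbelianGroup.of y)
      rwa [hr] at h
  have h2 : ∀ y ∈ Set.range (FreeAbelianGroup.of : G → FreeAbelianGroup G), ∀ m m',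
      lift4 F m' y y m = 0 ∧ lift4 F m' y m y = 0 ∧ lift4 F m' m y y = 0 := by
    rintro _ ⟨y, rfl⟩ m m'
    refine ⟨?_, ?_, ?_⟩
    · refine ext1 (fun m' => lift4 F m' _ _ m) ?_ (fun k => ?_) m'
      · intros; simp only [map_add, AddMonoidHom.add_apply]
      · have h := ((alg hF (y⁻¹ * k)).p2 ht (hX _) h3 _ ⟨y, rfl⟩ m).1
        rwa [hr] at h
    · refine ext1 (fun m' => lift4 F m' _ m _) ?_ (fun k => ?_) m'
      · intros; simp only [map_add, AddMonoidHom.add_apply]
      · have h := ((alg hF (y⁻¹ * k)).p2 ht (hX _) h3 _ ⟨y, rfl⟩ m).2.1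
        rwa [hr] at h
    · refine ext1 (fun m' => lift4 F m' m _ _) ?_ (fun k => ?_) m'
      · intros; simp only [map_add, AddMonoidHom.add_apply]
      · have h := ((alg hF (y⁻¹ * k)).p2 ht (hX _) h3 _ ⟨y, rfl⟩ m).2.2
        rwa [hr] at h
  have hz : ∀ y ∈ Set.range (FreeAbelianGroup.of : G → FreeAbelianGroup G), ∀ m n,
      Z (lift4 F) y y m n := by
    intro y hy m n
    have z : Z (lift4 F) n y y m :=
      (alg hF 1).mkZ (h2 y hy m n).1 (h2 y hy m n).2.1 (h2 y hy m n).1 (h2 y hy m n).2.1
        (h2 y hy m n).2.2 (h2 y hy m n).2.2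
    exact (alg hF 1).mkZ z.e1230 z.e1203 z.e1320 z.e1302 z.e1023 z.e1032
  have h1 : ∀ y : G, ∀ m m' n, lift4 F m' (FreeAbelianGroup.of y) m n = 0 := by
    intro y m m' n
    refine ext1 (fun m' => lift4 F m' _ m n) ?_ (fun k => ?_) m'
    · intros; simp only [map_add, AddMonoidHom.add_apply]
    · have h := (alg hF (y⁻¹ * k)).p1 ht (hX _) hz _ ⟨y, rfl⟩ m n
      rwa [hr] at h
  rw [← lift4_of F]
  exact h1 b _ _ _

end Alg

end Pool.Agent.Work.MP_d7201b_al
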