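import Pool.Agent.Work.MP_d7201b_al.Tor.Expand

/-!
# The lower central filtration of a normal subgroup and the values in its last term

Let `N` be a normal subgroup of `G` whose lower central series satisfies
`N.lowerCentralSeries (c + 1) = ⊥`.  The maps `θ k` send `z` to the function
`[n₁, …, nᵣ] ↦ [z, n₁, …, nᵣ]` (`k + r = c + 1`) with values in the last term of the series.
-/

namespace Pool.Agent.Work.MP_d7201b_al

open scoped commutatorElement

set_option linter.unusedSectionVars false

section LCS

variable {G : Type*} [Group G]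

theorem three_subgroups (A B C N : Subgroup G) [N.Normal]
    (h1 : ⁅⁅B, C⁆, A⁆ ≤ N) (h2 : ⁅⁅C, A⁆, B⁆ ≤ N) : ⁅⁅A, B⁆, C⁆ ≤ N := by
  have key : ∀ X : Subgroup G, X ≤ N ↔ X.map (QuotientGroup.mk' N) = ⊥ := by
    intro X
    rw [Subgroup.map_eq_bot_iff, QuotientGroup.ker_mk']
  rw [key] at h1 h2 ⊢
  rw [Subgroup.map_commutator, Subgroup.map_commutator] at h1 h2 ⊢
  exact Subgroup.commutator_commutator_eq_bot_of_rotate h1 h2

variable (N : Subgroup G) [hN : N.Normal]

theorem lcs_normal (k : ℕ) : (N.lowerCentralSeries k).Normal := by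
  induction k with
  | zero => exact hN
  | succ k ih =>
    rw [Subgroup.lowerCentralSeries_succ]
    exact Subgroup.commutator_normal _ _

theorem lcs_comm_le (i j : ℕ) :
    ⁅N.lowerCentralSeries i, N.lowerCentralSeries j⁆ ≤ N.lowerCentralSeries (i + j + 1) := by
  induction j generalizing i with
  | zero => exact le_of_eq rfl
  | succ j ih =>
    have := lcs_normal N (i + (j + 1) + 1)
    rw [Subgroup.lowerCentralSeries_succ N j, Subgroup.commutator_comm]
    apply three_subgroups
    · rw [Subgroup.commutator_comm N, ← Subgroup.lowerCentralSeries_succ]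
      exact (ih (i + 1)).trans (le_of_eq (by congr 1; omega))
    · have h2 : ⁅⁅N.lowerCentralSeries i, N.lowerCentralSeries j⁆, N⁆ ≤
        N.lowerCentralSeries (i + j + 1 + 1) := by
        rw [Subgroup.lowerCentralSeries_succ]
        exact Subgroup.commutator_mono (ih i) le_rfl
      exact h2

theorem comm_eq_bracket (a b : G) : comm a b = ⁅a⁻¹, b⁻¹⁆ := by
  rw [commutatorElement_def]; unfold comm; group

/-- The filtration `G ≥ N = γ₁(N) ≥ γ₂(N) ≥ ⋯`. -/
def lcsFilt : Filt G where
  S k := match k with
    | 0 => ⊤
    | k + 1 => N.lowerCentralSeries k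
  anti := by
    intro s t h
    match s, t with
    | 0, _ => exact le_top
    | s + 1, 0 => omega
    | s + 1, t + 1 => exact Subgroup.lowerCentralSeries_antitone _ (by omega)
  comm := by
    intro s t a b ha hb
    match s, t with
    | 0, 0 => exact Subgroup.mem_top _
    | 0, t + 1 =>
      have := lcs_normal N t
      have h1 : comm a b = (a⁻¹ * b⁻¹ * a) * b := by unfold comm; group
      rw [h1, zero_add]
      have h2 := this.conj_mem _ (inv_mem hb) a⁻¹
      rw [inv_inv] at h2
      exact mul_mem h2 hb
    | s + 1, 0 =>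
      have := lcs_normal N s
      have h1 : comm a b = a⁻¹ * (b⁻¹ * a * b) := by unfold comm; group
      rw [h1]
      have h2 := this.conj_mem _ ha b⁻¹
      rw [inv_inv] at h2
      exact mul_mem (inv_mem ha) h2
    | s + 1, t + 1 =>
      rw [comm_eq_bracket]
      have h1 := lcs_comm_le N s t
        (Subgroup.commutator_mem_commutator (inv_mem ha) (inv_mem hb))
      have e : s + 1 + (t + 1) = (s + t + 1) + 1 := by omega
      rw [e]
      exact h1

theorem lcsFilt_zero : (lcsFilt N).S 0 = ⊤ := rfl
theorem lcsFilt_succ (k : ℕ) : (lcsFilt N).S (k + 1) = N.lowerCentralSeries k := rfl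
theorem lcsFilt_one : (lcsFilt N).S 1 = N := rfl

end LCS

section Last

variable {G : Type*} [Group G] (N : Subgroup G) [hN : N.Normal] (c : ℕ)
  (hc : N.lowerCentralSeries (c + 1) = ⊥)

/-- The last term of the lower central series, written additively. -/
@[nolint unusedArguments]
def Last (_ : N.lowerCentralSeries (c + 1) = ⊥) : Type _ := Additive (N.lowerCentralSeries c)

instance : AddCommGroup (Last N c hc) :=
  { (inferInstance : AddGroup (Additive (N.lowerCentralSeries c))) with
    add_comm := by
      rintro ⟨a, ha⟩ ⟨b, hb⟩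
      show Additive.ofMul ((⟨a, ha⟩ : N.lowerCentralSeries c) * ⟨b, hb⟩) =
        Additive.ofMul ((⟨b, hb⟩ : N.lowerCentralSeries c) * ⟨a, ha⟩)
      congr 1
      apply Subtype.ext
      show a * b = b * a
      have h1 := lcs_comm_le N c c (Subgroup.commutator_mem_commutator ha hb)
      have h2 := Subgroup.lowerCentralSeries_antitone N (show c + 1 ≤ c + c + 1 by omega) h1
      rw [hc, Subgroup.mem_bot] at h2
      exact (commutatorElement_eq_one_iff_mul_comm.mp h2) }

variable {N c}

/-- An element of the last term. -/
def Last.mk (z : G) (hz : z ∈ N.lowerCentralSeries c) : Last N c hc :=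
  Additive.ofMul (⟨z, hz⟩ : N.lowerCentralSeries c)

/-- The underlying element of the group. -/
def Last.val (z : Last N c hc) : G := (Additive.toMul (α := N.lowerCentralSeries c) z).1

theorem Last.ext {x y : Last N c hc} (h : x.val = y.val) : x = y := by
  apply Additive.toMul.injective
  exact Subtype.ext h

@[simp] theorem Last.val_mk (z : G) (hz : z ∈ N.lowerCentralSeries c) :
    (Last.mk hc z hz).val = z := rfl

@[simp] theorem Last.val_zero : (0 : Last N c hc).val = 1 := rfl

@[simp] theorem Last.val_add (x y : Last N c hc) : (x + y).val = x.val * y.val := rfl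

theorem Last.val_nsmul (k : ℕ) (x : Last N c hc) : (k • x).val = x.val ^ k := by
  induction k with
  | zero => simp
  | succ k ih => rw [succ_nsmul, Last.val_add, ih, pow_succ]

/-- Conjugation by `g` on the last term. -/
def Last.act (g : G) : Last N c hc →+ Last N c hc where
  toFun x := Last.mk hc (g⁻¹ * x.val * g) (by
    have := (lcs_normal N c).conj_mem x.val x.2 g⁻¹
    rwa [inv_inv] at this)
  map_zero' := by
    apply Last.ext
    simp
  map_add' x y := by
    apply Last.ext
    simp only [Last.val_mk, Last.val_add]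
    group

@[simp] theorem Last.val_act (g : G) (x : Last N c hc) :
    (Last.act hc g x).val = g⁻¹ * x.val * g := rfl

open Classical in
/-- The values `[z, n₁, …, nᵣ]`. -/
noncomputable def th (hc : N.lowerCentralSeries (c + 1) = ⊥) : ℕ → G → List G → Last N c hc
  | k, z, [] => if h : k = c + 1 ∧ z ∈ N.lowerCentralSeries c then Last.mk hc z h.2 else 0
  | k, z, n :: l => if n ∈ N then th hc (k + 1) (comm z n) l else 0

theorem th_zero (l : List G) {k : ℕ} {x : G} (hk : 1 ≤ k) (hx : x ∈ (lcsFilt N).S (k + 1)) :
    th hc k x l = 0 := by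
  induction l generalizing k x with
  | nil =>
    simp only [th]
    split_ifs with h
    · obtain ⟨h1, h2⟩ := h
      subst h1
      rw [lcsFilt_succ, hc, Subgroup.mem_bot] at hx
      apply Last.ext
      simp [hx]
    · rfl
  | cons n l ih =>
    simp only [th]
    split_ifs with h
    · have h1 : comm x n ∈ (lcsFilt N).S (k + 1 + 1) := (lcsFilt N).comm hx (t := 1) h
      exact ih (by omega) h1
    · rfl

theorem th_mul (l : List G) {k : ℕ} {x y : G} (hk : 1 ≤ k) (hx : x ∈ (lcsFilt N).S k)
    (hy : y ∈ (lcsFilt N).S k) : th hc k (x * y) l = th hc k x l + th hc k y l := by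
  induction l generalizing k x y with
  | nil =>
    simp only [th]
    by_cases h : k = c + 1
    · subst h
      rw [lcsFilt_succ] at hx hy
      have h3 := mul_mem hx hy
      rw [dif_pos ⟨rfl, h3⟩, dif_pos ⟨rfl, hx⟩, dif_pos ⟨rfl, hy⟩]
      rfl
    · rw [dif_neg (fun h' => h h'.1), dif_neg (fun h' => h h'.1), dif_neg (fun h' => h h'.1),
        add_zero]
  | cons n l ih =>
    simp only [th]
    split_ifs with h
    · have h1 : comm x n ∈ (lcsFilt N).S (k + 1) := (lcsFilt N).comm hx (t := 1) h
      have h2 : comm y n ∈ (lcsFilt N).S (k + 1) := (lcsFilt N).comm hy (t := 1) h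
      have h3 : comm (comm x n) y ∈ (lcsFilt N).S (k + 1 + k) := (lcsFilt N).comm h1 hy
      have h4 : comm (comm x n) y ∈ (lcsFilt N).S (k + 1 + 1) := (lcsFilt N).anti (by omega) h3
      rw [comm_mul_left, ih (by omega) ((lcsFilt N).conj h1 ((lcsFilt N).mem_zero hy)) h2,
        conj_eq, ih (by omega) h1 ((lcsFilt N).anti (by omega) h4), th_zero hc l (by omega) h4,
        add_zero]
    · rw [add_zero]

/-- The system of values. -/
noncomputable def baseSys : Sys (lcsFilt N) (List G → Last N c hc) where
  θ k z l := th hc k z l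
  mul := by
    intro k x y hk hx hy
    funext l
    exact th_mul hc l hk hx hy
  zero := by
    intro k x hk hx
    funext l
    exact th_zero hc l hk hx

/-- The operator of conjugation by `g`. -/
def opG (g : G) : (List G → Last N c hc) →+ (List G → Last N c hc) where
  toFun F l := Last.act hc g (F (l.map (fun n => g * n * g⁻¹)))
  map_zero' := by
    funext l; simp
  map_add' F F' := by
    funext l; simp

/-- The operator of bracketing with `n`. -/
def brN (n : G) : (List G → Last N c hc) →+ (List G → Last N c hc) where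
  toFun F l := F (n :: l)
  map_zero' := rfl
  map_add' _ _ := rfl

theorem opG_brN (g n : G) (F : List G → Last N c hc) :
    opG hc g (brN hc n F) = brN hc (g⁻¹ * n * g) (opG hc g F) := by
  funext l
  show Last.act hc g (F (n :: l.map (fun n => g * n * g⁻¹))) =
    Last.act hc g (F ((g⁻¹ * n * g :: l).map (fun n => g * n * g⁻¹)))
  rw [List.map_cons]
  congr 3
  group

theorem th_conj (g : G) (l : List G) (k : ℕ) (x : G) :
    th hc k (g⁻¹ * x * g) l = Last.act hc g (th hc k x (l.map (fun n => g * n * g⁻¹))) := by
  induction l generalizing k x with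
  | nil =>
    simp only [th, List.map_nil]
    have key : g⁻¹ * x * g ∈ N.lowerCentralSeries c ↔ x ∈ N.lowerCentralSeries c := by
      constructor
      · intro h
        have := (lcs_normal N c).conj_mem _ h g
        have e : g * (g⁻¹ * x * g) * g⁻¹ = x := by group
        rwa [e] at this
      · intro h
        have := (lcs_normal N c).conj_mem _ h g⁻¹
        rwa [inv_inv] at this
    by_cases h : k = c + 1 ∧ x ∈ N.lowerCentralSeries c
    · rw [dif_pos h, dif_pos ⟨h.1, key.mpr h.2⟩]
      rfl
    · rw [dif_neg h, dif_neg (fun h' => h ⟨h'.1, key.mp h'.2⟩), map_zero]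
  | cons n l ih =>
    simp only [th, List.map_cons]
    have key : g * n * g⁻¹ ∈ N ↔ n ∈ N := by
      constructor
      · intro h
        have := hN.conj_mem _ h g⁻¹
        have e : g⁻¹ * (g * n * g⁻¹) * g⁻¹⁻¹ = n := by group
        rwa [e] at this
      · intro h
        exact hN.conj_mem _ h g
    by_cases h : n ∈ N
    · rw [if_pos h, if_pos (key.mpr h), ← ih]
      congr 1
      rw [comm_conj]
      congr 1
      group
    · rw [if_neg h, if_neg (fun h' => h (key.mp h')), map_zero]

theorem isOp (g : G) : (baseSys hc).IsOp g (opG hc g) := by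
  refine ⟨Subgroup.mem_top g, ?_⟩
  intro k x _ _
  funext l
  exact th_conj hc g l k x

theorem isBr {n : G} (hn : n ∈ N) : (baseSys hc).IsBr n (brN hc n) := by
  refine ⟨hn, ?_⟩
  intro k x _ _
  funext l
  show th hc (k + 1) (comm x n) l = th hc k x (n :: l)
  simp only [th]
  rw [if_pos hn]

end Last

end Pool.Agent.Work.MP_d7201b_al
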