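import Pool.Agent.Work.MP_d7201b_al.Tor.Sys

/-!
# Explicit form of the relations obtained from pairs of pairs of pairs
-/

namespace Pool.Agent.Work.MP_d7201b_al

namespace Expand

set_option linter.unusedSimpArgs false

variable {V : Type*} [AddCommGroup V]

/-- The coefficients `1, -4, 6, -4, 1`. -/
def w : ℕ → ℤ
  | 0 => 1
  | 1 => -4
  | 2 => 6
  | 3 => -4
  | 4 => 1
  | _ => 0

/-- The polynomial `(X - 1)⁴` in an operator. -/
def quart {U : Type*} [AddCommGroup U] (X : U →+ U) (v : U) : U :=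
  X (X (X (X v))) - 4 • X (X (X v)) + 6 • X (X v) - 4 • X v + v

open Sys

variable (φ : V →+ V) (A B C : ℕ → (V →+ V)) (W : ℕ → V)

theorem e1 (hA : ∀ i v, φ (A i v) = A (i + 1) (φ v)) (hW : ∀ j, φ (W j) = W (j + 1))
    (h : quart (dual φ (A 0)) (W 0, 0) = 0) :
    ∑ j ∈ Finset.range 5, w j • ∑ i ∈ Finset.range j, A i (W j) = 0 := by
  have h2 := congrArg Prod.snd h
  simp only [quart, dual_apply, map_add, map_zero, hW, hA, zero_add, Prod.snd_add, Prod.snd_sub,
    Prod.smul_snd, Prod.snd_zero, Nat.reduceAdd] at h2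
  simp only [Finset.sum_range_succ, Finset.range_zero, Finset.sum_empty, w, zero_add]
  refine Eq.trans ?_ h2
  abel

/-- The bracket of `v` with the two operators in the order of decreasing times. -/
def srt2 (i j : ℕ) (v : V) : V :=
  if j ≤ i then B j (A i v) else A i (B j v)

theorem e2 (hA : ∀ i v, φ (A i v) = A (i + 1) (φ v)) (hB : ∀ i v, φ (B i v) = B (i + 1) (φ v))
    (hW : ∀ j, φ (W j) = W (j + 1))
    (h : quart (dual (dual φ (A 0)) (both (B 0))) ((W 0, 0), (0, 0)) = 0) :
    ∑ j ∈ Finset.range 5, w j • ∑ i1 ∈ Finset.range j, ∑ i2 ∈ Finset.range j,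
      srt2 A B i1 i2 (W j) = 0 := by
  have h2 := congrArg (fun x => x.2.2) h
  simp only [quart, dual_apply, both_apply, map_add, map_zero, hW, hA, hB, zero_add, add_zero,
    Prod.snd_add, Prod.fst_add, Prod.snd_sub, Prod.fst_sub,
    Prod.smul_snd, Prod.smul_fst, Prod.snd_zero, Prod.fst_zero, Nat.reduceAdd] at h2
  simp only [Finset.sum_range_succ, Finset.range_zero, Finset.sum_empty, w, zero_add, srt2,
    Nat.reduceLeDiff, if_true, if_false, le_refl, Nat.zero_le, nonpos_iff_eq_zero,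
    one_ne_zero, OfNat.ofNat_ne_zero]
  refine Eq.trans ?_ h2
  abel

/-- The bracket of `v` with the three operators in the order of decreasing times. -/
def srt3 (i j k : ℕ) (v : V) : V :=
  if j ≤ i ∧ k ≤ j then C k (B j (A i v))
  else if j < k ∧ k ≤ i then B j (C k (A i v))
  else if i < j ∧ k ≤ i then C k (A i (B j v))
  else if i < k ∧ k ≤ j then A i (C k (B j v))
  else if i < k ∧ j ≤ i then B j (A i (C k v))
  else A i (B j (C k v))

theorem e3 (hA : ∀ i v, φ (A i v) = A (i + 1) (φ v)) (hB : ∀ i v, φ (B i v) = B (i + 1) (φ v))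
    (hC : ∀ i v, φ (C i v) = C (i + 1) (φ v)) (hW : ∀ j, φ (W j) = W (j + 1))
    (h : quart (dual (dual (dual φ (A 0)) (both (B 0))) (both (both (C 0))))
      (((W 0, 0), (0, 0)), ((0, 0), (0, 0))) = 0) :
    ∑ j ∈ Finset.range 5, w j • ∑ i1 ∈ Finset.range j, ∑ i2 ∈ Finset.range j,
      ∑ i3 ∈ Finset.range j, srt3 A B C i1 i2 i3 (W j) = 0 := by
  have h2 := congrArg (fun x => x.2.2.2) h
  simp only [quart, dual_apply, both_apply, map_add, map_zero, hW, hA, hB, hC, zero_add, add_zero,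
    Prod.snd_add, Prod.fst_add, Prod.snd_sub, Prod.fst_sub,
    Prod.smul_snd, Prod.smul_fst, Prod.snd_zero, Prod.fst_zero, Nat.reduceAdd] at h2
  simp only [Finset.sum_range_succ, Finset.range_zero, Finset.sum_empty, w, zero_add, srt3,
    Nat.reduceLeDiff, Nat.reduceLT, if_true, if_false, le_refl, Nat.zero_le, nonpos_iff_eq_zero,
    one_ne_zero, OfNat.ofNat_ne_zero, and_true, true_and, and_false, false_and, and_self,
    lt_self_iff_false, Nat.not_lt_zero, Nat.lt_one_iff, zero_lt_one, Nat.ofNat_pos,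
    Nat.one_lt_ofNat, Nat.not_ofNat_le_one, Nat.not_ofNat_lt_one]
  refine Eq.trans ?_ h2
  abel

end Expand

end Pool.Agent.Work.MP_d7201b_al
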