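import Pool.Agent.Work.MP_d7201b_al.Tor.Alg6

/-!
# Torsion of the fourth term of the lower central series
-/

namespace Pool.Agent.Work.MP_d7201b_al

open Lin

open scoped commutatorElement

set_option linter.unusedSectionVars false
set_option linter.unusedTactic false

/-- The elements killed by a power of `30`. -/
def torW (V : Type*) [AddCommGroup V] : AddSubgroup V where
  carrier := {v | ∃ n : ℕ, (30 ^ n : ℤ) • v = 0}
  zero_mem' := ⟨0, smul_zero _⟩
  add_mem' := by
    rintro a b ⟨m, hm⟩ ⟨n, hn⟩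
    refine ⟨m + n, ?_⟩
    rw [smul_add]
    have h1 : (30 ^ (m + n) : ℤ) • a = 0 := by
      rw [add_comm m n, pow_add, mul_smul, hm, smul_zero]
    have h2 : (30 ^ (m + n) : ℤ) • b = 0 := by
      rw [pow_add, mul_smul, hn, smul_zero]
    rw [h1, h2, add_zero]
  neg_mem' := by
    rintro a ⟨m, hm⟩
    exact ⟨m, by rw [smul_neg, hm, neg_zero]⟩

theorem noTor_quot (V : Type*) [AddCommGroup V] : NoTor (V ⧸ torW V) := by
  intro v hv
  induction v using QuotientAddGroup.induction_on with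
  | H v =>
    rw [← QuotientAddGroup.mk_zsmul, QuotientAddGroup.eq_zero_iff] at hv
    rw [QuotientAddGroup.eq_zero_iff]
    obtain ⟨n, hn⟩ := hv
    exact ⟨n + 1, by rw [pow_succ, mul_smul, hn]⟩

theorem Rels.map {G V V' : Type*} [Group G] [AddCommGroup V] [AddCommGroup V']
    {F : G → G → G → G → V} (hF : Rels F) (φ : V →+ V') : Rels (fun a b c d => φ (F a b c d)) where
  A a b c d := by rw [← map_add, hF.A, map_zero]
  J a b c d := by rw [← map_add, ← map_add, hF.J, map_zero]
  D a b c d := by rw [← map_sub, ← map_add, ← map_sub, hF.D, map_zero]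
  E0 g a b c d := by
    have h := congrArg φ (hF.E0 g a b c d)
    simp only [map_sum, map_zsmul, map_zero] at h
    exact h
  E1 g a b c d := by
    have h := congrArg φ (hF.E1 g a b c d)
    simp only [map_sum, map_zsmul, map_zero] at h
    exact h
  E2 g a b c d := by
    have h := congrArg φ (hF.E2 g a b c d)
    simp only [map_sum, map_zsmul, map_zero, apply_ite φ] at h
    exact h
  E3 g a b c d := by
    have h := congrArg φ (hF.E3 g a b c d)
    simp only [map_sum, map_zsmul, map_zero, apply_ite φ] at h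
    exact h

section

variable {G : Type*} [Group G] {N : Subgroup G} [hN : N.Normal] {c : ℕ}
  (hc : N.lowerCentralSeries (c + 1) = ⊥) {x : G}

/-- Values at conjugates are torsion. -/
theorem val4_tor (hx : x ∈ N) (he : IsRightEngel 4 x) (a b c' d : G) (l : List G) :
    val4 hc x a b c' d l ∈ torW (Last N c hc) := by
  have h := Alg.zero ((rels_val4 hc hx he).map
    ((QuotientAddGroup.mk' (torW (Last N c hc))).comp
      (Pi.evalAddMonoidHom (fun _ : List G => Last N c hc) l))) (noTor_quot _) a b c' d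
  simpa only [AddMonoidHom.comp_apply, Pi.evalAddMonoidHom_apply, QuotientAddGroup.mk'_apply,
    QuotientAddGroup.eq_zero_iff] using h

/-- A function additive on `N = ⟨x⟩^G` with values in a subgroup at the conjugates of `x`. -/
theorem conj_ind {V : Type*} [AddCommGroup V] (W : AddSubgroup V)
    (hNx : N = Subgroup.normalClosure {x}) (φ : G → V)
    (hφ : ∀ y ∈ N, ∀ z ∈ N, φ (y * z) = φ y + φ z) (h : ∀ g, φ (cj x g) ∈ W) :
    ∀ z ∈ N, φ z ∈ W := by
  have h1 : φ 1 = 0 := by
    have := hφ 1 (one_mem _) 1 (one_mem _)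
    rw [mul_one] at this
    exact (left_eq_add.mp this)
  let K : Subgroup G :=
    { carrier := {z | z ∈ N ∧ φ z ∈ W}
      one_mem' := ⟨one_mem _, by rw [h1]; exact zero_mem _⟩
      mul_mem' := by
        rintro a b ⟨ha, ha'⟩ ⟨hb, hb'⟩
        exact ⟨mul_mem ha hb, by rw [hφ a ha b hb]; exact add_mem ha' hb'⟩
      inv_mem' := by
        rintro a ⟨ha, ha'⟩
        refine ⟨inv_mem ha, ?_⟩
        have := hφ a ha a⁻¹ (inv_mem ha)
        rw [mul_inv_cancel, h1] at this
        rw [eq_neg_of_add_eq_zero_right this.symm]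
        exact neg_mem ha' }
  have hK : N ≤ K := by
    rw [hNx]
    unfold Subgroup.normalClosure
    rw [Subgroup.closure_le]
    intro z hz
    rw [Group.mem_conjugatesOfSet_iff] at hz
    obtain ⟨y, hy, hyz⟩ := hz
    rw [Set.mem_singleton_iff] at hy
    subst hy
    rw [isConj_iff] at hyz
    obtain ⟨g, rfl⟩ := hyz
    have e : g * y * g⁻¹ = cj y g⁻¹ := by unfold cj; group
    refine ⟨?_, ?_⟩
    · rw [hNx]
      exact Subgroup.normalClosure_normal.conj_mem _
        (Subgroup.subset_normalClosure (Set.mem_singleton y)) g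
    · rw [e]; exact h _
  exact fun z hz => (hK hz).2

/-- Values at arbitrary elements of `N` are torsion. -/
theorem four_tor (hNx : N = Subgroup.normalClosure {x}) (he : IsRightEngel 4 x) (l : List G) :
    ∀ a ∈ N, ∀ b ∈ N, ∀ c' ∈ N, ∀ d ∈ N,
      (baseSys hc).θ 4 (comm (comm (comm a b) c') d) l ∈ torW (Last N c hc) := by
  have hx : x ∈ N := by
    rw [hNx]; exact Subgroup.subset_normalClosure (Set.mem_singleton x)
  set T := baseSys hc with hT
  have hm : ∀ a, cj x a ∈ N := fun a => cj_mem hx a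
  have m1 : ∀ {a}, a ∈ N → a ∈ (lcsFilt N).S 1 := fun ha => ha
  have m2 : ∀ {a b}, a ∈ N → b ∈ N → comm a b ∈ (lcsFilt N).S 2 := fun ha hb =>
    (lcsFilt N).comm (m1 ha) (m1 hb)
  have m3 : ∀ {a b c'}, a ∈ N → b ∈ N → c' ∈ N → comm (comm a b) c' ∈ (lcsFilt N).S 3 :=
    fun ha hb hc => (lcsFilt N).comm (m2 ha hb) (m1 hc)
  have s2 : ∀ {w n : G}, w ∈ (lcsFilt N).S 1 → n ∈ N → ∀ l, T.θ 2 (comm w n) l =
      T.θ 1 w (n :: l) := fun hw hn l => congrFun ((isBr hc hn).2 le_rfl hw) l
  have s3 : ∀ {w n : G}, w ∈ (lcsFilt N).S 2 → n ∈ N → ∀ l, T.θ 3 (comm w n) l =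
      T.θ 2 w (n :: l) := fun hw hn l => congrFun ((isBr hc hn).2 (by omega) hw) l
  have s4 : ∀ {w n : G}, w ∈ (lcsFilt N).S 3 → n ∈ N → ∀ l, T.θ 4 (comm w n) l =
      T.θ 3 w (n :: l) := fun hw hn l => congrFun ((isBr hc hn).2 (by omega) hw) l
  intro a ha b hb c' hc' d hd
  -- the variable `a`
  refine conj_ind (torW (Last N c hc)) hNx
    (fun a => T.θ 4 (comm (comm (comm a b) c') d) l) ?_ ?_ a ha
  · intro y hy z hz
    beta_reduce
    rw [s4 (m3 (mul_mem hy hz) hb hc') hd, s3 (m2 (mul_mem hy hz) hb) hc',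
      s2 (mul_mem hy hz) hb, s4 (m3 hy hb hc') hd, s3 (m2 hy hb) hc', s2 hy hb,
      s4 (m3 hz hb hc') hd, s3 (m2 hz hb) hc', s2 hz hb, T.mul le_rfl (m1 hy) (m1 hz)]
    rfl
  intro g1
  have ha1 := hm g1
  generalize hg1 : cj x g1 = a1 at ha1 ⊢
  -- the variable `b`
  refine conj_ind (torW (Last N c hc)) hNx
    (fun b => T.θ 4 (comm (comm (comm a1 b) c') d) l) ?_ ?_ b hb
  · intro y hy z hz
    beta_reduce
    rw [s4 (m3 ha1 (mul_mem hy hz) hc') hd, s3 (m2 ha1 (mul_mem hy hz)) hc',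
      s4 (m3 ha1 hy hc') hd, s3 (m2 ha1 hy) hc',
      s4 (m3 ha1 hz hc') hd, s3 (m2 ha1 hz) hc',
      T.comm_add_right (i := 1) (j := 1) le_rfl le_rfl (m1 ha1) (m1 hy) (m1 hz)]
    rfl
  intro g2
  have ha2 := hm g2
  generalize hg2 : cj x g2 = a2 at ha2 ⊢
  -- the variable `c'`
  refine conj_ind (torW (Last N c hc)) hNx
    (fun b => T.θ 4 (comm (comm (comm a1 a2) b) d) l) ?_ ?_ c' hc'
  · intro y hy z hz
    beta_reduce
    rw [s4 (m3 ha1 ha2 (mul_mem hy hz)) hd, s4 (m3 ha1 ha2 hy) hd, s4 (m3 ha1 ha2 hz) hd,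
      T.comm_add_right (i := 2) (j := 1) (by omega) le_rfl (m2 ha1 ha2) (m1 hy) (m1 hz)]
    rfl
  intro g3
  have ha3 := hm g3
  generalize hg3 : cj x g3 = a3 at ha3 ⊢
  -- the variable `d`
  refine conj_ind (torW (Last N c hc)) hNx
    (fun b => T.θ 4 (comm (comm (comm a1 a2) a3) b) l) ?_ ?_ d hd
  · intro y hy z hz
    beta_reduce
    rw [T.comm_add_right (i := 3) (j := 1) (by omega) le_rfl (m3 ha1 ha2 ha3) (m1 hy) (m1 hz)]
    rfl
  intro g4
  have h := val4_tor hc hx he g1 g2 g3 g4 l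
  rw [val4_eq hc hx] at h
  rw [← hg1, ← hg2, ← hg3]
  exact h

/-- The elements of `S k` whose values at the lists with the property `Q` lie in `W`. -/
noncomputable def subP (k : ℕ) (hk : 1 ≤ k) (Q : List G → Prop) (W : AddSubgroup (Last N c hc)) :
    Subgroup G where
  carrier := {z | z ∈ (lcsFilt N).S k ∧ ∀ l, Q l → (baseSys hc).θ k z l ∈ W}
  one_mem' := ⟨one_mem _, fun l _ => by rw [Sys.one _ hk]; exact zero_mem _⟩
  mul_mem' := by
    rintro a b ⟨ha, ha'⟩ ⟨hb, hb'⟩
    refine ⟨mul_mem ha hb, fun l hl => ?_⟩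
    rw [(baseSys hc).mul hk ha hb]
    exact add_mem (ha' l hl) (hb' l hl)
  inv_mem' := by
    rintro a ⟨ha, ha'⟩
    refine ⟨inv_mem ha, fun l hl => ?_⟩
    rw [Sys.inv _ hk ha]
    exact neg_mem (ha' l hl)

theorem subP_step (k : ℕ) (hk : 1 ≤ k) (Q : List G → Prop) (W : AddSubgroup (Last N c hc))
    (h : ∀ a ∈ (lcsFilt N).S k, ∀ b ∈ N, ∀ l, Q l → (baseSys hc).θ (k + 1) (comm a b) l ∈ W) :
    ∀ z ∈ (lcsFilt N).S (k + 1), ∀ l, Q l → (baseSys hc).θ (k + 1) z l ∈ W := by
  obtain ⟨k, rfl⟩ := Nat.exists_eq_add_of_le' hk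
  have h1 : (lcsFilt N).S (k + 1 + 1) ≤ subP hc (k + 1 + 1) (by omega) Q W := by
    rw [lcsFilt_succ, Subgroup.lowerCentralSeries_succ, Subgroup.commutator_le]
    intro a ha b hb
    have e : ⁅a, b⁆ = comm a⁻¹ b⁻¹ := by rw [comm_eq_bracket, inv_inv, inv_inv]
    have ha' : a⁻¹ ∈ (lcsFilt N).S (k + 1) := Subgroup.inv_mem (N.lowerCentralSeries k) ha
    have hb' : b⁻¹ ∈ (lcsFilt N).S 1 := Subgroup.inv_mem N hb
    rw [e]
    exact ⟨(lcsFilt N).comm ha' hb', h _ ha' _ hb'⟩
  exact fun z hz => (h1 hz).2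

include hc in
theorem last_tor (hNx : N = Subgroup.normalClosure {x}) (he : IsRightEngel 4 x) (h3 : 3 ≤ c) :
    ∀ z ∈ N.lowerCentralSeries c, ∃ n : ℕ, z ^ (30 ^ n) = 1 := by
  set T := baseSys hc with hT
  set W := torW (Last N c hc) with hW
  have br : ∀ {k : ℕ} {w n : G}, 1 ≤ k → w ∈ (lcsFilt N).S k → n ∈ N → ∀ l,
      T.θ (k + 1) (comm w n) l = T.θ k w (n :: l) := fun hk hw hn l =>
    congrFun ((isBr hc hn).2 hk hw) l
  have l2 := subP_step hc 1 le_rfl (fun l => ∃ b ∈ N, ∃ c' ∈ N, ∃ l', l = b :: c' :: l') W (by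
    rintro a ha a2 ha2 l ⟨b, hb, c', hc', l', rfl⟩
    have m2 : comm a a2 ∈ (lcsFilt N).S 2 := (lcsFilt N).comm (t := 1) ha ha2
    have m3 : comm (comm a a2) b ∈ (lcsFilt N).S 3 := (lcsFilt N).comm (t := 1) m2 hb
    have h := four_tor hc hNx he l' a ha a2 ha2 b hb c' hc'
    have e1 := br (by omega) m3 hc' l'
    have e2 := br (by omega) m2 hb (c' :: l')
    rw [← e2, ← e1]
    exact h)
  have l3 := subP_step hc 2 (by omega) (fun l => ∃ b ∈ N, ∃ l', l = b :: l') W (by
    rintro a ha a2 ha2 l ⟨b, hb, l', rfl⟩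
    have e := br (by omega) ha ha2 (b :: l')
    rw [e]
    exact l2 a ha _ ⟨a2, ha2, b, hb, l', rfl⟩)
  have l4 : ∀ k, ∀ z ∈ (lcsFilt N).S (k + 4), ∀ l, T.θ (k + 4) z l ∈ W := by
    intro k
    induction k with
    | zero =>
      intro z hz l
      refine subP_step hc 3 (by omega) (fun l => True) W ?_ z hz l trivial
      intro a ha b hb l _
      have e := br (by omega) ha hb l
      rw [e]
      exact l3 a ha _ ⟨b, hb, l, rfl⟩
    | succ k ih =>
      intro z hz l
      have e0 : k + 1 + 4 = k + 4 + 1 := by omega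
      rw [e0] at hz ⊢
      refine subP_step hc (k + 4) (by omega) (fun l => True) W ?_ z hz l trivial
      intro a ha b hb l _
      have e := br (by omega) ha hb l
      rw [e]
      exact ih a ha _
  intro z hz
  obtain ⟨k, rfl⟩ := Nat.exists_eq_add_of_le' h3
  have hz' : z ∈ (lcsFilt N).S (k + 4) := hz
  obtain ⟨n, hn⟩ := l4 k z hz' []
  refine ⟨n, ?_⟩
  have e : T.θ (k + 4) z [] = Last.mk hc z hz := by
    show th hc (k + 4) z [] = _
    simp only [th]
    rw [dif_pos ⟨rfl, hz⟩]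
  have hn' : ((30 ^ n : ℕ) : ℤ) • Last.mk hc z hz = 0 := by
    rw [← e]; push_cast; exact hn
  rw [natCast_zsmul] at hn'
  have h := congrArg (Last.val hc) hn'
  rw [Last.val_nsmul, Last.val_mk] at h
  exact h

end

/-- The fourth term of the lower central series of `⟨x⟩^G` is a `{2,3,5}`-torsion group. -/
theorem main_aux (c : ℕ) : ∀ {G : Type*} [Group G] (x : G), IsRightEngel 4 x →
    (Subgroup.normalClosure {x}).lowerCentralSeries (c + 1) = ⊥ →
    ∀ z ∈ (Subgroup.normalClosure {x}).lowerCentralSeries 3, ∃ n : ℕ, z ^ (30 ^ n) = 1 := by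
  induction c with
  | zero =>
    intro G _ x hx hc z hz
    have h := Subgroup.lowerCentralSeries_antitone _ (show 0 + 1 ≤ 3 by omega) hz
    rw [hc, Subgroup.mem_bot] at h
    exact ⟨0, by rw [h, one_pow]⟩
  | succ c ih =>
    intro G _ x hx hc z hz
    rcases lt_or_ge c 2 with h3 | h3
    · have h := Subgroup.lowerCentralSeries_antitone _ (show c + 1 + 1 ≤ 3 by omega) hz
      rw [hc, Subgroup.mem_bot] at h
      exact ⟨0, by rw [h, one_pow]⟩
    · set N := Subgroup.normalClosure {x} with hN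
      have hK := lcs_normal N (c + 1)
      set K := N.lowerCentralSeries (c + 1) with hKdef
      set π := QuotientGroup.mk' K with hπ
      have hmap : Subgroup.normalClosure {π x} = N.map π := by
        rw [hN, Subgroup.map_normalClosure _ _ (QuotientGroup.mk'_surjective K),
          Set.image_singleton]
      have hx' : IsRightEngel 4 (π x) := by
        intro g
        obtain ⟨g, rfl⟩ := QuotientGroup.mk'_surjective K g
        have e : ∀ k, engel (π x) (π g) k = π (engel x g k) := by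
          intro k
          induction k with
          | zero => rfl
          | succ k ih => simp only [engel, ih, comm, map_mul, map_inv]
        rw [← hπ, e, hx g, map_one]
      have hc' : (Subgroup.normalClosure {π x}).lowerCentralSeries (c + 1) = ⊥ := by
        rw [hmap, ← Subgroup.map_lowerCentralSeries, Subgroup.map_eq_bot_iff, hπ,
          QuotientGroup.ker_mk']
      have hz' : π z ∈ (Subgroup.normalClosure {π x}).lowerCentralSeries 3 := by
        rw [hmap, ← Subgroup.map_lowerCentralSeries]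
        exact Subgroup.mem_map_of_mem _ hz
      obtain ⟨m, hm⟩ := ih (π x) hx' hc' (π z) hz'
      rw [← map_pow, ← MonoidHom.mem_ker, hπ, QuotientGroup.ker_mk'] at hm
      obtain ⟨n, hn⟩ := last_tor (c := c + 1) hc rfl hx (by omega) _ hm
      exact ⟨m + n, by rw [pow_add, pow_mul]; exact hn⟩

/-- The fourth term of the lower central series of a nilpotent `⟨x⟩^G`, `x` right 4-Engel, is a
`{2,3,5}`-torsion group. -/
theorem main {G : Type*} [Group G] (x : G) (hx : IsRightEngel 4 x)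
    (hn : Group.IsNilpotent (Subgroup.normalClosure {x})) :
    ∀ z ∈ (Subgroup.normalClosure {x}).lowerCentralSeries 3, ∃ n : ℕ, z ^ (30 ^ n) = 1 := by
  obtain ⟨c, hc⟩ := (Subgroup.isNilpotent_iff_lowerCentralSeries _).mp hn
  refine main_aux c x hx ?_
  rw [eq_bot_iff, ← hc]
  exact Subgroup.lowerCentralSeries_antitone _ (Nat.le_succ c)

/-- Without elements of order `2`, `3`, `5` the class is at most `3`. -/
theorem class_le {G : Type*} [Group G] (hG : ∀ g : G, orderOf g ≠ 2 ∧ orderOf g ≠ 3 ∧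
      orderOf g ≠ 5) (x : G) (hx : IsRightEngel 4 x)
    (hn : Group.IsNilpotent (Subgroup.normalClosure {x})) :
    Group.nilpotencyClass (Subgroup.normalClosure {x}) ≤ 3 := by
  have p5 : Fact (Nat.Prime 5) := ⟨Nat.prime_five⟩
  have key : ∀ z : G, ∀ n : ℕ, z ^ (30 ^ n) = 1 → z = 1 := by
    intro z n
    induction n with
    | zero => intro h; simpa using h
    | succ n ih =>
      intro h
      apply ih
      set w := z ^ (30 ^ n) with hw
      have h1 : w ^ 30 = 1 := by rw [hw, ← pow_mul, ← pow_succ, h]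
      have h2 : (w ^ 6) ^ 5 = 1 := by rw [← pow_mul]; exact h1
      have h3 : w ^ 6 = 1 := by
        by_contra hne
        exact (hG (w ^ 6)).2.2 (orderOf_eq_prime h2 hne)
      have h4 : (w ^ 2) ^ 3 = 1 := by rw [← pow_mul]; exact h3
      have h5 : w ^ 2 = 1 := by
        by_contra hne
        exact (hG (w ^ 2)).2.1 (orderOf_eq_prime h4 hne)
      by_contra hne
      exact (hG w).1 (orderOf_eq_prime h5 hne)
  have h3 : (Subgroup.normalClosure {x}).lowerCentralSeries 3 = ⊥ := by
    rw [eq_bot_iff]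
    intro z hz
    obtain ⟨n, hn'⟩ := main x hx hn z hz
    exact Subgroup.mem_bot.mpr (key z n hn')
  rw [← Subgroup.lowerCentralSeries_eq_bot_iff_nilpotencyClass_le, ← Subgroup.map_subtype_inj,
    Subgroup.map_bot, Subgroup.top_subtype_lowerCentralSeries]
  exact h3

end Pool.Agent.Work.MP_d7201b_al
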