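import Pool.Agent.Work.MP_d7201b_al.Defs

/-!
# Filtered groups, pairs, and graded values

`Filt A` is a decreasing filtration of (a subgroup of) a group by subgroups with
`[S s, S t] ≤ S (s + t)`.  `Filt.prod` is the filtration on `A × A` of the pairs `(a, b)` with
`b a⁻¹` of weight one larger.  `Sys F V` is a family of maps `θ k : A → V` that is additive on
`S k` and kills `S (k + 1)`.  We transport such a family to `A × A`, together with the action of
an element of `S 0` and the bracket with an element of `S 1`.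
-/

namespace Pool.Agent.Work.MP_d7201b_al

/-- A filtration of (a subgroup of) a group by subgroups. -/
structure Filt (A : Type*) [Group A] where
  /-- the members of the filtration -/
  S : ℕ → Subgroup A
  /-- the filtration is decreasing -/
  anti : ∀ {s t : ℕ}, s ≤ t → S t ≤ S s
  /-- commutators add weights -/
  comm : ∀ {s t : ℕ} {a b : A}, a ∈ S s → b ∈ S t → comm a b ∈ S (s + t)

theorem conj_eq {A : Type*} [Group A] (a b : A) : b⁻¹ * a * b = a * comm a b := by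
  unfold comm; group

theorem comm_mul_left {A : Type*} [Group A] (x y z : A) :
    comm (x * y) z = (y⁻¹ * comm x z * y) * comm y z := by
  unfold comm; group

theorem comm_mul_right {A : Type*} [Group A] (x y z : A) :
    comm x (y * z) = comm x z * (z⁻¹ * comm x y * z) := by
  unfold comm; group

theorem comm_conj {A : Type*} [Group A] (x y g : A) :
    g⁻¹ * comm x y * g = comm (g⁻¹ * x * g) (g⁻¹ * y * g) := by
  unfold comm; group

theorem comm_prod {A B : Type*} [Group A] [Group B] (a b : A × B) :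
    comm a b = (comm a.1 b.1, comm a.2 b.2) := rfl

namespace Filt

variable {A : Type*} [Group A] (F : Filt A)

theorem conj {t : ℕ} {a b : A} (ha : a ∈ F.S t) (hb : b ∈ F.S 0) : b⁻¹ * a * b ∈ F.S t := by
  rw [conj_eq]
  exact mul_mem ha (F.comm ha hb)

theorem conj' {t : ℕ} {a b : A} (ha : a ∈ F.S t) (hb : b ∈ F.S 0) : b * a * b⁻¹ ∈ F.S t := by
  have := F.conj ha (inv_mem hb)
  simpa using this

theorem mem_zero {t : ℕ} {a : A} (ha : a ∈ F.S t) : a ∈ F.S 0 := F.anti (Nat.zero_le t) ha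

/-- The filtration on `A × A` of pairs `(a, b)` with `b a⁻¹` of weight one larger. -/
def prod : Filt (A × A) where
  S s :=
    { carrier := {x | x.1 ∈ F.S s ∧ x.2 * x.1⁻¹ ∈ F.S (s + 1)}
      one_mem' := by simp [one_mem]
      mul_mem' := by
        rintro ⟨a, b⟩ ⟨a', b'⟩ ⟨h1, h2⟩ ⟨h1', h2'⟩
        simp only at h1 h2 h1' h2'
        refine ⟨mul_mem h1 h1', ?_⟩
        have h3 := mul_mem h2 (F.conj' h2' (F.mem_zero h1))
        have e : b * a⁻¹ * (a * (b' * a'⁻¹) * a⁻¹) = (b * b') * (a * a')⁻¹ := by group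
        rw [e] at h3
        exact h3
      inv_mem' := by
        rintro ⟨a, b⟩ ⟨h1, h2⟩
        simp only at h1 h2
        refine ⟨inv_mem h1, ?_⟩
        have h3 := F.conj (inv_mem h2) (F.mem_zero h1)
        have e : a⁻¹ * (b * a⁻¹)⁻¹ * a = b⁻¹ * (a⁻¹)⁻¹ := by group
        rw [e] at h3
        exact h3 }
  anti := by
    intro s t hst x hx
    exact ⟨F.anti hst hx.1, F.anti (Nat.add_le_add_right hst 1) hx.2⟩
  comm := by
    rintro s t ⟨x, u⟩ ⟨y, v⟩ ⟨h1, h2⟩ ⟨h1', h2'⟩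
    simp only at h1 h2 h1' h2'
    refine ⟨F.comm h1 h1', ?_⟩
    show MP_d7201b_al.comm u v * (MP_d7201b_al.comm x y)⁻¹ ∈ F.S (s + t + 1)
    set d := u * x⁻¹ with hd
    set e := v * y⁻¹ with he
    have hu : u = d * x := by simp [hd]
    have hv : v = e * y := by simp [he]
    have hvt : v ∈ F.S t := by
      rw [hv]
      exact mul_mem (F.anti (Nat.le_add_right t 1) h2') h1'
    have hx0 := F.mem_zero h1
    have hy0 := F.mem_zero h1'
    have k1 : MP_d7201b_al.comm d v ∈ F.S (s + t + 1) := by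
      have := F.comm h2 hvt
      rwa [show s + 1 + t = s + t + 1 by omega] at this
    have k2 : MP_d7201b_al.comm x e ∈ F.S (s + t + 1) := by
      have := F.comm h1 h2'
      rwa [← add_assoc] at this
    have k3' := F.comm h1 h1'
    have k3 : MP_d7201b_al.comm x y ∈ F.S 0 := F.mem_zero k3'
    have key : MP_d7201b_al.comm u v * (MP_d7201b_al.comm x y)⁻¹ =
        (x⁻¹ * MP_d7201b_al.comm d v * x) *
          (MP_d7201b_al.comm x y * (y⁻¹ * MP_d7201b_al.comm x e * y) *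
            (MP_d7201b_al.comm x y)⁻¹) := by
      conv_lhs => rw [hu, comm_mul_left]
      have : MP_d7201b_al.comm x v = MP_d7201b_al.comm x y * (y⁻¹ * MP_d7201b_al.comm x e * y) := by
        rw [hv, comm_mul_right]
      rw [this]
      group
    rw [key]
    exact mul_mem (F.conj k1 hx0) (F.conj' (F.conj k2 hy0) k3)

theorem mem_prod {s : ℕ} {x : A × A} :
    x ∈ F.prod.S s ↔ x.1 ∈ F.S s ∧ x.2 * x.1⁻¹ ∈ F.S (s + 1) := Iff.rfl

theorem diag_mem {s : ℕ} {x : A} (hx : x ∈ F.S s) : (x, x) ∈ F.prod.S s := by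
  rw [mem_prod]
  exact ⟨hx, by simp [one_mem]⟩

end Filt

/-- Maps `θ k` that are additive on `S k` and kill `S (k + 1)`. -/
structure Sys {A : Type*} [Group A] (F : Filt A) (V : Type*) [AddCommGroup V] where
  /-- the maps -/
  θ : ℕ → A → V
  /-- additivity -/
  mul : ∀ {k : ℕ} {x y : A}, 1 ≤ k → x ∈ F.S k → y ∈ F.S k → θ k (x * y) = θ k x + θ k y
  /-- the next term is killed -/
  zero : ∀ {k : ℕ} {x : A}, 1 ≤ k → x ∈ F.S (k + 1) → θ k x = 0

namespace Sys

variable {A : Type*} [Group A] {F : Filt A} {V : Type*} [AddCommGroup V] (T : Sys F V)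

theorem one {k : ℕ} (hk : 1 ≤ k) : T.θ k 1 = 0 := T.zero hk (one_mem _)

theorem inv {k : ℕ} (hk : 1 ≤ k) {x : A} (hx : x ∈ F.S k) : T.θ k x⁻¹ = - T.θ k x := by
  have := T.mul hk hx (inv_mem hx)
  rw [mul_inv_cancel, T.one hk] at this
  exact (neg_eq_of_add_eq_zero_right this.symm).symm

theorem conj {k : ℕ} (hk : 1 ≤ k) {x y : A} (hx : x ∈ F.S k) (hy : y ∈ F.S 1) :
    T.θ k (y⁻¹ * x * y) = T.θ k x := by
  have hc : MP_d7201b_al.comm x y ∈ F.S (k + 1) := F.comm hx hy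
  rw [conj_eq, T.mul hk hx (F.anti (Nat.le_succ k) hc), T.zero hk hc, add_zero]

theorem conj' {k : ℕ} (hk : 1 ≤ k) {x y : A} (hx : x ∈ F.S k) (hy : y ∈ F.S 1) :
    T.θ k (y * x * y⁻¹) = T.θ k x := by
  have := T.conj hk hx (inv_mem hy)
  simpa using this

theorem comm_add_left {i j : ℕ} (hi : 1 ≤ i) (hj : 1 ≤ j) {x y z : A}
    (hx : x ∈ F.S i) (hy : y ∈ F.S i) (hz : z ∈ F.S j) :
    T.θ (i + j) (MP_d7201b_al.comm (x * y) z) =
      T.θ (i + j) (MP_d7201b_al.comm x z) + T.θ (i + j) (MP_d7201b_al.comm y z) := by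
  have h1 : MP_d7201b_al.comm x z ∈ F.S (i + j) := F.comm hx hz
  have h2 : MP_d7201b_al.comm y z ∈ F.S (i + j) := F.comm hy hz
  rw [comm_mul_left, T.mul (by omega) (F.conj h1 (F.mem_zero hy)) h2,
    T.conj (by omega) h1 (F.anti hi hy)]

theorem comm_add_right {i j : ℕ} (hi : 1 ≤ i) (hj : 1 ≤ j) {x y z : A}
    (hx : x ∈ F.S i) (hy : y ∈ F.S j) (hz : z ∈ F.S j) :
    T.θ (i + j) (MP_d7201b_al.comm x (y * z)) =
      T.θ (i + j) (MP_d7201b_al.comm x y) + T.θ (i + j) (MP_d7201b_al.comm x z) := by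
  have h1 : MP_d7201b_al.comm x z ∈ F.S (i + j) := F.comm hx hz
  have h2 : MP_d7201b_al.comm x y ∈ F.S (i + j) := F.comm hx hy
  rw [comm_mul_right, T.mul (by omega) h1 (F.conj h2 (F.mem_zero hz)),
    T.conj (by omega) h2 (F.anti hj hz), add_comm]

/-- The maps on pairs. -/
def prod : Sys F.prod (V × V) where
  θ k x := (T.θ k x.1, T.θ (k + 1) (x.2 * x.1⁻¹))
  mul := by
    rintro k ⟨x, u⟩ ⟨y, v⟩ hk ⟨h1, h2⟩ ⟨h1', h2'⟩
    simp only at h1 h2 h1' h2'
    refine Prod.ext (T.mul hk h1 h1') ?_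
    show T.θ (k + 1) (u * v * (x * y)⁻¹) = T.θ (k + 1) (u * x⁻¹) + T.θ (k + 1) (v * y⁻¹)
    have e : u * v * (x * y)⁻¹ = (u * x⁻¹) * (x * (v * y⁻¹) * x⁻¹) := by group
    rw [e, T.mul (by omega) h2 (F.conj' h2' (F.mem_zero h1)),
      T.conj' (by omega) h2' (F.anti hk h1)]
  zero := by
    rintro k ⟨x, u⟩ hk ⟨h1, h2⟩
    exact Prod.ext (T.zero hk h1) (T.zero (by omega) h2)

theorem prod_θ (k : ℕ) (x : A × A) :
    T.prod.θ k x = (T.θ k x.1, T.θ (k + 1) (x.2 * x.1⁻¹)) := rfl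

theorem prod_diag {k : ℕ} (hk : 1 ≤ k) (x : A) : T.prod.θ k (x, x) = (T.θ k x, 0) := by
  rw [prod_θ]
  simp only [mul_inv_cancel]
  rw [T.one (by omega)]

/-- `φ` describes the effect of conjugation by `h`. -/
def IsOp (h : A) (φ : V →+ V) : Prop :=
  h ∈ F.S 0 ∧ ∀ {k : ℕ} {x : A}, 1 ≤ k → x ∈ F.S k → T.θ k (h⁻¹ * x * h) = φ (T.θ k x)

/-- `ψ` describes the bracket with `n`. -/
def IsBr (n : A) (ψ : V →+ V) : Prop :=
  n ∈ F.S 1 ∧ ∀ {k : ℕ} {x : A}, 1 ≤ k → x ∈ F.S k →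
    T.θ (k + 1) (MP_d7201b_al.comm x n) = ψ (T.θ k x)

/-- The operator on pairs belonging to the pair `(h, h n)`. -/
def dual (φ ψ : V →+ V) : V × V →+ V × V where
  toFun p := (φ p.1, φ p.2 + ψ (φ p.1))
  map_zero' := by simp
  map_add' p q := by
    ext
    · simp
    · simp only [Prod.snd_add, Prod.fst_add, map_add]; abel

@[simp] theorem dual_apply (φ ψ : V →+ V) (p : V × V) :
    dual φ ψ p = (φ p.1, φ p.2 + ψ (φ p.1)) := rfl

/-- The componentwise operator on pairs. -/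
def both (ψ : V →+ V) : V × V →+ V × V where
  toFun p := (ψ p.1, ψ p.2)
  map_zero' := by simp
  map_add' p q := by
    ext <;> simp

@[simp] theorem both_apply (ψ : V →+ V) (p : V × V) : both ψ p = (ψ p.1, ψ p.2) := rfl

theorem IsOp.prod {T : Sys F V} {h n : A} {φ ψ : V →+ V} (ho : T.IsOp h φ) (hb : T.IsBr n ψ) :
    T.prod.IsOp (h, h * n) (dual φ ψ) := by
  obtain ⟨h0, hφ⟩ := ho
  obtain ⟨h1, hψ⟩ := hb
  refine ⟨?_, ?_⟩
  · rw [Filt.mem_prod]
    exact ⟨h0, by simpa using F.conj' h1 h0⟩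
  · rintro k ⟨x, u⟩ hk ⟨hx, hu⟩
    simp only at hx hu
    refine Prod.ext (hφ hk hx) ?_
    show T.θ (k + 1) ((h * n)⁻¹ * u * (h * n) * (h⁻¹ * x * h)⁻¹) =
      φ (T.θ (k + 1) (u * x⁻¹)) + ψ (φ (T.θ k x))
    set d := h⁻¹ * (u * x⁻¹) * h with hd
    set b := h⁻¹ * x * h with hb
    have hdm : d ∈ F.S (k + 1) := F.conj hu h0
    have hbm : b ∈ F.S k := F.conj hx h0
    have hc : MP_d7201b_al.comm b n ∈ F.S (k + 1) := F.comm hbm h1
    have e : (h * n)⁻¹ * u * (h * n) * (h⁻¹ * x * h)⁻¹ =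
        (n⁻¹ * d * n) * (b * MP_d7201b_al.comm b n * b⁻¹) := by
      rw [hd, hb]; unfold MP_d7201b_al.comm; group
    rw [e, T.mul (by omega) (F.conj hdm (F.mem_zero h1)) (F.conj' hc (F.mem_zero hbm)),
      T.conj (by omega) hdm h1, T.conj' (by omega) hc (F.anti hk hbm), hd, hφ (by omega) hu,
      hψ hk hbm, hb, hφ hk hx]

theorem IsBr.prod {T : Sys F V} {n : A} {ψ : V →+ V} (hb : T.IsBr n ψ) :
    T.prod.IsBr (n, n) (both ψ) := by
  obtain ⟨h1, hψ⟩ := hb
  refine ⟨F.diag_mem h1, ?_⟩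
  rintro k ⟨x, u⟩ hk ⟨hx, hu⟩
  simp only at hx hu
  refine Prod.ext (hψ hk hx) ?_
  show T.θ (k + 1 + 1) (MP_d7201b_al.comm u n * (MP_d7201b_al.comm x n)⁻¹) =
    ψ (T.θ (k + 1) (u * x⁻¹))
  have hc : MP_d7201b_al.comm (u * x⁻¹) n ∈ F.S (k + 1 + 1) := F.comm hu h1
  have e : MP_d7201b_al.comm u n * (MP_d7201b_al.comm x n)⁻¹ =
      x⁻¹ * MP_d7201b_al.comm (u * x⁻¹) n * x := by
    unfold MP_d7201b_al.comm; group
  rw [e, T.conj (by omega) hc (F.anti hk hx), hψ (by omega) hu]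

theorem engel_mem {a h : A} (ha : a ∈ F.S 1) (hh : h ∈ F.S 0) (k : ℕ) : engel a h k ∈ F.S 1 := by
  induction k with
  | zero => exact ha
  | succ k ih => exact F.comm ih hh

theorem engel_succ {T : Sys F V} {h a : A} {φ : V →+ V} (ho : T.IsOp h φ) (ha : a ∈ F.S 1)
    (k : ℕ) : T.θ 1 (engel a h (k + 1)) = φ (T.θ 1 (engel a h k)) - T.θ 1 (engel a h k) := by
  have hk := engel_mem ha ho.1 k
  have e : engel a h (k + 1) = (engel a h k)⁻¹ * (h⁻¹ * engel a h k * h) := by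
    show MP_d7201b_al.comm _ _ = _
    unfold MP_d7201b_al.comm; group
  rw [e, T.mul le_rfl (inv_mem hk) (F.conj hk ho.1), T.inv le_rfl hk, ho.2 le_rfl hk]
  abel

/-- The relation coming from `[a, h, h, h, h] = 1`. -/
theorem engel_rel {T : Sys F V} {h a : A} {φ : V →+ V} (ho : T.IsOp h φ) (ha : a ∈ F.S 1)
    (he : engel a h 4 = 1) :
    φ (φ (φ (φ (T.θ 1 a)))) - 4 • φ (φ (φ (T.θ 1 a))) + 6 • φ (φ (T.θ 1 a)) - 4 • φ (T.θ 1 a)
      + T.θ 1 a = 0 := by
  have h1 := engel_succ ho ha 0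
  have h2 := engel_succ ho ha 1
  have h3 := engel_succ ho ha 2
  have h4 := engel_succ ho ha 3
  simp only [zero_add, Nat.reduceAdd] at h1 h2 h3 h4
  have h0 : T.θ 1 (engel a h 0) = T.θ 1 a := rfl
  rw [h0] at h1
  rw [h1] at h2
  rw [h2] at h3
  rw [h3, he, T.one le_rfl] at h4
  rw [h4]
  simp only [map_sub]
  abel

theorem engel_pair {B : Type*} [Group B] (a h : A) (b g : B) (k : ℕ) :
    engel (a, b) (h, g) k = (engel a h k, engel b g k) := by
  induction k with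
  | zero => rfl
  | succ k ih =>
    show MP_d7201b_al.comm _ _ = _
    rw [ih]; rfl

end Sys

end Pool.Agent.Work.MP_d7201b_al
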